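import Pool.Agent.H296R4.Lam

/-!
# The abstract setting and the one-step construction
-/

open Filter Topology

namespace Pool.Agent.H296R4

/-- An abstract version of `L_p(ℝ)` with its integer translations and its averaging projections. -/
structure Sys (𝕜 : Type*) [RCLike 𝕜] (X : Type*) [NormedAddCommGroup X] [NormedSpace 𝕜 X]
    (P : ℝ) where
  T : ℤ → X →L[𝕜] X
  T_zero : ∀ x, T 0 x = x
  T_add : ∀ a b x, T (a + b) x = T a (T b x)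
  T_norm : ∀ a x, ‖T a x‖ = ‖x‖
  pr : ℕ → X →L[𝕜] X
  pr_fin : ∀ n, FiniteDimensional 𝕜 (LinearMap.range (pr n).toLinearMap)
  pr_comp : ∀ m n, m ≤ n → ∀ x, pr m (pr n x) = pr m x
  pr_comp' : ∀ m n, m ≤ n → ∀ x, pr n (pr m x) = pr m x
  pr_lim : ∀ x, Tendsto (fun n => pr n x) atTop (𝓝 x)
  shift_in : ∀ (m n : ℕ) (l : ℤ) (y : X), pr m y = y → |l| + 2 ^ m ≤ 2 ^ n → pr n (T l y) = T l y
  shift_out : ∀ (m : ℕ) (l : ℤ) (y : X), pr m y = y → 2 ^ (m + 1) ≤ |l| → pr m (T l y) = 0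
  sep : ∀ (ι : Type) (s : Finset ι) (m : ι → ℕ) (μ : ι → ℤ) (y : ι → X),
    (∀ i ∈ s, pr (m i) (y i) = y i) →
    (∀ i ∈ s, ∀ j ∈ s, i ≠ j → 2 ^ (m i) + 2 ^ (m j) ≤ |μ i - μ j|) →
    ‖∑ i ∈ s, T (μ i) (y i)‖ ^ P = ∑ i ∈ s, ‖y i‖ ^ P
  α : X →L[𝕜] 𝕜
  α_sum : ∀ (F : Finset ℤ) (x : X), ∑ l ∈ F, ‖α (T (-l) x)‖ ^ P ≤ ‖x‖ ^ P
  α_in : ∀ (n : ℕ) (l : ℤ) (x : X), -2 ^ n ≤ l → l < 2 ^ n → α (T (-l) (pr n x)) = α (T (-l) x)
  α_out : ∀ (n : ℕ) (l : ℤ) (x : X), 2 ^ n ≤ |l| → l ≠ -2 ^ n → α (T (-l) (pr n x)) = 0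
  e : X
  e_pr : pr 0 e = e
  e_α : α e = 1
  unc : ∃ C : ℝ, 0 ≤ C ∧ ∀ (F : Finset ℕ) (x : X), ‖∑ j ∈ F, (pr (j + 1) x - pr j x)‖ ≤ C * ‖x‖

section

variable {𝕜 : Type*} [RCLike 𝕜] {X : Type*} [NormedAddCommGroup X] [NormedSpace 𝕜 X] {P : ℝ}
  (Y : Sys 𝕜 X P)

include Y

theorem Sys.sep' (ι : Type) [Fintype ι] (m : ℕ) (μ : ι → ℤ) (y : ι → X)
    (h1 : ∀ i, Y.pr m (y i) = y i) (h2 : ∀ i j, i ≠ j → 2 ^ (m + 1) ≤ |μ i - μ j|) :
    ‖∑ i, Y.T (μ i) (y i)‖ ^ P = ∑ i, ‖y i‖ ^ P := by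
  apply Y.sep ι Finset.univ (fun _ => m) μ y (fun i _ => h1 i)
  intro i _ j _ hij
  have := h2 i j hij
  rw [pow_succ] at this
  linarith

/-- The zero-sum functionals. -/
noncomputable def acl (m r N : ℕ) (j : Fin r × Fin N) : X →L[𝕜] 𝕜 :=
  Y.α.comp (Y.T (-lam m j)) - ((N : 𝕜)⁻¹) • ∑ i : Fin N, Y.α.comp (Y.T (-lam m (j.1, i)))

theorem acl_apply (m r N : ℕ) (j : Fin r × Fin N) (x : X) :
    acl Y m r N j x = Y.α (Y.T (-lam m j) x) -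
      ((N : 𝕜)⁻¹) * ∑ i : Fin N, Y.α (Y.T (-lam m (j.1, i)) x) := by
  simp [acl]

theorem acl_congr (m r N : ℕ) (x y : X)
    (h : ∀ j : Fin r × Fin N, Y.α (Y.T (-lam m j) x) = Y.α (Y.T (-lam m j) y))
    (j : Fin r × Fin N) : acl Y m r N j x = acl Y m r N j y := by
  rw [acl_apply, acl_apply, h j]
  congr 2
  exact Finset.sum_congr rfl fun i _ => h (j.1, i)

theorem acl_sum (m r N : ℕ) (hN : 0 < N) (s : Fin r) (x : X) :
    ∑ i : Fin N, acl Y m r N (s, i) x = 0 := by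
  have hN' : (N : 𝕜) ≠ 0 := by exact_mod_cast hN.ne'
  simp only [acl_apply, Finset.sum_sub_distrib, Finset.sum_const, Finset.card_univ,
    Fintype.card_fin, nsmul_eq_mul]
  rw [← mul_assoc, mul_inv_cancel₀ hN', one_mul, sub_self]

theorem acl_bound (hP : 1 ≤ P) (m r N : ℕ) (hN : 0 < N) (x : X) :
    ∑ j, ‖acl Y m r N j x‖ ^ P ≤ 2 ^ (P + 1) * ∑ j, ‖Y.α (Y.T (-lam m (r := r) (N := N) j) x)‖ ^ P := by
  have hN' : (0 : ℝ) < N := by exact_mod_cast hN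
  have hP0 : 0 ≤ P := by linarith
  set v : Fin r × Fin N → ℝ := fun j => ‖Y.α (Y.T (-lam m j) x)‖ with hv
  have hv0 : ∀ j, 0 ≤ v j := fun j => norm_nonneg _
  -- the average
  have havg : ∀ s : Fin r, ‖((N : 𝕜)⁻¹) * ∑ i : Fin N, Y.α (Y.T (-lam m (s, i)) x)‖ ^ P ≤
      (N : ℝ)⁻¹ * ∑ i : Fin N, v (s, i) ^ P := by
    intro s
    have h1 : ‖((N : 𝕜)⁻¹) * ∑ i : Fin N, Y.α (Y.T (-lam m (s, i)) x)‖ ≤
        ∑ i : Fin N, (N : ℝ)⁻¹ * v (s, i) := by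
      rw [norm_mul, norm_inv, RCLike.norm_natCast, ← Finset.mul_sum]
      exact mul_le_mul_of_nonneg_left (norm_sum_le _ _) (by positivity)
    refine (Real.rpow_le_rpow (norm_nonneg _) h1 hP0).trans ?_
    have h2 := Real.rpow_arith_mean_le_arith_mean_rpow (Finset.univ : Finset (Fin N))
      (fun _ => (N : ℝ)⁻¹) (fun i => v (s, i)) (fun _ _ => by positivity)
      (by simp [hN'.ne']) (fun i _ => hv0 _) hP
    rw [Finset.mul_sum]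
    exact h2
  have h3 : ∀ j, ‖acl Y m r N j x‖ ^ P ≤
      2 ^ P * (v j ^ P + (N : ℝ)⁻¹ * ∑ i : Fin N, v (j.1, i) ^ P) := by
    intro j
    rw [acl_apply]
    refine (Real.rpow_le_rpow (norm_nonneg _) (norm_sub_le _ _) hP0).trans ?_
    refine (rpow_add_le hP0 (norm_nonneg _) (norm_nonneg _)).trans ?_
    apply mul_le_mul_of_nonneg_left _ (by positivity)
    exact add_le_add le_rfl (havg j.1)
  refine (Finset.sum_le_sum fun j _ => h3 j).trans ?_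
  rw [← Finset.mul_sum, Finset.sum_add_distrib]
  have h4 : ∑ j : Fin r × Fin N, (N : ℝ)⁻¹ * ∑ i : Fin N, v (j.1, i) ^ P = ∑ j, v j ^ P := by
    rw [Fintype.sum_prod_type, Fintype.sum_prod_type]
    apply Finset.sum_congr rfl
    intro s _
    simp only [Finset.sum_const, Finset.card_univ, Fintype.card_fin, nsmul_eq_mul]
    rw [← mul_assoc, mul_inv_cancel₀ hN'.ne', one_mul]
  rw [h4, Real.rpow_add (by norm_num), Real.rpow_one]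
  apply le_of_eq
  ring

end

end Pool.Agent.H296R4
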