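import Pool.Agent.H296R4.Step

/-!
# The recursion and the decomposition
-/

open Filter Topology

namespace Pool.Agent.H296R4

section

variable {𝕜 : Type*} [RCLike 𝕜] {X : Type*} [NormedAddCommGroup X] [NormedSpace 𝕜 X] {P : ℝ}

/-- A state of the construction. -/
structure St (Y : Sys 𝕜 X P) where
  m : ℕ
  f : X
  S : X →L[𝕜] X
  tol : ℝ
  hf : Y.pr m f = f
  hα : Y.α f = 1
  hfd : FiniteDimensional 𝕜 (LinearMap.range S.toLinearMap)
  hS1 : ∀ x, Y.pr m (S x) = S x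
  hS2 : ∀ x, S (Y.pr m x) = S x
  hS3 : ∀ x, S (S x) = S x
  hS0 : S ≠ 0
  htol : 0 < tol

/-- The data of one step. -/
structure Dat (Y : Sys 𝕜 X P) (k : ℕ) (s t : St Y) where
  r : ℕ
  N : ℕ
  z : Fin r × Fin N → X →L[𝕜] 𝕜
  R : X →L[𝕜] X
  hr : 0 < r
  hN : 0 < N
  hm : t.m = s.m + 1 + r * N
  hnorm : ‖t.f - s.f‖ ≤ s.tol / 2
  hR : ∀ x, R x = ∑ j, acl Y s.m r N j x • Y.T (lam s.m j) s.f
  hRR : ∀ x, R (R x) = R x
  hR1 : ∀ x, Y.pr t.m (R x) = R x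
  hR2 : ∀ x, R (Y.pr t.m x) = R x
  hR3 : ∀ x, Y.pr s.m (R x) = 0
  hR4 : ∀ x, R (Y.pr s.m x) = 0
  happ : ∀ x, ‖∑ j, z j x • Y.T (lam s.m j) t.f - (R x + s.S x)‖ ≤ (1 / 2) ^ (k + 3) * ‖x‖
  hz : ∀ j x, z j (R x + s.S x) = z j x
  hsurj : ∀ w : Fin r × Fin N → 𝕜, ∃ x, ∀ j, z j x = w j
  hS : t.S = Y.pr t.m - Y.pr s.m - R
  htol1 : t.tol ≤ s.tol / 2
  htol2 : t.tol * ∑ j, ‖z j‖ ≤ (1 / 2) ^ (k + 3)

theorem exists_next (Y : Sys 𝕜 X P) (hP : 2 < P) (k : ℕ) (s : St Y) :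
    ∃ t : St Y, Nonempty (Dat Y k s t) := by
  haveI := s.hfd
  obtain ⟨r, N, f₁, z, R, hr, hN, h1, h2, h3, h4, h5, h6, h7, h8, h9, h10, h11, h12, h13⟩ :=
    step_core Y hP s.m s.f s.hf s.hα s.S s.hS1 s.hS2 s.hS3 s.hS0
      (min (s.tol / 2) ((1 / 2) ^ (k + 3))) (lt_min (by have := s.htol; linarith) (by positivity))
  set n := s.m + 1 + r * N with hn
  have hmn : s.m ≤ n := by omega
  have hz0 : 0 ≤ ∑ j, ‖z j‖ := Finset.sum_nonneg fun _ _ => norm_nonneg _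
  set S' : X →L[𝕜] X := Y.pr n - Y.pr s.m - R with hS'
  have hS'x : ∀ x, S' x = Y.pr n x - Y.pr s.m x - R x := fun x => rfl
  have e1 : ∀ x, Y.pr n (S' x) = S' x := by
    intro x
    rw [hS'x, map_sub, map_sub, Y.pr_comp n n le_rfl, Y.pr_comp' s.m n hmn, h6]
  have e2 : ∀ x, S' (Y.pr n x) = S' x := by
    intro x
    rw [hS'x, hS'x, Y.pr_comp n n le_rfl, Y.pr_comp s.m n hmn, h7]
  have e3 : ∀ x, Y.pr s.m (S' x) = 0 := by
    intro x
    rw [hS'x, map_sub, map_sub, Y.pr_comp s.m n hmn, Y.pr_comp s.m s.m le_rfl, h8]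
    simp
  have e4 : ∀ x, R (S' x) = 0 := by
    intro x
    rw [hS'x, map_sub, map_sub, h7, h9, h5]
    simp
  have e5 : ∀ x, S' (S' x) = S' x := by
    intro x
    rw [hS'x (S' x), e1, e3, e4]
    simp
  refine ⟨⟨n, f₁, S', min (s.tol / 2) ((1 / 2) ^ (k + 3) / (1 + ∑ j, ‖z j‖)), h1, h2, ?_, e1, e2, e5,
    h13, lt_min (by have := s.htol; linarith) (by positivity)⟩,
    ⟨⟨r, N, z, R, hr, hN, rfl, ?_, h4, h5, h6, h7, h8, h9, ?_, h11, h12, rfl, min_le_left _ _, ?_⟩⟩⟩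
  · haveI := Y.pr_fin n
    apply Submodule.finiteDimensional_of_le (S₂ := LinearMap.range (Y.pr n).toLinearMap)
    rintro _ ⟨x, rfl⟩
    exact ⟨S' x, e1 x⟩
  · exact h3.trans (min_le_left _ _)
  · intro x
    exact (h10 x).trans (mul_le_mul_of_nonneg_right (min_le_right _ _) (norm_nonneg _))
  · calc min (s.tol / 2) ((1 / 2) ^ (k + 3) / (1 + ∑ j, ‖z j‖)) * ∑ j, ‖z j‖
        ≤ ((1 / 2) ^ (k + 3) / (1 + ∑ j, ‖z j‖)) * (1 + ∑ j, ‖z j‖) := by
          apply mul_le_mul (min_le_right _ _) (by linarith) hz0 (by positivity)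
      _ = (1 / 2) ^ (k + 3) := by field_simp

/-- The initial state. -/
noncomputable def st0 (Y : Sys 𝕜 X P) : St Y where
  m := 0
  f := Y.e
  S := Y.pr 0
  tol := 1
  hf := Y.e_pr
  hα := Y.e_α
  hfd := Y.pr_fin 0
  hS1 := Y.pr_comp 0 0 le_rfl
  hS2 := Y.pr_comp 0 0 le_rfl
  hS3 := Y.pr_comp 0 0 le_rfl
  hS0 := by
    intro h
    have h1 := Y.e_pr
    rw [h] at h1
    have h2 := Y.e_α
    rw [← h1] at h2
    simp at h2
  htol := one_pos

theorem exists_seq (Y : Sys 𝕜 X P) (hP : 2 < P) :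
    ∃ (s : ℕ → St Y) (_ : ∀ k, Dat Y k (s k) (s (k + 1))), s 0 = st0 Y := by
  let s : ℕ → St Y := fun n => Nat.rec (st0 Y) (fun k t => Classical.choose (exists_next Y hP k t)) n
  refine ⟨s, fun k => Classical.choice (Classical.choose_spec (exists_next Y hP k (s k))), rfl⟩

end

section

variable {𝕜 : Type*} [RCLike 𝕜] {X : Type*} [NormedAddCommGroup X] [NormedSpace 𝕜 X]

theorem hasSum_of_bdd (Q : ℕ → X →L[𝕜] X) (C : ℝ)
    (hC : ∀ (F : Finset ℕ) (x : X), ‖∑ k ∈ F, Q k x‖ ≤ C * ‖x‖)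
    (hQ : ∀ k x, Q k (Q k x) = Q k x) (hQ' : ∀ j k x, j ≠ k → Q j (Q k x) = 0)
    (hlim : ∀ x, Tendsto (fun n => ∑ k ∈ Finset.range n, Q k x) atTop (𝓝 x)) (x : X) :
    HasSum (fun k => Q k x) x := by
  rw [HasSum, SummationFilter.unconditional_filter, Metric.tendsto_atTop]
  intro ε hε
  have hC0 : 0 ≤ C ∨ C < 0 := le_or_gt 0 C
  set C' := max C 0 with hC'
  have hC'0 : 0 ≤ C' := le_max_right _ _
  have hCC : ∀ (F : Finset ℕ) (x : X), ‖∑ k ∈ F, Q k x‖ ≤ C' * ‖x‖ := fun F x =>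
    (hC F x).trans (mul_le_mul_of_nonneg_right (le_max_left _ _) (norm_nonneg _))
  obtain ⟨n, hn⟩ := (Metric.tendsto_atTop.mp (hlim x)) (ε / (C' + 1)) (by positivity)
  refine ⟨Finset.range n, fun F hF => ?_⟩
  set A := ∑ k ∈ Finset.range n, Q k x with hA
  have h1 := hn n le_rfl
  rw [dist_eq_norm] at h1 ⊢
  have h2 : ∀ k, Q k A = if k < n then Q k x else 0 := by
    intro k
    rw [hA, map_sum]
    by_cases hk : k < n
    · rw [if_pos hk, Finset.sum_eq_single k]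
      · exact hQ k x
      · intro j _ hj
        exact hQ' k j x hj.symm
      · intro h
        exact absurd (Finset.mem_range.mpr hk) h
    · rw [if_neg hk]
      apply Finset.sum_eq_zero
      intro j hj
      apply hQ'
      intro h
      rw [Finset.mem_range] at hj
      omega
  have h3 : ∑ k ∈ F, Q k A = A := by
    rw [Finset.sum_congr rfl fun k _ => h2 k, ← Finset.sum_filter]
    rw [hA]
    apply Finset.sum_congr _ fun _ _ => rfl
    ext k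
    simp only [Finset.mem_filter, Finset.mem_range]
    constructor
    · exact fun h => h.2
    · exact fun h => ⟨hF (Finset.mem_range.mpr h), h⟩
  have h4 : ∑ k ∈ F, Q k x - x = ∑ k ∈ F, Q k (x - A) + (A - x) := by
    simp only [map_sub, Finset.sum_sub_distrib]
    rw [h3]
    abel
  rw [h4]
  have h5 := hCC F (x - A)
  have h6 : ‖x - A‖ = ‖A - x‖ := norm_sub_rev _ _
  rw [h6] at h5
  calc ‖∑ k ∈ F, Q k (x - A) + (A - x)‖ ≤ C' * ‖A - x‖ + ‖A - x‖ := by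
        refine (norm_add_le _ _).trans ?_
        linarith
    _ = (C' + 1) * ‖A - x‖ := by ring
    _ < (C' + 1) * (ε / (C' + 1)) := by
        apply mul_lt_mul_of_pos_left h1 (by positivity)
    _ = ε := by field_simp

end

end Pool.Agent.H296R4
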