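import Mathlib

/-!
# A zigzag-concave function (after Burkholder)
-/

open Real

namespace Pool.Agent.H296R4

/-- `θ = 1 - 1/P`. -/
noncomputable def th (P : ℝ) : ℝ := 1 - 1 / P

theorem th_mul {P : ℝ} (hP : 2 < P) : th P * P = P - 1 := by
  unfold th
  field_simp

theorem th_nonneg {P : ℝ} (hP : 2 < P) : 0 ≤ th P := by
  have := th_mul hP
  by_contra hcon
  push Not at hcon
  nlinarith

theorem th_lt {P : ℝ} (hP : 2 < P) : th P < 1 := by
  unfold th
  have : 0 < 1 / P := by positivity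
  linarith

/-- The auxiliary function `a u + b u^(P-1) - θ u^P`. -/
noncomputable def ga (P a b u : ℝ) : ℝ := a * u + b * u ^ (P - 1) - th P * u ^ P

theorem ga_one (P a b : ℝ) : ga P a b 1 = a + b - th P := by
  unfold ga
  rw [one_rpow, one_rpow]
  ring

theorem ga_deriv {P : ℝ} (hP : 2 < P) (a b : ℝ) {u : ℝ} (hu : 0 < u) :
    HasDerivAt (ga P a b) (a + b * ((P - 1) * u ^ (P - 2)) - (P - 1) * u ^ (P - 1)) u := by
  have h1 := (Real.hasDerivAt_rpow_const (x := u) (p := P - 1) (Or.inl hu.ne')).const_mul b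
  have h2 := (Real.hasDerivAt_rpow_const (x := u) (p := P) (Or.inl hu.ne')).const_mul (th P)
  have h3 := (hasDerivAt_id u).const_mul a
  have h4 := (h3.add h1).sub h2
  have e : P - 1 - 1 = P - 2 := by ring
  rw [e] at h4
  have e2 : th P * (P * u ^ (P - 1)) = (P - 1) * u ^ (P - 1) := by
    rw [← mul_assoc, th_mul hP]
  rw [e2, mul_one] at h4
  exact h4

/-- Concavity and monotonicity of the auxiliary functions on `[1, ∞)`. -/
theorem ga_props {P : ℝ} (hP : 2 < P) {a b : ℝ} (hab : (a = -1 ∧ b = 1) ∨ (a = 1 ∧ b = -1)) :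
    ConcaveOn ℝ (Set.Ici 1) (ga P a b) ∧ AntitoneOn (ga P a b) (Set.Ici 1) := by
  have hcont : ContinuousOn (ga P a b) (Set.Ici 1) := fun u hu =>
    (ga_deriv hP a b (lt_of_lt_of_le one_pos hu)).continuousAt.continuousWithinAt
  have hint : interior (Set.Ici (1 : ℝ)) = Set.Ioi 1 := interior_Ici
  have hdiff : DifferentiableOn ℝ (ga P a b) (interior (Set.Ici 1)) := by
    rw [hint]
    exact fun u hu => (ga_deriv hP a b (lt_trans one_pos hu)).differentiableAt.differentiableWithinAt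
  have hder : ∀ u ∈ interior (Set.Ici (1 : ℝ)), deriv (ga P a b) u =
      a + b * ((P - 1) * u ^ (P - 2)) - (P - 1) * u ^ (P - 1) := by
    rw [hint]
    exact fun u hu => (ga_deriv hP a b (lt_trans one_pos hu)).deriv
  have hfac : ∀ u : ℝ, 0 < u → u ^ (P - 1) = u ^ (P - 2) * u := by
    intro u hu
    have : u ^ (P - 1) = u ^ (P - 2 + 1) := by congr 1; ring
    rw [this, rpow_add hu, rpow_one]
  have hone : ∀ u : ℝ, 1 ≤ u → 1 ≤ u ^ (P - 2) := fun u hu =>
    Real.one_le_rpow hu (by linarith)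
  constructor
  · apply AntitoneOn.concaveOn_of_deriv (convex_Ici 1) hcont hdiff
    intro u hu v hv huv
    rw [hder u hu, hder v hv]
    rw [hint, Set.mem_Ioi] at hu hv
    have h1 : u ^ (P - 2) ≤ v ^ (P - 2) := rpow_le_rpow (by linarith) huv (by linarith)
    have h2 := hone u hu.le
    rw [hfac u (by linarith), hfac v (by linarith)]
    rcases hab with ⟨rfl, rfl⟩ | ⟨rfl, rfl⟩
    · have h3 : u ^ (P - 2) * (u - 1) ≤ v ^ (P - 2) * (v - 1) :=
        mul_le_mul h1 (by linarith) (by linarith) (by linarith)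
      nlinarith
    · have h3 : u ^ (P - 2) * (u + 1) ≤ v ^ (P - 2) * (v + 1) :=
        mul_le_mul h1 (by linarith) (by linarith) (by linarith)
      nlinarith
  · apply antitoneOn_of_deriv_nonpos (convex_Ici 1) hcont hdiff
    intro u hu
    rw [hder u hu]
    rw [hint, Set.mem_Ioi] at hu
    have h2 := hone u hu.le
    rw [hfac u (by linarith)]
    rcases hab with ⟨rfl, rfl⟩ | ⟨rfl, rfl⟩
    · have h3 : 0 ≤ u ^ (P - 2) * (u - 1) := mul_nonneg (by linarith) (by linarith)
      nlinarith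
    · have h3 : 1 * 2 ≤ u ^ (P - 2) * (u + 1) :=
        mul_le_mul h2 (by linarith) (by norm_num) (by linarith)
      nlinarith

theorem mid_of_props {f : ℝ → ℝ} (h1 : ConcaveOn ℝ (Set.Ici 1) f)
    (h2 : AntitoneOn f (Set.Ici 1)) (s h : ℝ) :
    f (max (s + h) 1) + f (max (s - h) 1) ≤ 2 * f (max s 1) := by
  have h3 := h1.2 (Set.mem_Ici.mpr (le_max_right (s + h) 1))
    (Set.mem_Ici.mpr (le_max_right (s - h) 1)) (by norm_num : (0 : ℝ) ≤ 1 / 2)
    (by norm_num : (0 : ℝ) ≤ 1 / 2) (by norm_num)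
  simp only [smul_eq_mul] at h3
  have h4 : max s 1 ≤ 1 / 2 * max (s + h) 1 + 1 / 2 * max (s - h) 1 := by
    apply max_le
    · have := le_max_left (s + h) 1
      have := le_max_left (s - h) 1
      linarith
    · have := le_max_right (s + h) 1
      have := le_max_right (s - h) 1
      linarith
  have h5 := h2 (Set.mem_Ici.mpr (le_max_right s 1))
    (Set.mem_Ici.mpr ((le_max_right s 1).trans h4)) h4
  linarith

/-- The normalised function. -/
noncomputable def ww (P t : ℝ) : ℝ := t * (max |t| 1) ^ (P - 2) - th P * (max |t| 1) ^ P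

theorem ww_eq {P : ℝ} (hP : 2 < P) (t : ℝ) :
    ww P t = min (t + ga P (-1) 1 (max t 1)) (t + ga P 1 (-1) (max (-t) 1)) := by
  have hG := (ga_props hP (a := -1) (b := 1) (Or.inl ⟨rfl, rfl⟩)).2
  have hH := (ga_props hP (a := 1) (b := -1) (Or.inr ⟨rfl, rfl⟩)).2
  have hfac : ∀ u : ℝ, 0 < u → u ^ (P - 1) = u * u ^ (P - 2) := by
    intro u hu
    have : u ^ (P - 1) = u ^ (1 + (P - 2)) := by congr 1; ring
    rw [this, rpow_add hu, rpow_one]
  unfold ww
  rcases le_total t 1 with h1 | h1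
  · rcases le_total (-1) t with h2 | h2
    · have h3 : |t| ≤ 1 := abs_le.mpr ⟨h2, h1⟩
      rw [max_eq_right h3, max_eq_right h1, max_eq_right (by linarith : -t ≤ 1), ga_one, ga_one,
        one_rpow, one_rpow, min_eq_left (by linarith)]
      ring
    · have h3 : |t| = -t := abs_of_neg (by linarith)
      rw [h3, max_eq_left (by linarith : 1 ≤ -t), max_eq_right h1, ga_one]
      have h4 := hH (Set.mem_Ici.mpr le_rfl) (Set.mem_Ici.mpr (by linarith : 1 ≤ -t))
        (by linarith : 1 ≤ -t)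
      rw [ga_one] at h4
      rw [min_eq_right (by linarith)]
      unfold ga
      rw [hfac (-t) (by linarith)]
      ring
  · have h3 : |t| = t := abs_of_pos (by linarith)
    rw [h3, max_eq_left h1, max_eq_right (by linarith : -t ≤ 1), ga_one]
    have h4 := hG (Set.mem_Ici.mpr le_rfl) (Set.mem_Ici.mpr h1) h1
    rw [ga_one] at h4
    rw [min_eq_left (by linarith)]
    unfold ga
    rw [hfac t (by linarith)]
    ring

theorem ww_mid {P : ℝ} (hP : 2 < P) (t h : ℝ) : ww P (t + h) + ww P (t - h) ≤ 2 * ww P t := by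
  have hG := ga_props hP (a := -1) (b := 1) (Or.inl ⟨rfl, rfl⟩)
  have hH := ga_props hP (a := 1) (b := -1) (Or.inr ⟨rfl, rfl⟩)
  have h1 := mid_of_props hG.1 hG.2 t h
  have h2 := mid_of_props hH.1 hH.2 (-t) (-h)
  have e1 : -t + -h = -(t + h) := by ring
  have e2 : -t - -h = -(t - h) := by ring
  rw [e1, e2] at h2
  rw [ww_eq hP, ww_eq hP, ww_eq hP]
  rw [mul_min_of_nonneg _ _ (by norm_num)]
  apply le_min
  · have h3 := min_le_left (t + h + ga P (-1) 1 (max (t + h) 1))
      (t + h + ga P 1 (-1) (max (-(t + h)) 1))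
    have h4 := min_le_left (t - h + ga P (-1) 1 (max (t - h) 1))
      (t - h + ga P 1 (-1) (max (-(t - h)) 1))
    linarith
  · have h3 := min_le_right (t + h + ga P (-1) 1 (max (t + h) 1))
      (t + h + ga P 1 (-1) (max (-(t + h)) 1))
    have h4 := min_le_right (t - h + ga P (-1) 1 (max (t - h) 1))
      (t - h + ga P 1 (-1) (max (-(t - h)) 1))
    linarith

/-- The two-variable function. -/
noncomputable def WW (P s c : ℝ) : ℝ :=
  s * c * (max |s| |c|) ^ (P - 2) - th P * (max |s| |c|) ^ P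

theorem WW_symm (P s c : ℝ) : WW P s c = WW P c s := by
  unfold WW
  rw [max_comm, mul_comm s c]

theorem WW_eq {P : ℝ} (hP : 2 < P) (s : ℝ) {c : ℝ} (hc : c ≠ 0) :
    WW P s c = |c| ^ P * ww P (s / c) := by
  unfold WW ww
  have hc0 : 0 < |c| := abs_pos.mpr hc
  have h1 : max |s| |c| = |c| * max |s / c| 1 := by
    rw [mul_max_of_nonneg _ _ hc0.le, abs_div, mul_div_cancel₀ _ hc0.ne', mul_one]
  have hm : 0 ≤ max |s / c| 1 := le_max_of_le_right zero_le_one
  rw [h1, mul_rpow hc0.le hm, mul_rpow hc0.le hm]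
  have h2 : |c| ^ P = c ^ 2 * |c| ^ (P - 2) := by
    have : |c| ^ P = |c| ^ (2 + (P - 2)) := by congr 1; ring
    rw [this, rpow_add hc0]
    congr 1
    rw [show (2 : ℝ) = ((2 : ℕ) : ℝ) by norm_num, rpow_natCast, sq_abs]
  rw [h2]
  field_simp

theorem rpow_mid {P : ℝ} (hP : 1 ≤ P) (s h : ℝ) :
    2 * |s| ^ P ≤ |s + h| ^ P + |s - h| ^ P := by
  have h1 := (convexOn_rpow hP).2 (Set.mem_Ici.mpr (abs_nonneg (s + h)))
    (Set.mem_Ici.mpr (abs_nonneg (s - h))) (by norm_num : (0 : ℝ) ≤ 1 / 2)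
    (by norm_num : (0 : ℝ) ≤ 1 / 2) (by norm_num)
  simp only [smul_eq_mul] at h1
  have h2 : |s| ≤ 1 / 2 * |s + h| + 1 / 2 * |s - h| := by
    have h3 := abs_add_le (s + h) (s - h)
    have h4 : s + h + (s - h) = 2 * s := by ring
    rw [h4, abs_mul, abs_two] at h3
    linarith
  have h3 : |s| ^ P ≤ (1 / 2 * |s + h| + 1 / 2 * |s - h|) ^ P :=
    rpow_le_rpow (abs_nonneg _) h2 (by linarith)
  linarith

theorem WW_mid {P : ℝ} (hP : 2 < P) (s c h : ℝ) :
    WW P (s + h) c + WW P (s - h) c ≤ 2 * WW P s c := by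
  by_cases hc : c = 0
  · subst hc
    unfold WW
    simp only [mul_zero, zero_mul, zero_sub, abs_zero]
    rw [max_eq_left (abs_nonneg _), max_eq_left (abs_nonneg _), max_eq_left (abs_nonneg _)]
    have h1 := rpow_mid (by linarith : 1 ≤ P) s h
    have h2 := th_nonneg hP
    nlinarith
  · rw [WW_eq hP _ hc, WW_eq hP _ hc, WW_eq hP _ hc]
    have h1 := ww_mid hP (s / c) (h / c)
    rw [← add_div, ← sub_div] at h1
    have h2 : 0 ≤ |c| ^ P := by positivity
    nlinarith

theorem WW_mid' {P : ℝ} (hP : 2 < P) (s c h : ℝ) :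
    WW P s (c + h) + WW P s (c - h) ≤ 2 * WW P s c := by
  rw [WW_symm, WW_symm P s (c - h), WW_symm P s c]
  exact WW_mid hP c s h

/-- Burkholder's function. -/
noncomputable def UU (P x y : ℝ) : ℝ := WW P (x + y) (y - x)

theorem UU_zig {P : ℝ} (hP : 2 < P) (x y h : ℝ) :
    UU P (x + h) (y + h) + UU P (x - h) (y - h) ≤ 2 * UU P x y := by
  unfold UU
  have h1 := WW_mid hP (x + y) (y - x) (2 * h)
  have e1 : x + h + (y + h) = x + y + 2 * h := by ring
  have e2 : x - h + (y - h) = x + y - 2 * h := by ring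
  have e3 : y + h - (x + h) = y - x := by ring
  have e4 : y - h - (x - h) = y - x := by ring
  rw [e1, e2, e3, e4]
  exact h1

theorem UU_zag {P : ℝ} (hP : 2 < P) (x y h : ℝ) :
    UU P (x + h) (y - h) + UU P (x - h) (y + h) ≤ 2 * UU P x y := by
  unfold UU
  have h1 := WW_mid' hP (x + y) (y - x) (2 * h)
  have e1 : x + h + (y - h) = x + y := by ring
  have e2 : x - h + (y + h) = x + y := by ring
  have e3 : y - h - (x + h) = y - x - 2 * h := by ring
  have e4 : y + h - (x - h) = y - x + 2 * h := by ring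
  rw [e1, e2, e3, e4]
  linarith

theorem max_abs (x y : ℝ) : max |x + y| |y - x| = |x| + |y| := by
  rcases abs_cases (x + y) with h1 | h1 <;> rcases abs_cases (y - x) with h2 | h2 <;>
  rcases abs_cases x with h3 | h3 <;> rcases abs_cases y with h4 | h4 <;>
  rcases max_cases |x + y| |y - x| with h5 | h5 <;> linarith

theorem UU_eq {P : ℝ} (hP : 2 < P) (x y : ℝ) :
    UU P x y = (|x| + |y|) ^ (P - 1) * ((1 - th P) * |y| - (1 + th P) * |x|) := by
  unfold UU WW
  rw [max_abs]
  by_cases h0 : |x| + |y| = 0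
  · have hx : |x| = 0 := by have := abs_nonneg x; have := abs_nonneg y; linarith
    have hy : |y| = 0 := by have := abs_nonneg x; have := abs_nonneg y; linarith
    rw [h0, zero_rpow (by linarith : P - 2 ≠ 0), zero_rpow (by linarith : P ≠ 0),
      zero_rpow (by linarith : P - 1 ≠ 0)]
    ring
  · have hr : 0 < |x| + |y| := lt_of_le_of_ne (by positivity) (Ne.symm h0)
    have e1 : (|x| + |y|) ^ (P - 1) = (|x| + |y|) ^ (P - 2) * (|x| + |y|) := by
      have : (|x| + |y|) ^ (P - 1) = (|x| + |y|) ^ (P - 2 + 1) := by congr 1; ring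
      rw [this, rpow_add hr, rpow_one]
    have e2 : (|x| + |y|) ^ P = (|x| + |y|) ^ (P - 2) * (|x| + |y|) ^ 2 := by
      have : (|x| + |y|) ^ P = (|x| + |y|) ^ (P - 2 + 2) := by congr 1; ring
      rw [this, rpow_add hr]
      congr 1
      rw [show (2 : ℝ) = ((2 : ℕ) : ℝ) by norm_num, rpow_natCast]
    have e3 : (x + y) * (y - x) = |y| ^ 2 - |x| ^ 2 := by
      rw [sq_abs, sq_abs]
      ring
    rw [e1, e2, e3]
    ring

/-- The constant. -/
noncomputable def CB (P : ℝ) : ℝ :=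
  (2 * (1 + th P) / (1 - th P)) ^ P +
    2 / (1 - th P) * ((1 + th P) * (1 + 2 * (1 + th P) / (1 - th P)) ^ (P - 1))

theorem CB_nonneg {P : ℝ} (hP : 2 < P) : 0 ≤ CB P := by
  have h1 := th_nonneg hP
  have h2 := th_lt hP
  have h3 : 0 < 1 - th P := by linarith
  unfold CB
  positivity

theorem UU_major {P : ℝ} (hP : 2 < P) (x y : ℝ) :
    |y| ^ P ≤ 2 / (1 - th P) * UU P x y + CB P * |x| ^ P := by
  have h1 := th_nonneg hP
  have h2 := th_lt hP
  have h3 : 0 < 1 - th P := by linarith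
  set q := 1 - th P with hq
  set L := 2 * (1 + th P) / q with hL
  have hL0 : 0 ≤ L := by positivity
  have hx := abs_nonneg x
  have hy := abs_nonneg y
  have hqL : q * L = 2 * (1 + th P) := by
    rw [hL]
    field_simp
  have hCB : CB P = L ^ P + 2 / q * ((1 + th P) * (1 + L) ^ (P - 1)) := rfl
  have hxP : |x| ^ P = |x| ^ (P - 1) * |x| := by
    rcases eq_or_lt_of_le hx with h0 | h0
    · rw [← h0, zero_rpow (by linarith), mul_zero]
    · have : |x| ^ P = |x| ^ (P - 1 + 1) := by congr 1; ring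
      rw [this, rpow_add h0, rpow_one]
  have hyP : |y| ^ P = |y| ^ (P - 1) * |y| := by
    rcases eq_or_lt_of_le hy with h0 | h0
    · rw [← h0, zero_rpow (by linarith), mul_zero]
    · have : |y| ^ P = |y| ^ (P - 1 + 1) := by congr 1; ring
      rw [this, rpow_add h0, rpow_one]
  rw [UU_eq hP]
  rcases le_total (L * |x|) |y| with h4 | h4
  · -- |y| large
    have h5 : q * |y| / 2 ≤ q * |y| - (1 + th P) * |x| := by
      have := mul_le_mul_of_nonneg_left h4 h3.le
      rw [← mul_assoc, hqL] at this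
      linarith
    have h6 : |y| ^ (P - 1) ≤ (|x| + |y|) ^ (P - 1) :=
      rpow_le_rpow hy (by linarith) (by linarith)
    have h7 : |y| ^ (P - 1) * (q * |y| / 2) ≤
        (|x| + |y|) ^ (P - 1) * (q * |y| - (1 + th P) * |x|) :=
      mul_le_mul h6 h5 (by positivity) (by positivity)
    have h8 : 0 ≤ CB P * |x| ^ P := mul_nonneg (CB_nonneg hP) (by positivity)
    have h9 := mul_le_mul_of_nonneg_left h7 (by positivity : (0 : ℝ) ≤ 2 / q)
    have e1 : 2 / q * (|y| ^ (P - 1) * (q * |y| / 2)) = |y| ^ (P - 1) * |y| := by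
      field_simp
    rw [e1] at h9
    rw [hyP]
    linarith
  · have h5 : |y| ^ P ≤ L ^ P * |x| ^ P := by
      rw [← mul_rpow hL0 hx]
      exact rpow_le_rpow hy h4 (by linarith)
    have h6 : (|x| + |y|) ^ (P - 1) ≤ (1 + L) ^ (P - 1) * |x| ^ (P - 1) := by
      rw [← mul_rpow (by positivity) hx]
      apply rpow_le_rpow (by positivity) _ (by linarith)
      linarith
    have h7 : -((|x| + |y|) ^ (P - 1) * ((1 + th P) * |x|)) ≤
        (|x| + |y|) ^ (P - 1) * (q * |y| - (1 + th P) * |x|) := by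
      have : 0 ≤ (|x| + |y|) ^ (P - 1) * (q * |y|) := by positivity
      nlinarith
    have h8 : (|x| + |y|) ^ (P - 1) * ((1 + th P) * |x|) ≤
        (1 + L) ^ (P - 1) * |x| ^ (P - 1) * ((1 + th P) * |x|) :=
      mul_le_mul_of_nonneg_right h6 (by positivity)
    have h9 : -((1 + L) ^ (P - 1) * |x| ^ (P - 1) * ((1 + th P) * |x|)) ≤
        (|x| + |y|) ^ (P - 1) * (q * |y| - (1 + th P) * |x|) := by linarith
    have h10 := mul_le_mul_of_nonneg_left h9 (by positivity : (0 : ℝ) ≤ 2 / q)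
    rw [hCB]
    have e1 : 2 / q * ((1 + th P) * (1 + L) ^ (P - 1)) * |x| ^ P =
        2 / q * ((1 + L) ^ (P - 1) * |x| ^ (P - 1) * ((1 + th P) * |x|)) := by
      rw [hxP]
      ring
    have e2 : (L ^ P + 2 / q * ((1 + th P) * (1 + L) ^ (P - 1))) * |x| ^ P =
        L ^ P * |x| ^ P + 2 / q * ((1 + th P) * (1 + L) ^ (P - 1)) * |x| ^ P := by ring
    rw [e2, e1]
    linarith

theorem UU_nonpos {P : ℝ} (hP : 2 < P) {x y : ℝ} (h : |y| ≤ |x|) : UU P x y ≤ 0 := by
  rw [UU_eq hP]
  have h1 := th_nonneg hP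
  have h2 := th_lt hP
  apply mul_nonpos_of_nonneg_of_nonpos (by positivity)
  have h3 := abs_nonneg x
  have h4 : (1 - th P) * |y| ≤ (1 - th P) * |x| := mul_le_mul_of_nonneg_left h (by linarith)
  nlinarith

end Pool.Agent.H296R4
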