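import Pool.Agent.H296R4.Inst2

/-!
# Convergence of the averaging projections, and separated translates
-/

open MeasureTheory Filter Topology
open scoped ENNReal

namespace Pool.Agent.H296R4

noncomputable section

section

variable {𝕜 : Type*} [RCLike 𝕜] {p : ℝ≥0∞} [hp1 : Fact (1 ≤ p)]

omit hp1 in
theorem step_coe (n : ℕ) (F : Finset ℤ) (a : ℤ → 𝕜) :
    ((∑ j ∈ F, a j • ind 𝕜 p n j : Lp 𝕜 p (volume : Measure ℝ)) : ℝ → 𝕜) =ᵐ[volume]
      fun t => ∑ j ∈ F, a j * (cell n j).indicator (fun _ => (1 : 𝕜)) t := by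
  classical
  induction F using Finset.induction_on with
  | empty =>
    simp only [Finset.sum_empty]
    exact Lp.coeFn_zero 𝕜 p volume
  | insert b F hb ih =>
    rw [Finset.sum_insert hb]
    filter_upwards [ih, Lp.coeFn_add (a b • ind 𝕜 p n b) (∑ j ∈ F, a j • ind 𝕜 p n j),
      Lp.coeFn_smul (a b) (ind 𝕜 p n b), ind_coe (𝕜 := 𝕜) (p := p) n b] with t h1 h2 h3 h4
    rw [h2, Pi.add_apply, h1, h3, Pi.smul_apply, h4, Finset.sum_insert hb, smul_eq_mul]

theorem mem_cell_floor (n : ℕ) (t : ℝ) : t ∈ cell n ⌊t * 2 ^ n⌋ := by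
  have h2 : (0 : ℝ) < 2 ^ n := by positivity
  rw [cell, Set.mem_Ico, div_le_iff₀ h2, lt_div_iff₀ h2]
  exact ⟨Int.floor_le _, Int.lt_floor_add_one _⟩

theorem step_val (n : ℕ) (F : Finset ℤ) (a : ℤ → 𝕜) (t : ℝ) :
    ∑ j ∈ F, a j * (cell n j).indicator (fun _ => (1 : 𝕜)) t =
      if ⌊t * 2 ^ n⌋ ∈ F then a ⌊t * 2 ^ n⌋ else 0 := by
  have hne : ∀ j, j ≠ ⌊t * 2 ^ n⌋ → (cell n j).indicator (fun _ => (1 : 𝕜)) t = 0 := by
    intro j hj
    apply Set.indicator_of_notMem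
    intro h
    exact Set.disjoint_left.mp (cell_disj n hj) h (mem_cell_floor n t)
  split_ifs with h
  · rw [Finset.sum_eq_single ⌊t * 2 ^ n⌋]
    · rw [Set.indicator_of_mem (mem_cell_floor n t), mul_one]
    · intro j _ hj
      rw [hne j hj, mul_zero]
    · intro h'
      exact absurd h h'
  · apply Finset.sum_eq_zero
    intro j hj
    rw [hne j, mul_zero]
    rintro rfl
    exact h hj

theorem approx_step (hp : p ≠ ∞) (g : ℝ → 𝕜) (hg : Continuous g) (hc : HasCompactSupport g)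
    (hm : MemLp g p volume) (ε : ℝ) (hε : 0 < ε) :
    ∃ (h : Lp 𝕜 p (volume : Measure ℝ)) (n : ℕ), ‖hm.toLp g - h‖ ≤ ε ∧ pr 𝕜 p hp n h = h := by
  have hP1 : 1 ≤ p.toReal := by
    have := ENNReal.toReal_mono hp hp1.out
    simpa using this
  have hP : 0 < p.toReal := by linarith
  obtain ⟨R, hR⟩ := hc.isCompact.isBounded.subset_closedBall (0 : ℝ)
  have hR0 : ∀ t, R < |t| → g t = 0 := by
    intro t ht
    by_contra hne
    have h1 := hR (subset_tsupport g (Function.mem_support.mpr hne))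
    rw [mem_closedBall_zero_iff, Real.norm_eq_abs] at h1
    linarith
  obtain ⟨n₁, hn₁⟩ := pow_unbounded_of_one_lt (|R| + 1) (by norm_num : (1 : ℝ) < 2)
  set W : ℝ := 2 ^ n₁ with hW
  have hW1 : 1 ≤ W := one_le_pow₀ (by norm_num)
  have hRW : R + 1 ≤ W := by
    have := le_abs_self R
    linarith
  set δ : ℝ := ε / (2 * W) with hδ
  have hδ0 : 0 < δ := by positivity
  obtain ⟨η, hη0, hη⟩ := Metric.uniformContinuous_iff.mp
    (HasCompactSupport.uniformContinuous_of_continuous hc hg) δ hδ0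
  obtain ⟨n₂, hn₂⟩ := pow_unbounded_of_one_lt (1 / η) (by norm_num : (1 : ℝ) < 2)
  set n := max (n₁ + 1) n₂ with hn
  have h2n : (0 : ℝ) < 2 ^ n := by positivity
  have hηn : 1 / 2 ^ n < η := by
    rw [div_lt_iff₀ h2n]
    rw [div_lt_iff₀ hη0] at hn₂
    have : (2 : ℝ) ^ n₂ ≤ 2 ^ n := pow_le_pow_right₀ (by norm_num) (le_max_right _ _)
    nlinarith
  have hn1 : (1 : ℝ) / 2 ^ n ≤ 1 := by
    rw [div_le_one h2n]
    exact one_le_pow₀ (by norm_num)
  have hWn : 2 * W ≤ 2 ^ n := by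
    have : (2 : ℝ) ^ (n₁ + 1) ≤ 2 ^ n := pow_le_pow_right₀ (by norm_num) (le_max_left _ _)
    rw [pow_succ] at this
    linarith
  set a : ℤ → 𝕜 := fun j => g ((j : ℝ) / 2 ^ n) with ha
  set h : Lp 𝕜 p (volume : Measure ℝ) := ∑ j ∈ J n, a j • ind 𝕜 p n j with hh
  refine ⟨h, n, ?_, ?_⟩
  · -- the estimate
    have hfl : ∀ t : ℝ, |t - (⌊t * 2 ^ n⌋ : ℝ) / 2 ^ n| ≤ 1 / 2 ^ n := by
      intro t
      have h1 := mem_cell_floor n t
      rw [cell, Set.mem_Ico] at h1
      rw [abs_le]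
      have h2 : ((⌊t * 2 ^ n⌋ : ℝ) + 1) / 2 ^ n = (⌊t * 2 ^ n⌋ : ℝ) / 2 ^ n + 1 / 2 ^ n := by ring
      constructor
      · have : (0 : ℝ) < 1 / 2 ^ n := by positivity
        linarith [h1.1]
      · linarith [h1.2]
    have hpt : ∀ᵐ t ∂(volume : Measure ℝ), ‖(hm.toLp g - h : Lp 𝕜 p (volume : Measure ℝ)) t‖ ^ p.toReal ≤
        (Set.Icc (-W) W).indicator (fun _ => δ ^ p.toReal) t := by
      filter_upwards [Lp.coeFn_sub (hm.toLp g) h, hm.coeFn_toLp, step_coe (𝕜 := 𝕜) (p := p) n (J n) a]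
        with t h1 h2 h3
      rw [h1, Pi.sub_apply, h2, hh, h3, step_val]
      by_cases ht : t ∈ Set.Icc (-W) W
      · rw [Set.indicator_of_mem ht]
        have h4 : ⌊t * 2 ^ n⌋ ∈ J n := by
          rw [J, Finset.mem_Ico]
          obtain ⟨h5, h6⟩ := ht
          constructor
          · rw [Int.le_floor]
            push_cast
            rw [pow_add]
            nlinarith
          · rw [Int.floor_lt]
            push_cast
            rw [pow_add]
            nlinarith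
        rw [if_pos h4]
        apply Real.rpow_le_rpow (norm_nonneg _) _ hP.le
        have h5 : dist t ((⌊t * 2 ^ n⌋ : ℝ) / 2 ^ n) < η := by
          rw [Real.dist_eq]
          exact lt_of_le_of_lt (hfl t) hηn
        have h6 := hη h5
        rw [dist_eq_norm] at h6
        exact h6.le
      · rw [Set.indicator_of_notMem ht]
        have h4 : W < |t| := by
          by_contra hcon
          push Not at hcon
          exact ht (abs_le.mp hcon)
        rw [hR0 t (by linarith)]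
        have h5 : (if ⌊t * 2 ^ n⌋ ∈ J n then a ⌊t * 2 ^ n⌋ else 0) = 0 := by
          split_ifs with h6
          · apply hR0
            have h7 := hfl t
            have h8 := abs_sub_abs_le_abs_sub t ((⌊t * 2 ^ n⌋ : ℝ) / 2 ^ n)
            linarith
          · rfl
        rw [h5, sub_zero, norm_zero, Real.zero_rpow hP.ne']
    apply (Real.rpow_le_rpow_iff (norm_nonneg _) hε.le hP).mp
    rw [norm_rpow hp]
    calc ∫ t, ‖(hm.toLp g - h : Lp 𝕜 p (volume : Measure ℝ)) t‖ ^ p.toReal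
        ≤ ∫ t, (Set.Icc (-W) W).indicator (fun _ => δ ^ p.toReal) t := by
          apply integral_mono_ae (integrable_rpow hp _) _ hpt
          exact (integrable_indicator_iff measurableSet_Icc).mpr
            (integrableOn_const (by simp))
      _ = (2 * W) * δ ^ p.toReal := by
          rw [integral_indicator measurableSet_Icc, setIntegral_const, measureReal_def,
            Real.volume_Icc, ENNReal.toReal_ofReal (by linarith), smul_eq_mul]
          ring
      _ ≤ (2 * W) ^ p.toReal * δ ^ p.toReal := by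
          apply mul_le_mul_of_nonneg_right _ (by positivity)
          have : (2 * W) ^ (1 : ℝ) ≤ (2 * W) ^ p.toReal :=
            Real.rpow_le_rpow_of_exponent_le (by linarith) hP1
          rwa [Real.rpow_one] at this
      _ = ε ^ p.toReal := by
          rw [← Real.mul_rpow (by positivity) hδ0.le]
          congr 1
          rw [hδ]
          field_simp
  · rw [hh, map_sum]
    apply Finset.sum_congr rfl
    intro j hj
    rw [map_smul, pr_ind, if_pos hj]

theorem dense_step (hp : p ≠ ∞) (x : Lp 𝕜 p (volume : Measure ℝ)) (ε : ℝ) (hε : 0 < ε) :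
    ∃ (h : Lp 𝕜 p (volume : Measure ℝ)) (n : ℕ), ‖x - h‖ < ε ∧ pr 𝕜 p hp n h = h := by
  obtain ⟨g, hc, hg1, hg2, hm⟩ := (Lp.memLp x).exists_hasCompactSupport_eLpNorm_sub_le hp
    (ε := ENNReal.ofReal (ε / 4)) (by
      rw [ne_eq, ENNReal.ofReal_eq_zero]
      push Not
      positivity)
  obtain ⟨h, n, h1, h2⟩ := approx_step hp g hg2 hc hm (ε / 4) (by positivity)
  refine ⟨h, n, ?_, h2⟩
  have h3 : ‖x - hm.toLp g‖ ≤ ε / 4 := by
    have h4 : x - hm.toLp g = ((Lp.memLp x).sub hm).toLp (⇑x - g) := by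
      rw [MemLp.toLp_sub (Lp.memLp x) hm, Lp.toLp_coeFn x (Lp.memLp x)]
    rw [h4, Lp.norm_toLp]
    exact ENNReal.toReal_le_of_le_ofReal (by positivity) hg1
  have h5 : x - h = (x - hm.toLp g) + (hm.toLp g - h) := by abel
  rw [h5]
  refine lt_of_le_of_lt (norm_add_le _ _) ?_
  linarith

theorem pr_lim (hp : p ≠ ∞) (x : Lp 𝕜 p (volume : Measure ℝ)) :
    Tendsto (fun n => pr 𝕜 p hp n x) atTop (𝓝 x) := by
  rw [Metric.tendsto_atTop]
  intro ε hε
  obtain ⟨h, n, h1, h2⟩ := dense_step hp x (ε / 2) (by positivity)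
  refine ⟨n, fun k hk => ?_⟩
  rw [dist_eq_norm]
  have h3 : pr 𝕜 p hp k h = h := by
    rw [← h2, pr_comp' hp n k hk]
  have h4 : pr 𝕜 p hp k x - x = pr 𝕜 p hp k (x - h) + (h - x) := by
    rw [map_sub, h3]
    abel
  rw [h4]
  refine lt_of_le_of_lt (norm_add_le _ _) ?_
  have h5 := pr_norm hp k (x - h)
  have h6 : ‖h - x‖ = ‖x - h‖ := norm_sub_rev _ _
  linarith

theorem pr_fin (hp : p ≠ ∞) (n : ℕ) :
    FiniteDimensional 𝕜 (LinearMap.range (pr 𝕜 p hp n).toLinearMap) := by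
  have h1 : FiniteDimensional 𝕜 (Submodule.span 𝕜 ((fun j => ind 𝕜 p n j) '' (J n : Set ℤ))) :=
    FiniteDimensional.span_of_finite 𝕜 ((J n).finite_toSet.image _)
  apply Submodule.finiteDimensional_of_le
    (S₂ := Submodule.span 𝕜 ((fun j => ind 𝕜 p n j) '' (J n : Set ℤ)))
  rintro _ ⟨x, rfl⟩
  change pr 𝕜 p hp n x ∈ _
  rw [pr_apply]
  apply Submodule.sum_mem
  intro j hj
  exact Submodule.smul_mem _ _ (Submodule.subset_span ⟨j, hj, rfl⟩)

theorem sep_Lp (hp : p ≠ ∞) (ι : Type) (s : Finset ι) (m : ι → ℕ) (μ : ι → ℤ)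
    (y : ι → Lp 𝕜 p (volume : Measure ℝ)) (h1 : ∀ i ∈ s, pr 𝕜 p hp (m i) (y i) = y i)
    (h2 : ∀ i ∈ s, ∀ j ∈ s, i ≠ j → 2 ^ (m i) + 2 ^ (m j) ≤ |μ i - μ j|) :
    ‖∑ i ∈ s, trans 𝕜 p (μ i) (y i)‖ ^ p.toReal = ∑ i ∈ s, ‖y i‖ ^ p.toReal := by
  rw [norm_sum_disj hp s (fun i => {t | t - (μ i : ℝ) ∈ Set.Ico (-(2 : ℝ) ^ (m i)) (2 ^ (m i))})]
  · apply Finset.sum_congr rfl
    intro i _
    rw [(trans 𝕜 p (μ i)).norm_map]
  · intro i hi j hj hij
    rw [Set.disjoint_left]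
    intro t ht ht'
    simp only [Set.mem_ofPred_eq, Set.mem_Ico] at ht ht'
    have h3 : (((2 ^ (m i) + 2 ^ (m j) : ℤ)) : ℝ) ≤ ((|μ i - μ j| : ℤ) : ℝ) := by
      exact_mod_cast h2 i hi j hj hij
    push_cast at h3
    have h4 : |(μ i : ℝ) - μ j| < 2 ^ (m i) + 2 ^ (m j) := by
      rw [abs_lt]
      constructor <;> linarith [ht.1, ht.2, ht'.1, ht'.2]
    linarith
  · intro i hi
    have h3 := pr_supp hp (m i) (y i)
    rw [h1 i hi] at h3
    exact h3.trans _

/-- The abstract system attached to `L_p(ℝ)`, given the unconditionality of the dyadic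
martingale differences. -/
def sysLp (hp : p ≠ ∞) (hunc : ∃ C : ℝ, 0 ≤ C ∧ ∀ (F : Finset ℕ) (x : Lp 𝕜 p (volume : Measure ℝ)),
      ‖∑ j ∈ F, (pr 𝕜 p hp (j + 1) x - pr 𝕜 p hp j x)‖ ≤ C * ‖x‖) :
    Sys 𝕜 (Lp 𝕜 p (volume : Measure ℝ)) p.toReal where
  T l := (trans 𝕜 p (l : ℝ)).toContinuousLinearMap
  T_zero x := by
    change trans 𝕜 p ((0 : ℤ) : ℝ) x = x
    rw [Int.cast_zero]
    exact trans_zero x
  T_add a b x := by
    change trans 𝕜 p ((a + b : ℤ) : ℝ) x = trans 𝕜 p (a : ℝ) (trans 𝕜 p (b : ℝ) x)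
    rw [Int.cast_add]
    exact trans_add _ _ x
  T_norm a x := (trans 𝕜 p (a : ℝ)).norm_map x
  pr := pr 𝕜 p hp
  pr_fin := pr_fin hp
  pr_comp := pr_comp hp
  pr_comp' := pr_comp' hp
  pr_lim := pr_lim hp
  shift_in := shift_in hp
  shift_out := shift_out hp
  sep := sep_Lp hp
  α := avg 𝕜 p hp 0 0
  α_sum F x := by
    have h1 : ∀ l ∈ F, ‖avg 𝕜 p hp 0 0 ((trans 𝕜 p ((-l : ℤ) : ℝ)).toContinuousLinearMap x)‖ ^ p.toReal =
        ‖avg 𝕜 p hp 0 l x‖ ^ p.toReal := by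
      intro l _
      rw [← avg_trans hp l x]
      rfl
    rw [Finset.sum_congr rfl h1]
    have := avg_sum_le hp 0 F x
    rwa [pow_zero, one_mul] at this
  α_in n l x h1 h2 := by
    change avg 𝕜 p hp 0 0 (trans 𝕜 p ((-l : ℤ) : ℝ) (pr 𝕜 p hp n x)) =
      avg 𝕜 p hp 0 0 (trans 𝕜 p ((-l : ℤ) : ℝ) x)
    rw [avg_trans, avg_trans]
    have := avg_pr_in hp x n 0 l
    simp only [zero_add, add_zero] at this
    exact this h1 h2
  α_out n l x h1 h2 := by
    change avg 𝕜 p hp 0 0 (trans 𝕜 p ((-l : ℤ) : ℝ) (pr 𝕜 p hp n x)) = 0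
    rw [avg_trans]
    have := avg_pr_out hp x n 0 l
    simp only [zero_add, add_zero] at this
    apply this
    rcases le_abs.mp h1 with h3 | h3
    · right; exact h3
    · left
      omega
  e := ind 𝕜 p 0 0
  e_pr := by
    rw [pr_ind, if_pos]
    rw [J, Finset.mem_Ico]
    norm_num
  e_α := avg_ind hp 0 0
  unc := hunc

end

end

end Pool.Agent.H296R4
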