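import Pool.Agent.H296R4.Bell1
import Pool.Agent.H296R4.Inst3

/-!
# Unconditionality of the dyadic martingale differences in `L_p(ℝ)`, `p > 2`
-/

open MeasureTheory Filter Topology
open scoped ENNReal

namespace Pool.Agent.H296R4

theorem sum_Ico_two (a b : ℤ) (f : ℤ → ℝ) :
    ∑ k ∈ Finset.Ico (2 * a) (2 * b), f k = ∑ j ∈ Finset.Ico a b, (f (2 * j) + f (2 * j + 1)) := by
  classical
  have hmap : ∀ k ∈ Finset.Ico (2 * a) (2 * b), k / 2 ∈ Finset.Ico a b := by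
    intro k hk
    rw [Finset.mem_Ico] at hk ⊢
    omega
  rw [← Finset.sum_fiberwise_of_maps_to hmap]
  apply Finset.sum_congr rfl
  intro j hj
  rw [Finset.mem_Ico] at hj
  have h1 : (Finset.Ico (2 * a) (2 * b)).filter (fun k => k / 2 = j) = {2 * j, 2 * j + 1} := by
    ext k
    rw [Finset.mem_filter, Finset.mem_Ico, Finset.mem_insert, Finset.mem_singleton]
    omega
  rw [h1, Finset.sum_pair (by omega)]

theorem J_succ (n : ℕ) : J (n + 1) = Finset.Ico (2 * (-2 ^ (n + n + 1))) (2 * (2 ^ (n + n + 1))) := by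
  unfold J
  have h : (2 : ℤ) ^ (n + 1 + (n + 1)) = 2 * 2 ^ (n + n + 1) := by ring
  rw [h]
  congr 1
  ring

theorem J_sub (n : ℕ) : J n ⊆ Finset.Ico (-2 ^ (n + n + 1)) (2 ^ (n + n + 1)) := by
  unfold J
  have h : (2 : ℤ) ^ (n + n + 1) = 2 * 2 ^ (n + n) := by ring
  have h2 : (0 : ℤ) < 2 ^ (n + n) := by positivity
  apply Finset.Ico_subset_Ico <;> omega

/-- The discrete inequality. -/
theorem disc {P : ℝ} (hP : 2 < P) (F G : ℕ → ℤ → ℝ) (ε : ℕ → ℝ) (hε : ∀ n, ε n = 1 ∨ ε n = -1)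
    (h0 : ∀ j ∈ J 0, G 0 j = 0)
    (h1 : ∀ n, ∀ j ∈ J n, F n j = (F (n + 1) (2 * j) + F (n + 1) (2 * j + 1)) / 2)
    (h2 : ∀ n, ∀ j ∈ J n, G (n + 1) (2 * j) = G n j + ε n * (F (n + 1) (2 * j) - F n j))
    (h2' : ∀ n, ∀ j ∈ J n, G (n + 1) (2 * j + 1) = G n j + ε n * (F (n + 1) (2 * j + 1) - F n j))
    (h3 : ∀ n, ∀ j, j ∉ J n → G (n + 1) (2 * j) = ε n * F (n + 1) (2 * j))
    (h3' : ∀ n, ∀ j, j ∉ J n → G (n + 1) (2 * j + 1) = ε n * F (n + 1) (2 * j + 1)) (n : ℕ) :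
    ∑ j ∈ J n, |G n j| ^ P ≤ CB P * ∑ j ∈ J n, |F n j| ^ P := by
  have key : ∀ n, ∑ j ∈ J n, UU P (F n j) (G n j) ≤ 0 := by
    intro n
    induction n with
    | zero =>
      apply Finset.sum_nonpos
      intro j hj
      apply UU_nonpos hP
      rw [h0 j hj, abs_zero]
      exact abs_nonneg _
    | succ n ih =>
      rw [J_succ, sum_Ico_two, ← Finset.sum_sdiff (J_sub n)]
      have hA : ∑ j ∈ Finset.Ico (-2 ^ (n + n + 1)) (2 ^ (n + n + 1)) \ J n,
          (UU P (F (n + 1) (2 * j)) (G (n + 1) (2 * j)) +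
            UU P (F (n + 1) (2 * j + 1)) (G (n + 1) (2 * j + 1))) ≤ 0 := by
        apply Finset.sum_nonpos
        intro j hj
        have hj' := (Finset.mem_sdiff.mp hj).2
        have hab : ∀ u : ℝ, |ε n * u| ≤ |u| := by
          intro u
          rcases hε n with h | h
          · rw [h, one_mul]
          · rw [h, neg_one_mul, abs_neg]
        have e1 := UU_nonpos hP (x := F (n + 1) (2 * j)) (y := G (n + 1) (2 * j))
          (by rw [h3 n j hj']; exact hab _)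
        have e2 := UU_nonpos hP (x := F (n + 1) (2 * j + 1)) (y := G (n + 1) (2 * j + 1))
          (by rw [h3' n j hj']; exact hab _)
        linarith
      have hB : ∑ j ∈ J n, (UU P (F (n + 1) (2 * j)) (G (n + 1) (2 * j)) +
            UU P (F (n + 1) (2 * j + 1)) (G (n + 1) (2 * j + 1))) ≤
          ∑ j ∈ J n, 2 * UU P (F n j) (G n j) := by
        apply Finset.sum_le_sum
        intro j hj
        set h := F (n + 1) (2 * j) - F n j with hh
        have e1 : F (n + 1) (2 * j) = F n j + h := by rw [hh]; ring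
        have e2 : F (n + 1) (2 * j + 1) = F n j - h := by
          have := h1 n j hj
          rw [hh]
          linarith
        rw [h2 n j hj, h2' n j hj, e1, e2]
        rcases hε n with h4 | h4
        · rw [h4]
          have e3 : G n j + 1 * (F n j + h - F n j) = G n j + h := by ring
          have e4 : G n j + 1 * (F n j - h - F n j) = G n j - h := by ring
          rw [e3, e4]
          exact UU_zig hP _ _ _
        · rw [h4]
          have e3 : G n j + -1 * (F n j + h - F n j) = G n j - h := by ring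
          have e4 : G n j + -1 * (F n j - h - F n j) = G n j + h := by ring
          rw [e3, e4]
          exact UU_zag hP _ _ _
      rw [← Finset.mul_sum] at hB
      linarith
  have h5 : ∑ j ∈ J n, |G n j| ^ P ≤
      ∑ j ∈ J n, (2 / (1 - th P) * UU P (F n j) (G n j) + CB P * |F n j| ^ P) :=
    Finset.sum_le_sum fun j _ => UU_major hP _ _
  rw [Finset.sum_add_distrib, ← Finset.mul_sum, ← Finset.mul_sum] at h5
  have h6 := key n
  have h7 : 0 < 2 / (1 - th P) := by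
    have := th_lt hP
    apply div_pos (by norm_num)
    linarith
  nlinarith

theorem norm_le_re_im {𝕜 : Type*} [RCLike 𝕜] (z : 𝕜) : ‖z‖ ≤ |RCLike.re z| + |RCLike.im z| := by
  have h1 : ‖z‖ ^ 2 = RCLike.re z * RCLike.re z + RCLike.im z * RCLike.im z :=
    RCLike.norm_sq_eq_def
  have h2 := abs_nonneg (RCLike.re z)
  have h3 := abs_nonneg (RCLike.im z)
  have h4 := abs_mul_abs_self (RCLike.re z)
  have h5 := abs_mul_abs_self (RCLike.im z)
  have h6 := mul_nonneg h2 h3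
  apply abs_le_of_sq_le_sq' _ (by positivity) |>.2
  nlinarith

noncomputable section

section

variable {𝕜 : Type*} [RCLike 𝕜] {p : ℝ≥0∞} [hp1 : Fact (1 ≤ p)]

/-- Signed sums of martingale differences. -/
def sg (𝕜 : Type*) [RCLike 𝕜] (p : ℝ≥0∞) [Fact (1 ≤ p)] (hp : p ≠ ∞) (ε : ℕ → ℝ) (n : ℕ)
    (x : Lp 𝕜 p (volume : Measure ℝ)) : Lp 𝕜 p (volume : Measure ℝ) :=
  ∑ j ∈ Finset.range n, (ε j : 𝕜) • (pr 𝕜 p hp (j + 1) x - pr 𝕜 p hp j x)

theorem sg_succ (hp : p ≠ ∞) (ε : ℕ → ℝ) (n : ℕ) (x : Lp 𝕜 p (volume : Measure ℝ)) :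
    sg 𝕜 p hp ε (n + 1) x = sg 𝕜 p hp ε n x +
      (ε n : 𝕜) • (pr 𝕜 p hp (n + 1) x - pr 𝕜 p hp n x) :=
  Finset.sum_range_succ _ _

theorem pr_sg (hp : p ≠ ∞) (ε : ℕ → ℝ) (n : ℕ) (x : Lp 𝕜 p (volume : Measure ℝ)) :
    pr 𝕜 p hp n (sg 𝕜 p hp ε n x) = sg 𝕜 p hp ε n x := by
  unfold sg
  rw [map_sum]
  apply Finset.sum_congr rfl
  intro j hj
  rw [Finset.mem_range] at hj
  rw [map_smul, map_sub, pr_comp' hp (j + 1) n (by omega), pr_comp' hp j n (by omega)]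

theorem avg_child0 (hp : p ≠ ∞) (n : ℕ) {z : Lp 𝕜 p (volume : Measure ℝ)}
    (hz : pr 𝕜 p hp n z = z) (j : ℤ) :
    avg 𝕜 p hp (n + 1) (2 * j) z = avg 𝕜 p hp n j z := by
  have h : ∀ i, avg 𝕜 p hp (n + 1) (2 * j) (ind 𝕜 p n i) = avg 𝕜 p hp n j (ind 𝕜 p n i) := by
    intro i
    by_cases hij : j = i
    · subst hij
      rw [avg_ind, ind_refine, map_add, avg_ind, avg_ind_ne hp (n + 1) (by omega), add_zero]
    · rw [avg_ind_ne hp n hij, ind_refine, map_add, avg_ind_ne hp (n + 1) (by omega),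
        avg_ind_ne hp (n + 1) (by omega), add_zero]
  rw [← hz, pr_apply hp n z, map_sum, map_sum]
  apply Finset.sum_congr rfl
  intro i _
  rw [map_smul, map_smul, h]

theorem avg_child1 (hp : p ≠ ∞) (n : ℕ) {z : Lp 𝕜 p (volume : Measure ℝ)}
    (hz : pr 𝕜 p hp n z = z) (j : ℤ) :
    avg 𝕜 p hp (n + 1) (2 * j + 1) z = avg 𝕜 p hp n j z := by
  have h : ∀ i, avg 𝕜 p hp (n + 1) (2 * j + 1) (ind 𝕜 p n i) = avg 𝕜 p hp n j (ind 𝕜 p n i) := by
    intro i
    by_cases hij : j = i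
    · subst hij
      rw [avg_ind, ind_refine, map_add, avg_ind, avg_ind_ne hp (n + 1) (by omega), zero_add]
    · rw [avg_ind_ne hp n hij, ind_refine, map_add, avg_ind_ne hp (n + 1) (by omega),
        avg_ind_ne hp (n + 1) (by omega), add_zero]
  rw [← hz, pr_apply hp n z, map_sum, map_sum]
  apply Finset.sum_congr rfl
  intro i _
  rw [map_smul, map_smul, h]

theorem avg_out (hp : p ≠ ∞) (n : ℕ) {z : Lp 𝕜 p (volume : Measure ℝ)}
    (hz : pr 𝕜 p hp n z = z) {j : ℤ} (hj : j ∉ J n) : avg 𝕜 p hp n j z = 0 := by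
  rw [← hz, avg_pr, if_neg hj]

/-- The signed sums are bounded. -/
theorem sg_bound (hp : p ≠ ∞) (hP : 2 < p.toReal) (ε : ℕ → ℝ) (hε : ∀ n, ε n = 1 ∨ ε n = -1)
    (n : ℕ) (x : Lp 𝕜 p (volume : Measure ℝ)) :
    ‖sg 𝕜 p hp ε n x‖ ≤ (2 ^ p.toReal * (2 * CB p.toReal)) ^ (1 / p.toReal) * ‖x‖ := by
  set P := p.toReal with hPdef
  have hP0 : 0 < P := by linarith
  have hCB := CB_nonneg hP
  -- a real-linear functional
  have hρ : ∀ ρ : 𝕜 →ₗ[ℝ] ℝ, ∑ j ∈ J n, |ρ (avg 𝕜 p hp n j (sg 𝕜 p hp ε n x))| ^ P ≤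
      CB P * ∑ j ∈ J n, |ρ (avg 𝕜 p hp n j (pr 𝕜 p hp n x))| ^ P := by
    intro ρ
    have hcast : ∀ (c : ℝ) (u : 𝕜), ρ ((c : 𝕜) * u) = c * ρ u := by
      intro c u
      have : (c : 𝕜) * u = c • u := by rw [RCLike.real_smul_eq_coe_mul]
      rw [this, map_smul, smul_eq_mul]
    have hprn : ∀ k, pr 𝕜 p hp k (pr 𝕜 p hp k x) = pr 𝕜 p hp k x :=
      fun k => pr_comp hp k k le_rfl x
    apply disc hP (fun k j => ρ (avg 𝕜 p hp k j (pr 𝕜 p hp k x)))
      (fun k j => ρ (avg 𝕜 p hp k j (sg 𝕜 p hp ε k x))) ε hε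
    · intro j _
      simp [sg]
    · intro k j hj
      have hj2 : 2 * j ∈ J (k + 1) ∧ 2 * j + 1 ∈ J (k + 1) := by
        have := J_sub k hj
        rw [Finset.mem_Ico] at this
        rw [J_succ, Finset.mem_Ico, Finset.mem_Ico]
        omega
      rw [avg_pr, avg_pr, avg_pr, if_pos hj, if_pos hj2.1, if_pos hj2.2, avg_refine hp k j x]
      have e : (avg 𝕜 p hp (k + 1) (2 * j) x + avg 𝕜 p hp (k + 1) (2 * j + 1) x) / 2 =
          (((1 / 2 : ℝ)) : 𝕜) *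
            (avg 𝕜 p hp (k + 1) (2 * j) x + avg 𝕜 p hp (k + 1) (2 * j + 1) x) := by
        push_cast
        ring
      rw [e, hcast, map_add]
      ring
    · intro k j _
      rw [sg_succ, map_add, map_smul, map_sub, avg_child0 hp k (pr_sg hp ε k x),
        avg_child0 hp k (hprn k), map_add, smul_eq_mul, hcast, map_sub]
    · intro k j _
      rw [sg_succ, map_add, map_smul, map_sub, avg_child1 hp k (pr_sg hp ε k x),
        avg_child1 hp k (hprn k), map_add, smul_eq_mul, hcast, map_sub]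
    · intro k j hj
      rw [sg_succ, map_add, map_smul, map_sub, avg_child0 hp k (pr_sg hp ε k x),
        avg_child0 hp k (hprn k), map_add, smul_eq_mul, hcast, map_sub,
        avg_out hp k (pr_sg hp ε k x) hj, avg_out hp k (hprn k) hj]
      simp
    · intro k j hj
      rw [sg_succ, map_add, map_smul, map_sub, avg_child1 hp k (pr_sg hp ε k x),
        avg_child1 hp k (hprn k), map_add, smul_eq_mul, hcast, map_sub,
        avg_out hp k (pr_sg hp ε k x) hj, avg_out hp k (hprn k) hj]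
      simp
  have hre := hρ RCLike.reLm
  have him := hρ RCLike.imLm
  have hFx : ∑ j ∈ J n, ‖avg 𝕜 p hp n j (pr 𝕜 p hp n x)‖ ^ P ≤ 2 ^ n * ‖x‖ ^ P := by
    have h1 : ∑ j ∈ J n, ‖avg 𝕜 p hp n j (pr 𝕜 p hp n x)‖ ^ P =
        ∑ j ∈ J n, ‖avg 𝕜 p hp n j x‖ ^ P := by
      apply Finset.sum_congr rfl
      intro j hj
      rw [avg_pr, if_pos hj]
    rw [h1]
    exact avg_sum_le hp n (J n) x
  have hre2 : ∑ j ∈ J n, |RCLike.reLm (K := 𝕜) (avg 𝕜 p hp n j (pr 𝕜 p hp n x))| ^ P ≤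
      2 ^ n * ‖x‖ ^ P := by
    refine le_trans ?_ hFx
    apply Finset.sum_le_sum
    intro j _
    exact Real.rpow_le_rpow (abs_nonneg _) (RCLike.abs_re_le_norm _) hP0.le
  have him2 : ∑ j ∈ J n, |RCLike.imLm (K := 𝕜) (avg 𝕜 p hp n j (pr 𝕜 p hp n x))| ^ P ≤
      2 ^ n * ‖x‖ ^ P := by
    refine le_trans ?_ hFx
    apply Finset.sum_le_sum
    intro j _
    exact Real.rpow_le_rpow (abs_nonneg _) (RCLike.abs_im_le_norm _) hP0.le
  have hnorm : ‖sg 𝕜 p hp ε n x‖ ^ P =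
      (∑ j ∈ J n, ‖avg 𝕜 p hp n j (sg 𝕜 p hp ε n x)‖ ^ P) / 2 ^ n := by
    conv_lhs => rw [← pr_sg hp ε n x, pr_apply]
    exact norm_step hp n (J n) _
  apply (Real.rpow_le_rpow_iff (norm_nonneg _) (by positivity) hP0).mp
  rw [Real.mul_rpow (by positivity) (norm_nonneg _), ← Real.rpow_mul (by positivity),
    one_div_mul_cancel hP0.ne', Real.rpow_one, hnorm, div_le_iff₀ (by positivity)]
  have hpt : ∀ j ∈ J n, ‖avg 𝕜 p hp n j (sg 𝕜 p hp ε n x)‖ ^ P ≤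
      2 ^ P * (|RCLike.reLm (K := 𝕜) (avg 𝕜 p hp n j (sg 𝕜 p hp ε n x))| ^ P +
        |RCLike.imLm (K := 𝕜) (avg 𝕜 p hp n j (sg 𝕜 p hp ε n x))| ^ P) := by
    intro j _
    refine le_trans ?_ (rpow_add_le hP0.le (abs_nonneg _) (abs_nonneg _))
    apply Real.rpow_le_rpow (norm_nonneg _) _ hP0.le
    exact norm_le_re_im _
  refine (Finset.sum_le_sum hpt).trans ?_
  rw [← Finset.mul_sum, Finset.sum_add_distrib]
  have h1 := mul_le_mul_of_nonneg_left hre2 hCB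
  have h2 := mul_le_mul_of_nonneg_left him2 hCB
  have h3 : (0 : ℝ) < 2 ^ P := by positivity
  have h4 : ∑ j ∈ J n, |RCLike.reLm (K := 𝕜) (avg 𝕜 p hp n j (sg 𝕜 p hp ε n x))| ^ P +
      ∑ j ∈ J n, |RCLike.imLm (K := 𝕜) (avg 𝕜 p hp n j (sg 𝕜 p hp ε n x))| ^ P ≤
      2 * CB P * (2 ^ n * ‖x‖ ^ P) := by linarith
  have h5 := mul_le_mul_of_nonneg_left h4 h3.le
  refine h5.trans (le_of_eq ?_)
  ring

theorem unc_Lp (hp : p ≠ ∞) (hP : 2 < p.toReal) : ∃ C : ℝ, 0 ≤ C ∧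
    ∀ (F : Finset ℕ) (x : Lp 𝕜 p (volume : Measure ℝ)),
      ‖∑ j ∈ F, (pr 𝕜 p hp (j + 1) x - pr 𝕜 p hp j x)‖ ≤ C * ‖x‖ := by
  classical
  set C₀ := (2 ^ p.toReal * (2 * CB p.toReal)) ^ (1 / p.toReal) with hC₀
  have hC₀0 : 0 ≤ C₀ := by
    have := CB_nonneg hP
    positivity
  refine ⟨C₀, hC₀0, fun F x => ?_⟩
  obtain ⟨n, hn⟩ := F.exists_nat_subset_range
  have h1 := sg_bound (𝕜 := 𝕜) hp hP (fun _ => 1) (fun _ => Or.inl rfl) n x
  have h2 := sg_bound (𝕜 := 𝕜) hp hP (fun j => if j ∈ F then 1 else -1)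
    (fun j => by by_cases h : j ∈ F <;> simp [h]) n x
  have h3 : (2 : 𝕜) • ∑ j ∈ F, (pr 𝕜 p hp (j + 1) x - pr 𝕜 p hp j x) =
      sg 𝕜 p hp (fun _ => 1) n x + sg 𝕜 p hp (fun j => if j ∈ F then 1 else -1) n x := by
    unfold sg
    rw [← Finset.sum_add_distrib, ← Finset.sum_sdiff hn, Finset.smul_sum]
    rw [Finset.sum_eq_zero (s := Finset.range n \ F), zero_add]
    · apply Finset.sum_congr rfl
      intro j hj
      simp only [if_pos hj]
      rw [← add_smul]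
      norm_num
    · intro j hj
      simp only [if_neg (Finset.mem_sdiff.mp hj).2]
      rw [← add_smul]
      norm_num
  have h4 : ‖(2 : 𝕜) • ∑ j ∈ F, (pr 𝕜 p hp (j + 1) x - pr 𝕜 p hp j x)‖ =
      2 * ‖∑ j ∈ F, (pr 𝕜 p hp (j + 1) x - pr 𝕜 p hp j x)‖ := by
    rw [norm_smul, RCLike.norm_ofNat]
  have h5 := norm_add_le (sg 𝕜 p hp (fun _ => 1) n x)
    (sg 𝕜 p hp (fun j => if j ∈ F then 1 else -1) n x)
  rw [← h3, h4] at h5
  linarith

end

end

end Pool.Agent.H296R4
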