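import Pool.Agent.H296R4.Bell2

/-!
# From blocks to a sequence of translates
-/

open MeasureTheory Filter Topology
open scoped ENNReal

namespace Pool.Agent.H296R4

/-- Blocks of consecutive powers of two form an increasing sequence. -/
theorem enumerate (m M : ℕ → ℕ) (hM : ∀ k, 0 < M k) (hm : ∀ k, m (k + 1) = m k + 1 + M k) :
    ∃ (lam : ℕ → ℤ) (n : ℕ → ℕ), StrictMono lam ∧ (∀ i, 0 < lam i) ∧ StrictMono n ∧ n 0 = 0 ∧
      ∀ k, lam '' Set.Ico (n k) (n (k + 1)) =
        Set.range fun i : Fin (M k) => (2 : ℤ) ^ (m k + 1) * 2 ^ (i : ℕ) := by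
  classical
  set n : ℕ → ℕ := fun k => ∑ j ∈ Finset.range k, M j with hn
  have hn1 : ∀ k, n (k + 1) = n k + M k := fun k => Finset.sum_range_succ _ _
  have hnmono : StrictMono n := by
    apply strictMono_nat_of_lt_succ
    intro k
    rw [hn1]
    have := hM k
    omega
  have hmn : ∀ k, m k = m 0 + k + n k := by
    intro k
    induction k with
    | zero => simp [hn]
    | succ k ih =>
      rw [hm, ih, hn1]
      ring
  have hex : ∀ i, ∃ k, i < n (k + 1) := fun i => ⟨i, lt_of_lt_of_le (Nat.lt_succ_self i)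
    (hnmono.id_le (i + 1))⟩
  set κ : ℕ → ℕ := fun i => Nat.find (hex i) with hκ
  have hκk : ∀ k i, n k ≤ i → i < n (k + 1) → κ i = k := by
    intro k i h1 h2
    rw [hκ]
    simp only
    rw [Nat.find_eq_iff]
    refine ⟨h2, fun j hj => ?_⟩
    have := hnmono.monotone (show j + 1 ≤ k by omega)
    omega
  have hκmono : ∀ i j, i ≤ j → κ i ≤ κ j := by
    intro i j hij
    have h : j < n (κ j + 1) := Nat.find_spec (hex j)
    exact Nat.find_min' (hex i) (lt_of_le_of_lt hij h)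
  refine ⟨fun i => 2 ^ (m 0 + 1 + i + κ i), n, ?_, ?_, hnmono, by simp [hn], ?_⟩
  · intro i j hij
    apply pow_lt_pow_right₀ (by norm_num)
    have := hκmono i j hij.le
    omega
  · intro i
    positivity
  · intro k
    ext l
    constructor
    · rintro ⟨i, ⟨h1, h2⟩, rfl⟩
      have h3 := hn1 k
      refine ⟨⟨i - n k, by omega⟩, ?_⟩
      simp only
      rw [hκk k i h1 h2, ← pow_add]
      congr 1
      have := hmn k
      omega
    · rintro ⟨i, rfl⟩
      have h3 := hn1 k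
      have h4 := i.2
      refine ⟨n k + i, ⟨by omega, by omega⟩, ?_⟩
      simp only
      rw [hκk k (n k + i) (by omega) (by omega), ← pow_add]
      congr 1
      have := hmn k
      omega

theorem final (𝕜 : Type) [RCLike 𝕜] (p : ℝ≥0∞) [Fact (1 ≤ p)] (hp : 2 < p) (hp' : p ≠ ∞) :
    ∃ (f : Lp 𝕜 p (volume : Measure ℝ)) (lam : ℕ → ℤ) (n : ℕ → ℕ),
      StrictMono lam ∧ (∀ i, 0 < lam i) ∧ StrictMono n ∧ n 0 = 0 ∧
      IsUncondFDD 𝕜 (fun k => Submodule.span 𝕜
        ((fun i => trans 𝕜 p (lam i : ℝ) f) '' Set.Ico (n k) (n (k + 1)))) := by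
  have hP : 2 < p.toReal := by
    have := (ENNReal.toReal_lt_toReal (by norm_num) hp').mpr hp
    simpa using this
  obtain ⟨f, m, M, hM, hm, hF⟩ := abs_main (sysLp hp' (unc_Lp (𝕜 := 𝕜) hp' hP)) hP
  obtain ⟨lam, n, h1, h2, h3, h4, h5⟩ := enumerate m M hM hm
  refine ⟨f, lam, n, h1, h2, h3, h4, ?_⟩
  convert hF using 3 with k
  have h6 : (fun i => trans 𝕜 p (lam i : ℝ) f) '' Set.Ico (n k) (n (k + 1)) =
      (fun l : ℤ => trans 𝕜 p (l : ℝ) f) '' (lam '' Set.Ico (n k) (n (k + 1))) := by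
    rw [Set.image_image]
  rw [h6, h5, ← Set.range_comp]
  rfl

end Pool.Agent.H296R4
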