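import Pool.Agent.H296R4.Main

/-!
# Cells, averages and translations on `L_p(ℝ)`
-/

open MeasureTheory Filter Topology
open scoped ENNReal

namespace Pool.Agent.H296R4

noncomputable section

section

variable {𝕜 : Type*} [RCLike 𝕜] {p : ℝ≥0∞} [hp1 : Fact (1 ≤ p)]

/-- Translation by `a`: `x ↦ f (x - a)`. -/
def trans (𝕜 : Type*) [RCLike 𝕜] (p : ℝ≥0∞) [Fact (1 ≤ p)] (a : ℝ) :
    Lp 𝕜 p (volume : Measure ℝ) →ₗᵢ[𝕜] Lp 𝕜 p (volume : Measure ℝ) :=
  Lp.compMeasurePreservingₗᵢ 𝕜 (fun x => x - a) (measurePreserving_sub_right volume a)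

theorem trans_coe (a : ℝ) (f : Lp 𝕜 p (volume : Measure ℝ)) :
    trans 𝕜 p a f =ᵐ[volume] fun x => f (x - a) :=
  Lp.coeFn_compMeasurePreserving f (measurePreserving_sub_right volume a)

theorem ae_shift {q : ℝ → Prop} (a : ℝ) (h : ∀ᵐ x ∂(volume : Measure ℝ), q x) :
    ∀ᵐ x ∂(volume : Measure ℝ), q (x - a) :=
  (measurePreserving_sub_right volume a).quasiMeasurePreserving.ae h

theorem trans_add (a b : ℝ) (f : Lp 𝕜 p (volume : Measure ℝ)) :
    trans 𝕜 p (a + b) f = trans 𝕜 p a (trans 𝕜 p b f) := by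
  apply Lp.ext
  filter_upwards [trans_coe (𝕜 := 𝕜) (p := p) (a + b) f, trans_coe (𝕜 := 𝕜) (p := p) a
    (trans 𝕜 p b f), ae_shift a (trans_coe (𝕜 := 𝕜) (p := p) b f)] with x h1 h2 h3
  rw [h1, h2, h3]
  congr 1
  ring

theorem trans_zero (f : Lp 𝕜 p (volume : Measure ℝ)) : trans 𝕜 p 0 f = f := by
  apply Lp.ext
  filter_upwards [trans_coe (𝕜 := 𝕜) (p := p) 0 f] with x h1
  rw [h1, sub_zero]

/-- `x` vanishes almost everywhere off `A`. -/
def SuppOn (A : Set ℝ) (x : Lp 𝕜 p (volume : Measure ℝ)) : Prop :=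
  ∀ᵐ t ∂(volume : Measure ℝ), t ∉ A → x t = 0

omit hp1 in
theorem SuppOn.mono {A B : Set ℝ} (h : A ⊆ B) {x : Lp 𝕜 p (volume : Measure ℝ)}
    (hx : SuppOn A x) : SuppOn B x := by
  filter_upwards [hx] with t ht htB
  exact ht fun h' => htB (h h')

omit hp1 in
theorem SuppOn.add {A : Set ℝ} {x y : Lp 𝕜 p (volume : Measure ℝ)}
    (hx : SuppOn A x) (hy : SuppOn A y) : SuppOn A (x + y) := by
  filter_upwards [hx, hy, Lp.coeFn_add x y] with t h1 h2 h3 ht
  rw [h3, Pi.add_apply, h1 ht, h2 ht, add_zero]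

omit hp1 in
theorem SuppOn.zero (A : Set ℝ) : SuppOn A (0 : Lp 𝕜 p (volume : Measure ℝ)) := by
  filter_upwards [Lp.coeFn_zero 𝕜 p (volume : Measure ℝ)] with t ht _
  rw [ht]
  rfl

omit hp1 in
theorem SuppOn.smul {A : Set ℝ} (c : 𝕜) {x : Lp 𝕜 p (volume : Measure ℝ)}
    (hx : SuppOn A x) : SuppOn A (c • x) := by
  filter_upwards [hx, Lp.coeFn_smul c x] with t h1 h3 ht
  rw [h3, Pi.smul_apply, h1 ht, smul_zero]

omit hp1 in
theorem SuppOn.sum {ι : Type*} (s : Finset ι) {A : Set ℝ} {x : ι → Lp 𝕜 p (volume : Measure ℝ)}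
    (hx : ∀ i ∈ s, SuppOn A (x i)) : SuppOn A (∑ i ∈ s, x i) := by
  classical
  induction s using Finset.induction_on with
  | empty => simpa using SuppOn.zero A
  | insert a s ha ih =>
    rw [Finset.sum_insert ha]
    exact (hx a (Finset.mem_insert_self _ _)).add
      (ih fun i hi => hx i (Finset.mem_insert_of_mem hi))

theorem SuppOn.trans {A : Set ℝ} (a : ℝ) {x : Lp 𝕜 p (volume : Measure ℝ)}
    (hx : SuppOn A x) : SuppOn {t | t - a ∈ A} (trans 𝕜 p a x) := by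
  filter_upwards [ae_shift a hx, trans_coe (𝕜 := 𝕜) (p := p) a x] with t h1 h2 ht
  rw [h2]
  exact h1 ht

/-! ### The norm -/

theorem integrable_rpow (hp : p ≠ ∞) (x : Lp 𝕜 p (volume : Measure ℝ)) :
    Integrable (fun t => ‖x t‖ ^ p.toReal) volume := by
  have h := (Lp.memLp x).integrable_norm_rpow (by
    intro h
    have := hp1.out
    rw [h] at this
    exact absurd this (by norm_num)) hp
  exact h

theorem norm_rpow (hp : p ≠ ∞) (x : Lp 𝕜 p (volume : Measure ℝ)) :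
    ‖x‖ ^ p.toReal = ∫ t, ‖x t‖ ^ p.toReal := by
  have hp0 : p ≠ 0 := by
    intro h
    have := hp1.out
    rw [h] at this
    exact absurd this (by norm_num)
  have hP : 0 < p.toReal := ENNReal.toReal_pos hp0 hp
  have hI : 0 ≤ ∫ t, ‖x t‖ ^ p.toReal := integral_nonneg fun t => by positivity
  rw [Lp.norm_def, (Lp.memLp x).eLpNorm_eq_integral_rpow_norm hp0 hp,
    ENNReal.toReal_ofReal (by positivity), ← Real.rpow_mul hI, inv_mul_cancel₀ hP.ne',
    Real.rpow_one]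

theorem norm_add_disj (hp : p ≠ ∞) {A B : Set ℝ} (hAB : Disjoint A B)
    {x y : Lp 𝕜 p (volume : Measure ℝ)} (hx : SuppOn A x) (hy : SuppOn B y) :
    ‖x + y‖ ^ p.toReal = ‖x‖ ^ p.toReal + ‖y‖ ^ p.toReal := by
  have hp0 : p ≠ 0 := by
    intro h
    have := hp1.out
    rw [h] at this
    exact absurd this (by norm_num)
  have hP : 0 < p.toReal := ENNReal.toReal_pos hp0 hp
  rw [norm_rpow hp, norm_rpow hp, norm_rpow hp,
    ← integral_add (integrable_rpow hp x) (integrable_rpow hp y)]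
  apply integral_congr_ae
  filter_upwards [hx, hy, Lp.coeFn_add x y] with t h1 h2 h3
  rw [h3, Pi.add_apply]
  by_cases ht : t ∈ A
  · rw [h2 fun h => Set.disjoint_left.mp hAB ht h, add_zero, norm_zero,
      Real.zero_rpow hP.ne', add_zero]
  · rw [h1 ht, zero_add, norm_zero, Real.zero_rpow hP.ne', zero_add]

theorem norm_sum_disj (hp : p ≠ ∞) {ι : Type*} (s : Finset ι) (A : ι → Set ℝ)
    (hA : ∀ i ∈ s, ∀ j ∈ s, i ≠ j → Disjoint (A i) (A j))
    {x : ι → Lp 𝕜 p (volume : Measure ℝ)} (hx : ∀ i ∈ s, SuppOn (A i) (x i)) :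
    ‖∑ i ∈ s, x i‖ ^ p.toReal = ∑ i ∈ s, ‖x i‖ ^ p.toReal := by
  classical
  have hp0 : p ≠ 0 := by
    intro h
    have := hp1.out
    rw [h] at this
    exact absurd this (by norm_num)
  have hP : 0 < p.toReal := ENNReal.toReal_pos hp0 hp
  induction s using Finset.induction_on with
  | empty => simp [hP.ne']
  | insert a s ha ih =>
    rw [Finset.sum_insert ha, Finset.sum_insert ha]
    rw [norm_add_disj hp (A := A a) (B := ⋃ i ∈ s, A i) _ (hx a (Finset.mem_insert_self _ _)) _,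
      ih]
    · intro i hi j hj hij
      exact hA i (Finset.mem_insert_of_mem hi) j (Finset.mem_insert_of_mem hj) hij
    · intro i hi
      exact hx i (Finset.mem_insert_of_mem hi)
    · rw [Set.disjoint_iUnion₂_right]
      intro i hi
      apply hA a (Finset.mem_insert_self _ _) i (Finset.mem_insert_of_mem hi)
      rintro rfl
      exact ha hi
    · apply SuppOn.sum
      intro i hi
      apply (hx i (Finset.mem_insert_of_mem hi)).mono
      exact Set.subset_biUnion_of_mem (u := fun i => A i) hi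

/-! ### Cells -/

/-- The dyadic cell `[j/2^n, (j+1)/2^n)`. -/
def cell (n : ℕ) (j : ℤ) : Set ℝ := Set.Ico ((j : ℝ) / 2 ^ n) (((j : ℝ) + 1) / 2 ^ n)

theorem cell_meas (n : ℕ) (j : ℤ) : MeasurableSet (cell n j) := measurableSet_Ico

theorem cell_vol (n : ℕ) (j : ℤ) : volume (cell n j) = ENNReal.ofReal (1 / 2 ^ n) := by
  rw [cell, Real.volume_Ico]
  congr 1
  ring

theorem cell_ne (n : ℕ) (j : ℤ) : volume (cell n j) ≠ ∞ := by
  rw [cell_vol]
  exact ENNReal.ofReal_ne_top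

theorem cell_disj (n : ℕ) {i j : ℤ} (h : i ≠ j) : Disjoint (cell n i) (cell n j) := by
  have h2 : (0 : ℝ) < 2 ^ n := by positivity
  rw [Set.disjoint_left]
  intro t h3 h4
  rw [cell, Set.mem_Ico, div_le_iff₀ h2, lt_div_iff₀ h2] at h3 h4
  rcases lt_or_gt_of_ne h with h5 | h5
  · have h6 : (i : ℝ) + 1 ≤ j := by exact_mod_cast h5
    linarith
  · have h6 : (j : ℝ) + 1 ≤ i := by exact_mod_cast h5
    linarith

theorem cell_refine (n : ℕ) (j : ℤ) :
    cell n j = cell (n + 1) (2 * j) ∪ cell (n + 1) (2 * j + 1) := by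
  have h2 : (0 : ℝ) < 2 ^ n := by positivity
  have e1 : ((2 * j : ℤ) : ℝ) / 2 ^ (n + 1) = (j : ℝ) / 2 ^ n := by
    push_cast
    rw [pow_succ]
    field_simp
  have e2 : (((2 * j + 1 : ℤ) : ℝ) + 1) / 2 ^ (n + 1) = ((j : ℝ) + 1) / 2 ^ n := by
    push_cast
    rw [pow_succ]
    field_simp
    ring
  have e3 : (((2 * j : ℤ) : ℝ) + 1) / 2 ^ (n + 1) = ((2 * j + 1 : ℤ) : ℝ) / 2 ^ (n + 1) := by
    push_cast
    ring
  rw [cell, cell, cell, e1, e2, e3, Set.Ico_union_Ico_eq_Ico]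
  · rw [← e1]
    apply div_le_div_of_nonneg_right _ (by positivity)
    push_cast
    linarith
  · rw [← e2]
    apply div_le_div_of_nonneg_right _ (by positivity)
    linarith

/-- The indicator of a cell. -/
def ind (𝕜 : Type*) [RCLike 𝕜] (p : ℝ≥0∞) (n : ℕ) (j : ℤ) : Lp 𝕜 p (volume : Measure ℝ) :=
  indicatorConstLp p (cell_meas n j) (cell_ne n j) (1 : 𝕜)

omit hp1 in
theorem ind_coe (n : ℕ) (j : ℤ) :
    ind 𝕜 p n j =ᵐ[volume] (cell n j).indicator fun _ => (1 : 𝕜) :=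
  indicatorConstLp_coeFn

omit hp1 in
theorem ind_supp (n : ℕ) (j : ℤ) : SuppOn (cell n j) (ind 𝕜 p n j) := by
  filter_upwards [ind_coe (𝕜 := 𝕜) (p := p) n j] with t h1 ht
  rw [h1, Set.indicator_of_notMem ht]

omit hp1 in
theorem ind_refine (n : ℕ) (j : ℤ) :
    ind 𝕜 p n j = ind 𝕜 p (n + 1) (2 * j) + ind 𝕜 p (n + 1) (2 * j + 1) := by
  apply Lp.ext
  filter_upwards [ind_coe (𝕜 := 𝕜) (p := p) n j, ind_coe (𝕜 := 𝕜) (p := p) (n + 1) (2 * j),
    ind_coe (𝕜 := 𝕜) (p := p) (n + 1) (2 * j + 1),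
    Lp.coeFn_add (ind 𝕜 p (n + 1) (2 * j)) (ind 𝕜 p (n + 1) (2 * j + 1))] with t h1 h2 h3 h4
  rw [h1, h4, Pi.add_apply, h2, h3, cell_refine,
    Set.indicator_union_of_disjoint (cell_disj (n + 1) (by omega))]

theorem ind_trans (n : ℕ) (j l : ℤ) :
    trans 𝕜 p l (ind 𝕜 p n j) = ind 𝕜 p n (j + l * 2 ^ n) := by
  apply Lp.ext
  filter_upwards [ind_coe (𝕜 := 𝕜) (p := p) n (j + l * 2 ^ n),
    trans_coe (𝕜 := 𝕜) (p := p) l (ind 𝕜 p n j),
    ae_shift (l : ℝ) (ind_coe (𝕜 := 𝕜) (p := p) n j)] with t h1 h2 h3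
  rw [h1, h2, h3]
  have h2 : (0 : ℝ) < 2 ^ n := by positivity
  have h4 : t - (l : ℝ) ∈ cell n j ↔ t ∈ cell n (j + l * 2 ^ n) := by
    rw [cell, cell, Set.mem_Ico, Set.mem_Ico, div_le_iff₀ h2, lt_div_iff₀ h2, div_le_iff₀ h2,
      lt_div_iff₀ h2]
    push_cast
    constructor
    · rintro ⟨h5, h6⟩
      constructor <;> linarith
    · rintro ⟨h5, h6⟩
      constructor <;> linarith
  by_cases h5 : t - (l : ℝ) ∈ cell n j
  · rw [Set.indicator_of_mem h5, Set.indicator_of_mem (h4.mp h5)]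
  · rw [Set.indicator_of_notMem h5, Set.indicator_of_notMem fun h => h5 (h4.mpr h)]

theorem norm_ind (hp : p ≠ ∞) (n : ℕ) (j : ℤ) : ‖ind 𝕜 p n j‖ ^ p.toReal = 1 / 2 ^ n := by
  have hp0 : p ≠ 0 := by
    intro h
    have := hp1.out
    rw [h] at this
    exact absurd this (by norm_num)
  have hP : 0 < p.toReal := ENNReal.toReal_pos hp0 hp
  rw [ind, norm_indicatorConstLp hp0 hp, norm_one, one_mul, measureReal_def, cell_vol,
    ENNReal.toReal_ofReal (by positivity), ← Real.rpow_mul (by positivity), one_div_mul_cancel hP.ne',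
    Real.rpow_one]

end

end

end Pool.Agent.H296R4
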