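import Pool.Agent.H296R4.Inst1

/-!
# Averages over cells
-/

open MeasureTheory Filter Topology
open scoped ENNReal

namespace Pool.Agent.H296R4

noncomputable section

section

variable {𝕜 : Type*} [RCLike 𝕜] {p : ℝ≥0∞} [hp1 : Fact (1 ≤ p)]

instance cell_fin (n : ℕ) (j : ℤ) : IsFiniteMeasure (volume.restrict (cell n j)) :=
  ⟨by rw [Measure.restrict_apply_univ, cell_vol]; exact ENNReal.ofReal_lt_top⟩

theorem cell_real (n : ℕ) (j : ℤ) : (volume.restrict (cell n j)).real Set.univ = 1 / 2 ^ n := by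
  rw [measureReal_def, Measure.restrict_apply_univ, cell_vol, ENNReal.toReal_ofReal (by positivity)]

instance cell_nz (n : ℕ) (j : ℤ) : NeZero (volume.restrict (cell n j)) :=
  ⟨by
    intro h
    have h1 := cell_real n j
    rw [h] at h1
    have h2 : (0 : ℝ) < 1 / 2 ^ n := by positivity
    simp at h1
    exact absurd h1.symm (by positivity)⟩

theorem int_cell (n : ℕ) (j : ℤ) (x : Lp 𝕜 p (volume : Measure ℝ)) :
    IntegrableOn (fun t => x t) (cell n j) volume :=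
  ((Lp.memLp x).restrict (cell n j)).integrable hp1.out

/-- The average over a cell, as a linear map. -/
def avgL (𝕜 : Type*) [RCLike 𝕜] (p : ℝ≥0∞) [Fact (1 ≤ p)] (n : ℕ) (j : ℤ) :
    Lp 𝕜 p (volume : Measure ℝ) →ₗ[𝕜] 𝕜 where
  toFun x := 2 ^ n * ∫ t in cell n j, x t
  map_add' x y := by
    rw [← mul_add, ← integral_add (int_cell n j x) (int_cell n j y)]
    congr 1
    apply integral_congr_ae
    exact ae_restrict_of_ae (Lp.coeFn_add x y)
  map_smul' c x := by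
    have h : ∫ t in cell n j, (c • x) t = c * ∫ t in cell n j, x t := by
      rw [← integral_const_mul]
      apply integral_congr_ae
      apply ae_restrict_of_ae
      filter_upwards [Lp.coeFn_smul c x] with t ht
      rw [ht, Pi.smul_apply, smul_eq_mul]
    rw [h]
    simp only [RingHom.id_apply, smul_eq_mul]
    ring

theorem avgL_rpow_le (hp : p ≠ ∞) (n : ℕ) (j : ℤ) (x : Lp 𝕜 p (volume : Measure ℝ)) :
    ‖avgL 𝕜 p n j x‖ ^ p.toReal ≤ 2 ^ n * ∫ t in cell n j, ‖x t‖ ^ p.toReal := by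
  have hP1 : 1 ≤ p.toReal := by
    have := ENNReal.toReal_mono hp hp1.out
    simpa using this
  have h := (convexOn_rpow hP1).map_average_le (μ := volume.restrict (cell n j))
    (f := fun t => ‖x t‖) (Real.continuous_rpow_const (by linarith)).continuousOn isClosed_Ici
    (ae_of_all _ fun t => norm_nonneg _) (int_cell n j x).norm
    ((integrable_rpow hp x).integrableOn)
  rw [average_eq, average_eq, cell_real] at h
  simp only [one_div, inv_inv, smul_eq_mul, Function.comp_apply] at h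
  refine le_trans ?_ h
  apply Real.rpow_le_rpow (norm_nonneg _) _ (by linarith)
  change ‖(2 : 𝕜) ^ n * ∫ t in cell n j, x t‖ ≤ _
  rw [norm_mul, norm_pow, RCLike.norm_ofNat]
  exact mul_le_mul_of_nonneg_left (norm_integral_le_integral_norm _) (by positivity)

theorem int_cell_le (hp : p ≠ ∞) (n : ℕ) (j : ℤ) (x : Lp 𝕜 p (volume : Measure ℝ)) :
    ∫ t in cell n j, ‖x t‖ ^ p.toReal ≤ ‖x‖ ^ p.toReal := by
  rw [norm_rpow hp]
  exact setIntegral_le_integral (integrable_rpow hp x) (ae_of_all _ fun t => by positivity)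

theorem avgL_bound (hp : p ≠ ∞) (n : ℕ) (j : ℤ) (x : Lp 𝕜 p (volume : Measure ℝ)) :
    ‖avgL 𝕜 p n j x‖ ≤ ((2 : ℝ) ^ n) ^ (1 / p.toReal) * ‖x‖ := by
  have hP1 : 1 ≤ p.toReal := by
    have := ENNReal.toReal_mono hp hp1.out
    simpa using this
  have hP : 0 < p.toReal := by linarith
  apply (Real.rpow_le_rpow_iff (norm_nonneg _) (by positivity) hP).mp
  rw [Real.mul_rpow (by positivity) (norm_nonneg _), ← Real.rpow_mul (by positivity),
    one_div_mul_cancel hP.ne', Real.rpow_one]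
  refine (avgL_rpow_le hp n j x).trans ?_
  exact mul_le_mul_of_nonneg_left (int_cell_le hp n j x) (by positivity)

/-- The average over a cell. -/
def avg (𝕜 : Type*) [RCLike 𝕜] (p : ℝ≥0∞) [Fact (1 ≤ p)] (hp : p ≠ ∞) (n : ℕ) (j : ℤ) :
    Lp 𝕜 p (volume : Measure ℝ) →L[𝕜] 𝕜 :=
  (avgL 𝕜 p n j).mkContinuous (((2 : ℝ) ^ n) ^ (1 / p.toReal)) (avgL_bound hp n j)

theorem avg_def (hp : p ≠ ∞) (n : ℕ) (j : ℤ) (x : Lp 𝕜 p (volume : Measure ℝ)) :
    avg 𝕜 p hp n j x = 2 ^ n * ∫ t in cell n j, x t := rfl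

theorem avg_rpow_le (hp : p ≠ ∞) (n : ℕ) (j : ℤ) (x : Lp 𝕜 p (volume : Measure ℝ)) :
    ‖avg 𝕜 p hp n j x‖ ^ p.toReal ≤ 2 ^ n * ∫ t in cell n j, ‖x t‖ ^ p.toReal :=
  avgL_rpow_le hp n j x

theorem avg_supp (hp : p ≠ ∞) (n : ℕ) (j : ℤ) {A : Set ℝ} (hA : Disjoint A (cell n j))
    {x : Lp 𝕜 p (volume : Measure ℝ)} (hx : SuppOn A x) : avg 𝕜 p hp n j x = 0 := by
  rw [avg_def]
  have h : ∫ t in cell n j, x t = 0 := by
    rw [← integral_zero ℝ 𝕜 (μ := volume.restrict (cell n j))]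
    apply integral_congr_ae
    filter_upwards [ae_restrict_mem (cell_meas n j), ae_restrict_of_ae hx] with t h1 h2
    exact h2 fun h3 => Set.disjoint_left.mp hA h3 h1
  rw [h, mul_zero]

theorem avg_ind (hp : p ≠ ∞) (n : ℕ) (j : ℤ) : avg 𝕜 p hp n j (ind 𝕜 p n j) = 1 := by
  rw [avg_def]
  have h : ∫ t in cell n j, ind 𝕜 p n j t = 1 / 2 ^ n := by
    have h1 : ∫ t in cell n j, ind 𝕜 p n j t = ∫ _t in cell n j, (1 : 𝕜) := by
      apply integral_congr_ae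
      filter_upwards [ae_restrict_mem (cell_meas n j),
        ae_restrict_of_ae (ind_coe (𝕜 := 𝕜) (p := p) n j)] with t h1 h2
      rw [h2, Set.indicator_of_mem h1]
    rw [h1, integral_const, cell_real, RCLike.real_smul_eq_coe_mul, mul_one]
    push_cast
    rfl
  rw [h]
  field_simp

theorem avg_ind_ne (hp : p ≠ ∞) (n : ℕ) {i j : ℤ} (h : i ≠ j) :
    avg 𝕜 p hp n i (ind 𝕜 p n j) = 0 :=
  avg_supp hp n i (cell_disj n h.symm) (ind_supp n j)

theorem avg_refine (hp : p ≠ ∞) (n : ℕ) (j : ℤ) (x : Lp 𝕜 p (volume : Measure ℝ)) :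
    avg 𝕜 p hp n j x =
      (avg 𝕜 p hp (n + 1) (2 * j) x + avg 𝕜 p hp (n + 1) (2 * j + 1) x) / 2 := by
  rw [avg_def, avg_def, avg_def, cell_refine n j, setIntegral_union (cell_disj (n + 1) (by omega))
    (cell_meas _ _) (int_cell _ _ x) (int_cell _ _ x), pow_succ]
  ring

theorem avg_trans (hp : p ≠ ∞) (l : ℤ) (x : Lp 𝕜 p (volume : Measure ℝ)) :
    avg 𝕜 p hp 0 0 (trans 𝕜 p ((-l : ℤ) : ℝ) x) = avg 𝕜 p hp 0 l x := by
  rw [avg_def, avg_def]
  congr 1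
  have h1 : ∫ t in cell 0 0, (trans 𝕜 p ((-l : ℤ) : ℝ) x) t = ∫ t in cell 0 0, x (t - ((-l : ℤ) : ℝ)) := by
    apply integral_congr_ae
    exact ae_restrict_of_ae (trans_coe (𝕜 := 𝕜) (p := p) ((-l : ℤ) : ℝ) x)
  have h2 : cell 0 0 = (fun t : ℝ => t - ((-l : ℤ) : ℝ)) ⁻¹' (cell 0 l) := by
    ext t
    simp only [cell, Set.mem_Ico, Set.mem_preimage, pow_zero, div_one, Int.cast_zero, Int.cast_neg]
    constructor
    · rintro ⟨h3, h4⟩
      constructor <;> linarith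
    · rintro ⟨h3, h4⟩
      constructor <;> linarith
  rw [h1, h2]
  exact (measurePreserving_sub_right volume ((-l : ℤ) : ℝ)).setIntegral_preimage_emb
    (MeasurableEquiv.subRight ((-l : ℤ) : ℝ)).measurableEmbedding (fun t => x t) (cell 0 l)

theorem avg_sum_le (hp : p ≠ ∞) (n : ℕ) (F : Finset ℤ) (x : Lp 𝕜 p (volume : Measure ℝ)) :
    ∑ j ∈ F, ‖avg 𝕜 p hp n j x‖ ^ p.toReal ≤ 2 ^ n * ‖x‖ ^ p.toReal := by
  calc ∑ j ∈ F, ‖avg 𝕜 p hp n j x‖ ^ p.toReal
      ≤ ∑ j ∈ F, 2 ^ n * ∫ t in cell n j, ‖x t‖ ^ p.toReal :=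
        Finset.sum_le_sum fun j _ => avg_rpow_le hp n j x
    _ = 2 ^ n * ∫ t in ⋃ j ∈ F, cell n j, ‖x t‖ ^ p.toReal := by
        rw [← Finset.mul_sum, integral_biUnion_finset]
        · intro j _
          exact cell_meas n j
        · intro i _ j _ hij
          exact cell_disj n hij
        · intro j _
          exact (integrable_rpow hp x).integrableOn
    _ ≤ 2 ^ n * ‖x‖ ^ p.toReal := by
        apply mul_le_mul_of_nonneg_left _ (by positivity)
        rw [norm_rpow hp]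
        exact setIntegral_le_integral (integrable_rpow hp x) (ae_of_all _ fun t => by positivity)

theorem norm_step (hp : p ≠ ∞) (n : ℕ) (F : Finset ℤ) (a : ℤ → 𝕜) :
    ‖∑ j ∈ F, a j • ind 𝕜 p n j‖ ^ p.toReal = (∑ j ∈ F, ‖a j‖ ^ p.toReal) / 2 ^ n := by
  rw [norm_sum_disj hp F (fun j => cell n j) (fun i _ j _ hij => cell_disj n hij)
    (fun j _ => (ind_supp n j).smul _), Finset.sum_div]
  apply Finset.sum_congr rfl
  intro j _
  rw [norm_smul, Real.mul_rpow (norm_nonneg _) (norm_nonneg _), norm_ind hp]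
  ring

/-! ### The projections -/

/-- Indices of the cells of level `n` inside `[-2^n, 2^n)`. -/
def J (n : ℕ) : Finset ℤ := Finset.Ico (-2 ^ (n + n)) (2 ^ (n + n))

/-- The averaging projections. -/
def pr (𝕜 : Type*) [RCLike 𝕜] (p : ℝ≥0∞) [Fact (1 ≤ p)] (hp : p ≠ ∞) (n : ℕ) :
    Lp 𝕜 p (volume : Measure ℝ) →L[𝕜] Lp 𝕜 p (volume : Measure ℝ) :=
  ∑ j ∈ J n, (avg 𝕜 p hp n j).smulRight (ind 𝕜 p n j)

theorem pr_apply (hp : p ≠ ∞) (n : ℕ) (x : Lp 𝕜 p (volume : Measure ℝ)) :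
    pr 𝕜 p hp n x = ∑ j ∈ J n, avg 𝕜 p hp n j x • ind 𝕜 p n j := by
  simp [pr]

theorem avg_pr (hp : p ≠ ∞) (n : ℕ) (k : ℤ) (x : Lp 𝕜 p (volume : Measure ℝ)) :
    avg 𝕜 p hp n k (pr 𝕜 p hp n x) = if k ∈ J n then avg 𝕜 p hp n k x else 0 := by
  rw [pr_apply, map_sum]
  split_ifs with h
  · rw [Finset.sum_eq_single k]
    · rw [map_smul, avg_ind, smul_eq_mul, mul_one]
    · intro j _ hj
      rw [map_smul, avg_ind_ne hp n hj.symm, smul_zero]
    · intro h'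
      exact absurd h h'
  · apply Finset.sum_eq_zero
    intro j hj
    rw [map_smul, avg_ind_ne hp n, smul_zero]
    rintro rfl
    exact h hj

theorem pr_ind (hp : p ≠ ∞) (n : ℕ) (k : ℤ) :
    pr 𝕜 p hp n (ind 𝕜 p n k) = if k ∈ J n then ind 𝕜 p n k else 0 := by
  rw [pr_apply]
  split_ifs with h
  · rw [Finset.sum_eq_single k]
    · rw [avg_ind, one_smul]
    · intro j _ hj
      rw [avg_ind_ne hp n hj, zero_smul]
    · intro h'
      exact absurd h h'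
  · apply Finset.sum_eq_zero
    intro j hj
    rw [avg_ind_ne hp n, zero_smul]
    rintro rfl
    exact h hj

theorem avg_pr_in (hp : p ≠ ∞) (x : Lp 𝕜 p (volume : Measure ℝ)) (d : ℕ) : ∀ (m : ℕ) (j : ℤ),
    -2 ^ (m + d + m) ≤ j → j < 2 ^ (m + d + m) →
    avg 𝕜 p hp m j (pr 𝕜 p hp (m + d) x) = avg 𝕜 p hp m j x := by
  induction d with
  | zero =>
    intro m j h1 h2
    rw [add_zero] at *
    rw [avg_pr, if_pos]
    rw [J, Finset.mem_Ico]
    exact ⟨h1, h2⟩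
  | succ d ih =>
    intro m j h1 h2
    have e : m + (d + 1) = (m + 1) + d := by ring
    have e2 : (2 : ℤ) ^ (m + 1 + d + (m + 1)) = 2 * 2 ^ (m + (d + 1) + m) := by ring
    rw [avg_refine, avg_refine hp m j x, e, ih (m + 1) (2 * j), ih (m + 1) (2 * j + 1)]
    · rw [e2]; omega
    · rw [e2]; omega
    · rw [e2]; omega
    · rw [e2]; omega

theorem avg_pr_out (hp : p ≠ ∞) (x : Lp 𝕜 p (volume : Measure ℝ)) (d : ℕ) : ∀ (m : ℕ) (j : ℤ),
    (j < -2 ^ (m + d + m) ∨ 2 ^ (m + d + m) ≤ j) →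
    avg 𝕜 p hp m j (pr 𝕜 p hp (m + d) x) = 0 := by
  induction d with
  | zero =>
    intro m j h1
    rw [add_zero] at *
    rw [avg_pr, if_neg]
    rw [J, Finset.mem_Ico]
    omega
  | succ d ih =>
    intro m j h1
    have e : m + (d + 1) = (m + 1) + d := by ring
    have e2 : (2 : ℤ) ^ (m + 1 + d + (m + 1)) = 2 * 2 ^ (m + (d + 1) + m) := by ring
    rw [avg_refine, e, ih (m + 1) (2 * j), ih (m + 1) (2 * j + 1)]
    · simp
    · rw [e2]; omega
    · rw [e2]; omega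

theorem pr_ind_in (hp : p ≠ ∞) (d : ℕ) : ∀ (m : ℕ) (j : ℤ),
    -2 ^ (m + d + m) ≤ j → j < 2 ^ (m + d + m) →
    pr 𝕜 p hp (m + d) (ind 𝕜 p m j) = ind 𝕜 p m j := by
  induction d with
  | zero =>
    intro m j h1 h2
    rw [add_zero] at *
    rw [pr_ind, if_pos]
    rw [J, Finset.mem_Ico]
    exact ⟨h1, h2⟩
  | succ d ih =>
    intro m j h1 h2
    have e : m + (d + 1) = (m + 1) + d := by ring
    have e2 : (2 : ℤ) ^ (m + 1 + d + (m + 1)) = 2 * 2 ^ (m + (d + 1) + m) := by ring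
    rw [ind_refine, map_add, e, ih (m + 1) (2 * j), ih (m + 1) (2 * j + 1)]
    · rw [e2]; omega
    · rw [e2]; omega
    · rw [e2]; omega
    · rw [e2]; omega

theorem J_range {m n : ℕ} (hmn : m ≤ n) {j : ℤ} (hj : j ∈ J m) :
    -2 ^ (n + m) ≤ j ∧ j < 2 ^ (n + m) := by
  rw [J, Finset.mem_Ico] at hj
  have h : (2 : ℤ) ^ (m + m) ≤ 2 ^ (n + m) := pow_le_pow_right₀ (by norm_num) (by omega)
  omega

theorem pr_comp (hp : p ≠ ∞) (m n : ℕ) (hmn : m ≤ n) (x : Lp 𝕜 p (volume : Measure ℝ)) :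
    pr 𝕜 p hp m (pr 𝕜 p hp n x) = pr 𝕜 p hp m x := by
  obtain ⟨d, rfl⟩ := Nat.exists_eq_add_of_le hmn
  rw [pr_apply, pr_apply hp m x]
  apply Finset.sum_congr rfl
  intro j hj
  obtain ⟨h1, h2⟩ := J_range hmn hj
  rw [avg_pr_in hp x d m j h1 h2]

theorem pr_comp' (hp : p ≠ ∞) (m n : ℕ) (hmn : m ≤ n) (x : Lp 𝕜 p (volume : Measure ℝ)) :
    pr 𝕜 p hp n (pr 𝕜 p hp m x) = pr 𝕜 p hp m x := by
  obtain ⟨d, rfl⟩ := Nat.exists_eq_add_of_le hmn
  rw [pr_apply hp m x, map_sum]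
  apply Finset.sum_congr rfl
  intro j hj
  obtain ⟨h1, h2⟩ := J_range hmn hj
  rw [map_smul, pr_ind_in hp d m j h1 h2]

theorem shift_in (hp : p ≠ ∞) (m n : ℕ) (l : ℤ) (y : Lp 𝕜 p (volume : Measure ℝ))
    (hy : pr 𝕜 p hp m y = y) (h : |l| + 2 ^ m ≤ 2 ^ n) :
    pr 𝕜 p hp n (trans 𝕜 p l y) = trans 𝕜 p l y := by
  have hmn : m ≤ n := by
    by_contra hcon
    have h1 : (2 : ℤ) ^ n < 2 ^ m := pow_lt_pow_right₀ (by norm_num) (by omega)
    have := abs_nonneg l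
    omega
  obtain ⟨d, rfl⟩ := Nat.exists_eq_add_of_le hmn
  rw [← hy, pr_apply hp m y, map_sum, map_sum]
  apply Finset.sum_congr rfl
  intro j hj
  rw [map_smul, map_smul, ind_trans, pr_ind_in]
  all_goals
    rw [J, Finset.mem_Ico] at hj
    have h2 : (0 : ℤ) < 2 ^ m := by positivity
    have h3 : (2 : ℤ) ^ (m + m) = 2 ^ m * 2 ^ m := by ring
    have h4 : (2 : ℤ) ^ (m + d + m) = 2 ^ (m + d) * 2 ^ m := by ring
    have h5 := mul_le_mul_of_nonneg_right h h2.le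
    have h6 := mul_le_mul_of_nonneg_right (le_abs_self l) h2.le
    have h7 := mul_le_mul_of_nonneg_right (neg_abs_le l) h2.le
    rw [h4]
    rw [h3] at hj
    nlinarith

theorem shift_out (hp : p ≠ ∞) (m : ℕ) (l : ℤ) (y : Lp 𝕜 p (volume : Measure ℝ))
    (hy : pr 𝕜 p hp m y = y) (h : 2 ^ (m + 1) ≤ |l|) :
    pr 𝕜 p hp m (trans 𝕜 p l y) = 0 := by
  rw [← hy, pr_apply hp m y, map_sum, map_sum]
  apply Finset.sum_eq_zero
  intro j hj
  rw [map_smul, map_smul, ind_trans, pr_ind, if_neg, smul_zero]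
  rw [J, Finset.mem_Ico] at *
  have h2 : (0 : ℤ) < 2 ^ m := by positivity
  have h3 : (2 : ℤ) ^ (m + m) = 2 ^ m * 2 ^ m := by ring
  have h4 : (2 : ℤ) ^ (m + 1) = 2 * 2 ^ m := by ring
  rw [h4] at h
  rw [h3] at hj ⊢
  rintro ⟨h5, h6⟩
  rcases le_abs.mp h with h7 | h7
  · have := mul_le_mul_of_nonneg_right h7 h2.le
    linarith
  · have := mul_le_mul_of_nonneg_right h7 h2.le
    linarith

theorem pr_norm (hp : p ≠ ∞) (n : ℕ) (x : Lp 𝕜 p (volume : Measure ℝ)) :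
    ‖pr 𝕜 p hp n x‖ ≤ ‖x‖ := by
  have hP1 : 1 ≤ p.toReal := by
    have := ENNReal.toReal_mono hp hp1.out
    simpa using this
  apply (Real.rpow_le_rpow_iff (norm_nonneg _) (norm_nonneg _) (by linarith : 0 < p.toReal)).mp
  rw [pr_apply, norm_step hp, div_le_iff₀ (by positivity), mul_comm]
  exact avg_sum_le hp n (J n) x

theorem pr_supp (hp : p ≠ ∞) (m : ℕ) (x : Lp 𝕜 p (volume : Measure ℝ)) :
    SuppOn (Set.Ico (-(2 : ℝ) ^ m) (2 ^ m)) (pr 𝕜 p hp m x) := by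
  rw [pr_apply]
  apply SuppOn.sum
  intro j hj
  apply ((ind_supp m j).smul _).mono
  rw [J, Finset.mem_Ico] at hj
  obtain ⟨h1, h2⟩ := hj
  have h3 : (0 : ℝ) < 2 ^ m := by positivity
  apply Set.Ico_subset_Ico
  · rw [le_div_iff₀ h3]
    have : ((-2 ^ (m + m) : ℤ) : ℝ) ≤ j := by exact_mod_cast h1
    push_cast at this
    rw [pow_add] at this
    linarith
  · rw [div_le_iff₀ h3]
    have : (j : ℝ) + 1 ≤ ((2 ^ (m + m) : ℤ) : ℝ) := by exact_mod_cast h2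
    push_cast at this
    rw [pow_add] at this
    linarith

end

end

end Pool.Agent.H296R4
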