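import Pool.Agent.H296R4.Pert

/-!
# Positions with separated differences, and coordinates of finite rank projections
-/

open Filter Topology

namespace Pool.Agent.H296R4

theorem pd1 {a b c d : ℕ} (_h1 : b < a) (h2 : d < c) (h : (2 : ℤ) ^ a + 2 ^ d = 2 ^ c + 2 ^ b) :
    ¬ a < c := by
  intro hac
  obtain ⟨c', rfl⟩ : ∃ c', c = c' + 1 := ⟨c - 1, by omega⟩
  have h3 : (2 : ℤ) ^ a ≤ 2 ^ c' := pow_le_pow_right₀ (by norm_num) (by omega)
  have h4 : (2 : ℤ) ^ d ≤ 2 ^ c' := pow_le_pow_right₀ (by norm_num) (by omega)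
  have h5 : (0 : ℤ) < 2 ^ b := by positivity
  have h6 : (2 : ℤ) ^ (c' + 1) = 2 ^ c' + 2 ^ c' := by ring
  omega

theorem pd2 {a b c d : ℕ} (h1 : b < a) (h2 : d < c) (h : (2 : ℤ) ^ a + 2 ^ d = 2 ^ c + 2 ^ b) :
    a = c ∧ b = d := by
  have h3 := pd1 h1 h2 h
  have h4 := pd1 h2 h1 h.symm
  have h5 : a = c := by omega
  subst h5
  refine ⟨rfl, ?_⟩
  have h6 : (2 : ℤ) ^ b = 2 ^ d := by omega
  exact (Int.pow_right_injective (by norm_num) h6)

theorem pd3 {a b c d : ℕ} (h1 : a ≠ b) (h2 : c ≠ d) (h : (2 : ℤ) ^ a - 2 ^ b = 2 ^ c - 2 ^ d) :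
    a = c ∧ b = d := by
  have hmono : ∀ {u v : ℕ}, u < v → (2 : ℤ) ^ u < 2 ^ v := fun h =>
    pow_lt_pow_right₀ (by norm_num) h
  rcases lt_or_gt_of_ne h1 with h3 | h3
  · rcases lt_or_gt_of_ne h2 with h4 | h4
    · have := pd2 h3 h4 (by omega)
      exact ⟨this.2, this.1⟩
    · have h5 := hmono h3
      have h6 := hmono h4
      omega
  · rcases lt_or_gt_of_ne h2 with h4 | h4
    · have h5 := hmono h3
      have h6 := hmono h4
      omega
    · exact pd2 h3 h4 (by omega)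

/-- The positions. -/
def lam (m : ℕ) {r N : ℕ} (j : Fin r × Fin N) : ℤ := 2 ^ (m + 1) * 2 ^ (finProdFinEquiv j : ℕ)

theorem lam_ge (m : ℕ) {r N : ℕ} (j : Fin r × Fin N) : 2 ^ (m + 1) ≤ lam m j := by
  unfold lam
  have h1 : (1 : ℤ) ≤ 2 ^ (finProdFinEquiv j : ℕ) := one_le_pow₀ (by norm_num)
  have h2 : (0 : ℤ) < 2 ^ (m + 1) := by positivity
  nlinarith

theorem lam_le (m : ℕ) {r N : ℕ} (j : Fin r × Fin N) :
    lam m j + 2 ^ m ≤ 2 ^ (m + 1 + r * N) := by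
  unfold lam
  have h0 : (finProdFinEquiv j : ℕ) < r * N := (finProdFinEquiv j).2
  obtain ⟨t, ht⟩ : ∃ t, r * N = t + 1 := ⟨r * N - 1, by omega⟩
  have h1 : (2 : ℤ) ^ (finProdFinEquiv j : ℕ) ≤ 2 ^ t :=
    pow_le_pow_right₀ (by norm_num) (by omega)
  have h3 : (1 : ℤ) ≤ 2 ^ t := one_le_pow₀ (by norm_num)
  have h2 : (0 : ℤ) < 2 ^ m := by positivity
  have h4 : (2 : ℤ) ^ (m + 1 + r * N) = 2 ^ m * 2 ^ t * 4 := by rw [ht]; ring
  have h5 : (2 : ℤ) ^ (m + 1) * 2 ^ (finProdFinEquiv j : ℕ) =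
      2 ^ m * 2 ^ (finProdFinEquiv j : ℕ) * 2 := by ring
  rw [h4, h5]
  have h6 := mul_le_mul_of_nonneg_left h1 h2.le
  nlinarith [mul_le_mul_of_nonneg_left h3 h2.le]

theorem sep_aux (m : ℕ) (k : ℤ) (hk : k ≠ 0) : (2 : ℤ) ^ (m + 1) ≤ |2 ^ (m + 1) * k| := by
  rw [abs_mul, abs_of_pos (by positivity : (0 : ℤ) < 2 ^ (m + 1))]
  have : 1 ≤ |k| := Int.one_le_abs hk
  have h2 : (0 : ℤ) < 2 ^ (m + 1) := by positivity
  nlinarith

theorem lam_sep (m : ℕ) {r N : ℕ} {i j : Fin r × Fin N} (hij : i ≠ j) :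
    2 ^ (m + 1) ≤ |lam m i - lam m j| := by
  unfold lam
  rw [← mul_sub]
  apply sep_aux
  intro h
  apply hij
  have h1 : (2 : ℤ) ^ (finProdFinEquiv i : ℕ) = 2 ^ (finProdFinEquiv j : ℕ) := by omega
  have h2 := Int.pow_right_injective (by norm_num) h1
  exact finProdFinEquiv.injective (Fin.ext h2)

theorem lam_sep2 (m : ℕ) {r N : ℕ} {i i' j j' : Fin r × Fin N} (h1 : i ≠ i') (h2 : j ≠ j')
    (h : ¬ (i = j ∧ i' = j')) :
    2 ^ (m + 1) ≤ |(lam m i - lam m i') - (lam m j - lam m j')| := by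
  unfold lam
  have e : (2 : ℤ) ^ (m + 1) * 2 ^ (finProdFinEquiv i : ℕ) -
      2 ^ (m + 1) * 2 ^ (finProdFinEquiv i' : ℕ) -
      (2 ^ (m + 1) * 2 ^ (finProdFinEquiv j : ℕ) - 2 ^ (m + 1) * 2 ^ (finProdFinEquiv j' : ℕ)) =
      2 ^ (m + 1) * ((2 ^ (finProdFinEquiv i : ℕ) - 2 ^ (finProdFinEquiv i' : ℕ)) -
        (2 ^ (finProdFinEquiv j : ℕ) - 2 ^ (finProdFinEquiv j' : ℕ))) := by ring
  rw [e]
  apply sep_aux
  intro h0
  apply h
  have h3 : (finProdFinEquiv i : ℕ) ≠ (finProdFinEquiv i' : ℕ) := fun hh =>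
    h1 (finProdFinEquiv.injective (Fin.ext hh))
  have h4 : (finProdFinEquiv j : ℕ) ≠ (finProdFinEquiv j' : ℕ) := fun hh =>
    h2 (finProdFinEquiv.injective (Fin.ext hh))
  have h5 := pd3 h3 h4 (by omega)
  exact ⟨finProdFinEquiv.injective (Fin.ext h5.1), finProdFinEquiv.injective (Fin.ext h5.2)⟩

section

variable {𝕜 : Type*} [RCLike 𝕜] {X : Type*} [NormedAddCommGroup X] [NormedSpace 𝕜 X]

theorem exists_coords (S : X →L[𝕜] X) [FiniteDimensional 𝕜 (LinearMap.range S.toLinearMap)]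
    (hS : ∀ x, S (S x) = S x) (hS0 : S ≠ 0) :
    ∃ (r : ℕ) (g : Fin r → X) (bb : Fin r → X →L[𝕜] 𝕜), 0 < r ∧
      (∀ x, ∑ s, bb s x • g s = S x) ∧ (∀ s t, bb s (g t) = if s = t then 1 else 0) ∧
      (∀ s, S (g s) = g s) ∧ (∀ s x, bb s (S x) = bb s x) ∧ (∀ s x, S x = 0 → bb s x = 0) := by
  set V := LinearMap.range S.toLinearMap with hV
  let b := Module.finBasis 𝕜 V
  let SV : X →L[𝕜] V := S.codRestrict V (fun x => ⟨x, rfl⟩)
  have hSV : ∀ x, ((SV x : V) : X) = S x := fun x => rfl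
  have hfix : ∀ v : V, S (v : X) = v := by
    rintro ⟨_, ⟨x, rfl⟩⟩
    exact hS x
  have hSVfix : ∀ v : V, SV (v : X) = v := by
    intro v
    apply Subtype.ext
    rw [hSV, hfix]
  refine ⟨Module.finrank 𝕜 V, fun s => (b s : X),
    fun s => (LinearMap.toContinuousLinearMap (b.coord s)).comp SV, ?_, ?_, ?_, ?_, ?_, ?_⟩
  · rw [Module.finrank_pos_iff_exists_ne_zero]
    by_contra hcon
    push Not at hcon
    apply hS0
    ext x
    have := hcon (SV x)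
    have h2 : ((SV x : V) : X) = 0 := by rw [this]; rfl
    rw [hSV] at h2
    exact h2
  · intro x
    have h1 := b.sum_repr (SV x)
    have h2 : ((∑ i, (b.repr (SV x)) i • b i : V) : X) = S x := by rw [h1, hSV]
    rw [← h2, Submodule.coe_sum]
    rfl
  · intro s t
    simp only [ContinuousLinearMap.comp_apply]
    rw [hSVfix]
    simp [Module.Basis.coord_apply, Finsupp.single_apply, eq_comm]
  · intro s
    exact hfix _
  · intro s x
    simp only [ContinuousLinearMap.comp_apply]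
    have : SV (S x) = SV x := by
      apply Subtype.ext
      rw [hSV, hSV, hS]
    rw [this]
  · intro s x hx
    simp only [ContinuousLinearMap.comp_apply]
    have : SV x = 0 := by
      apply Subtype.ext
      rw [hSV, hx]
      rfl
    rw [this, map_zero]

end

theorem rpow_add_le {P : ℝ} (hP : 0 ≤ P) {u v : ℝ} (hu : 0 ≤ u) (hv : 0 ≤ v) :
    (u + v) ^ P ≤ 2 ^ P * (u ^ P + v ^ P) := by
  have h1 : u + v ≤ 2 * max u v := by
    have := le_max_left u v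
    have := le_max_right u v
    linarith
  have h2 : (u + v) ^ P ≤ (2 * max u v) ^ P := Real.rpow_le_rpow (by positivity) h1 hP
  rw [Real.mul_rpow (by norm_num) (le_max_of_le_left hu)] at h2
  refine h2.trans ?_
  apply mul_le_mul_of_nonneg_left _ (by positivity)
  have h3 := Real.rpow_nonneg hu P
  have h4 := Real.rpow_nonneg hv P
  rcases max_cases u v with h | h
  · rw [h.1]; linarith
  · rw [h.1]; linarith

end Pool.Agent.H296R4
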