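import Pool.Agent.H296R4.Asm

/-!
# The abstract theorem
-/

open Filter Topology

namespace Pool.Agent.H296R4

section

variable {𝕜 : Type*} [RCLike 𝕜] {X : Type*} [NormedAddCommGroup X] [NormedSpace 𝕜 X] {P : ℝ}
  {Y : Sys 𝕜 X P} (s : ℕ → St Y) (d : ∀ k, Dat Y k (s k) (s (k + 1)))

include d

theorem m_lt (k : ℕ) : (s k).m < (s (k + 1)).m := by
  rw [(d k).hm]
  have := Nat.mul_pos (d k).hr (d k).hN
  omega

theorem m_mono : StrictMono fun k => (s k).m := strictMono_nat_of_lt_succ (m_lt s d)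

theorem m_le {i k : ℕ} (h : i ≤ k) : (s i).m ≤ (s k).m := (m_mono s d).monotone h

theorem S_succ (k : ℕ) (x : X) :
    (s (k + 1)).S x = Y.pr (s (k + 1)).m x - Y.pr (s k).m x - (d k).R x := by
  rw [(d k).hS]
  rfl

theorem R_S (k : ℕ) (x : X) : (d k).R ((s k).S x) = 0 := by
  rw [← (s k).hS1, (d k).hR4]

theorem S_R (k : ℕ) (x : X) : (s k).S ((d k).R x) = 0 := by
  rw [← (s k).hS2, (d k).hR3, map_zero]

theorem QQ (k : ℕ) (x : X) :
    ((d k).R + (s k).S) (((d k).R + (s k).S) x) = ((d k).R + (s k).S) x := by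
  simp only [add_apply, map_add]
  rw [(d k).hRR, R_S s d, S_R s d, (s k).hS3]
  simp

/-- `A i = pr m_i - S_i`. -/
theorem AQ {i k : ℕ} (hik : i ≤ k) (x : X) :
    Y.pr (s i).m (((d k).R + (s k).S) x) - (s i).S (((d k).R + (s k).S) x) = 0 := by
  rcases Nat.eq_or_lt_of_le hik with rfl | hlt
  · simp only [add_apply, map_add]
    rw [(d i).hR3, (s i).hS1, S_R s d, (s i).hS3]
    simp
  · obtain ⟨k', rfl⟩ : ∃ k', k = k' + 1 := ⟨k - 1, by omega⟩
    have h1 : Y.pr (s k').m (((d (k' + 1)).R + (s (k' + 1)).S) x) = 0 := by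
      simp only [add_apply, map_add]
      have h2 : Y.pr (s k').m ((d (k' + 1)).R x) = 0 := by
        rw [← Y.pr_comp (s k').m (s (k' + 1)).m (m_lt s d k').le, (d (k' + 1)).hR3, map_zero]
      have h3 : Y.pr (s k').m ((s (k' + 1)).S x) = 0 := by
        rw [S_succ s d, map_sub, map_sub, Y.pr_comp _ _ (m_lt s d k').le, Y.pr_comp _ _ le_rfl,
          (d k').hR3]
        simp
      rw [h2, h3, add_zero]
    have h4 : Y.pr (s i).m (((d (k' + 1)).R + (s (k' + 1)).S) x) = 0 := by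
      rw [← Y.pr_comp (s i).m (s k').m (m_le s d (by omega)), h1, map_zero]
    rw [← (s i).hS2, h4, map_zero, sub_zero]

theorem QA {i k : ℕ} (hik : i ≤ k) (x : X) :
    ((d k).R + (s k).S) (Y.pr (s i).m x - (s i).S x) = 0 := by
  rcases Nat.eq_or_lt_of_le hik with rfl | hlt
  · simp only [add_apply, map_sub]
    rw [(d i).hR4, (s i).hS2, R_S s d, (s i).hS3]
    simp
  · obtain ⟨k', rfl⟩ : ∃ k', k = k' + 1 := ⟨k - 1, by omega⟩
    have h1 : ∀ w, ((d (k' + 1)).R + (s (k' + 1)).S) (Y.pr (s k').m w) = 0 := by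
      intro w
      simp only [add_apply]
      have h2 : (d (k' + 1)).R (Y.pr (s k').m w) = 0 := by
        rw [← Y.pr_comp' (s k').m (s (k' + 1)).m (m_lt s d k').le, (d (k' + 1)).hR4]
      have h3 : (s (k' + 1)).S (Y.pr (s k').m w) = 0 := by
        rw [S_succ s d, Y.pr_comp' _ _ (m_lt s d k').le, Y.pr_comp _ _ le_rfl, (d k').hR4]
        simp
      rw [h2, h3, add_zero]
    have h5 : Y.pr (s i).m x - (s i).S x = Y.pr (s k').m (Y.pr (s i).m x - (s i).S x) := by
      have h6 : Y.pr (s i).m (Y.pr (s i).m x - (s i).S x) = Y.pr (s i).m x - (s i).S x := by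
        rw [map_sub, Y.pr_comp _ _ le_rfl, (s i).hS1]
      rw [← h6, Y.pr_comp' _ _ (m_le s d (by omega : i ≤ k'))]
    rw [h5, h1]

theorem A_succ (k : ℕ) (x : X) :
    Y.pr (s (k + 1)).m x - (s (k + 1)).S x =
      (Y.pr (s k).m x - (s k).S x) + ((d k).R + (s k).S) x := by
  rw [S_succ s d, add_apply]
  abel

theorem A_succ' (k : ℕ) (x : X) :
    Y.pr (s (k + 1)).m x - (s (k + 1)).S x = Y.pr (s k).m x + (d k).R x := by
  rw [S_succ s d]
  abel

theorem QQ' (j k : ℕ) (x : X) (hjk : j ≠ k) :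
    ((d j).R + (s j).S) (((d k).R + (s k).S) x) = 0 := by
  rcases lt_or_gt_of_ne hjk with h | h
  · have h1 := A_succ s d j (((d k).R + (s k).S) x)
    rw [AQ s d (by omega : j + 1 ≤ k), AQ s d (by omega : j ≤ k), zero_add] at h1
    exact h1.symm
  · have h1 := A_succ s d k x
    have h2 : ((d k).R + (s k).S) x = (Y.pr (s (k + 1)).m x - (s (k + 1)).S x) -
        (Y.pr (s k).m x - (s k).S x) := by rw [h1]; abel
    rw [h2, map_sub, QA s d (by omega : k + 1 ≤ j), QA s d (by omega : k ≤ j), sub_zero]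

theorem sum_Q (h0 : s 0 = st0 Y) (n : ℕ) (x : X) :
    ∑ k ∈ Finset.range n, ((d k).R + (s k).S) x = Y.pr (s n).m x - (s n).S x := by
  induction n with
  | zero =>
    rw [Finset.sum_range_zero, h0]
    simp [st0]
  | succ n ih =>
    rw [Finset.sum_range_succ, ih, A_succ s d n]

theorem tol_mono (k j : ℕ) : ‖(s (k + j)).f - (s k).f‖ ≤ (s k).tol - (s (k + j)).tol := by
  induction j with
  | zero => simp
  | succ j ih =>
    have h1 := (d (k + j)).hnorm
    have h2 := (d (k + j)).htol1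
    have h3 : (s (k + (j + 1))).f - (s k).f =
        ((s (k + j + 1)).f - (s (k + j)).f) + ((s (k + j)).f - (s k).f) := by
      rw [← add_assoc]; abel
    rw [h3]
    refine (norm_add_le _ _).trans ?_
    rw [← add_assoc]
    linarith

theorem tol_pow (k : ℕ) : (s k).tol ≤ (s 0).tol * (1 / 2) ^ k := by
  induction k with
  | zero => simp
  | succ k ih =>
    have h2 := (d k).htol1
    rw [pow_succ]
    linarith

theorem cauchy_f : CauchySeq fun k => (s k).f := by
  apply cauchySeq_of_le_geometric (1 / 2) ((s 0).tol / 2) (by norm_num)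
  intro k
  rw [dist_comm, dist_eq_norm]
  have h1 := (d k).hnorm
  have h2 := tol_pow s d k
  linarith

theorem f_bdd (h0 : s 0 = st0 Y) (k : ℕ) : ‖(s k).f‖ ≤ ‖Y.e‖ + 1 := by
  have h1 := tol_mono s d 0 k
  have h2 := (s (0 + k)).htol
  rw [zero_add] at h1 h2
  have h3 : (s k).f = ((s k).f - (s 0).f) + (s 0).f := by abel
  have h4 : (s 0).tol = 1 := by rw [h0]; rfl
  have h5 : (s 0).f = Y.e := by rw [h0]; rfl
  have h6 : ‖(s 0).f‖ = ‖Y.e‖ := by rw [h5]
  have h7 := norm_add_le ((s k).f - (s 0).f) (s 0).f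
  rw [← h3] at h7
  linarith

theorem lam_sep_all {k k' : ℕ} (j : Fin (d k).r × Fin (d k).N) (j' : Fin (d k').r × Fin (d k').N)
    (h : k < k') :
    2 ^ (s k).m + 2 ^ (s k').m ≤ lam (s k').m j' - lam (s k).m j := by
  have h1 := lam_ge (s k').m j'
  have h2 := lam_le (s k).m j
  rw [← (d k).hm] at h2
  have h3 : (2 : ℤ) ^ (s (k + 1)).m ≤ 2 ^ (s k').m :=
    pow_le_pow_right₀ (by norm_num) (m_le s d (by omega))
  rw [pow_succ] at h1
  linarith

theorem lam_sep_all' (q q' : Σ k : ℕ, Fin (d k).r × Fin (d k).N) (h : q ≠ q') :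
    2 ^ (s q.1).m + 2 ^ (s q'.1).m ≤ |lam (s q.1).m q.2 - lam (s q'.1).m q'.2| := by
  obtain ⟨k, j⟩ := q
  obtain ⟨k', j'⟩ := q'
  rcases lt_trichotomy k k' with h1 | h1 | h1
  · have := lam_sep_all s d j j' h1
    rw [abs_sub_comm]
    exact this.trans (le_abs_self _)
  · subst h1
    have h2 : j ≠ j' := by
      rintro rfl
      exact h rfl
    have h3 := lam_sep (s k).m h2
    rw [pow_succ] at h3
    simp only
    linarith
  · have := lam_sep_all s d j' j h1
    rw [add_comm]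
    exact this.trans (le_abs_self _)

theorem R_bdd (hP : 2 < P) (h0 : s 0 = st0 Y) (F : Finset ℕ) (x : X) :
    ‖∑ k ∈ F, (d k).R x‖ ≤
      ((‖Y.e‖ + 1) ^ P * 2 ^ (P + 1)) ^ (1 / P) * ‖x‖ := by
  classical
  have hP0 : 0 < P := by linarith
  apply (Real.rpow_le_rpow_iff (norm_nonneg _) (by positivity) hP0).mp
  rw [Real.mul_rpow (by positivity) (norm_nonneg _), ← Real.rpow_mul (by positivity),
    one_div, inv_mul_cancel₀ hP0.ne', Real.rpow_one]
  have h1 : ∑ k ∈ F, (d k).R x = ∑ q ∈ F.sigma (fun k => (Finset.univ :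
      Finset (Fin (d k).r × Fin (d k).N))), Y.T (lam (s q.1).m q.2)
        (acl Y (s q.1).m (d q.1).r (d q.1).N q.2 x • (s q.1).f) := by
    rw [Finset.sum_sigma]
    apply Finset.sum_congr rfl
    intro k _
    rw [(d k).hR]
    apply Finset.sum_congr rfl
    intro j _
    rw [map_smul]
  rw [h1, Y.sep (Σ k : ℕ, Fin (d k).r × Fin (d k).N) _ (fun q => (s q.1).m)
    (fun q => lam (s q.1).m q.2)
    (fun q => acl Y (s q.1).m (d q.1).r (d q.1).N q.2 x • (s q.1).f)
    (fun q _ => by rw [map_smul, (s q.1).hf])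
    (fun q _ q' _ hne => lam_sep_all' s d q q' hne), Finset.sum_sigma]
  have h2 : ∀ k ∈ F, ∑ j : Fin (d k).r × Fin (d k).N,
      ‖acl Y (s k).m (d k).r (d k).N j x • (s k).f‖ ^ P ≤
      (‖Y.e‖ + 1) ^ P * (2 ^ (P + 1) *
        ∑ j : Fin (d k).r × Fin (d k).N, ‖Y.α (Y.T (-lam (s k).m j) x)‖ ^ P) := by
    intro k _
    calc ∑ j : Fin (d k).r × Fin (d k).N, ‖acl Y (s k).m (d k).r (d k).N j x • (s k).f‖ ^ P
        ≤ ∑ j : Fin (d k).r × Fin (d k).N, (‖Y.e‖ + 1) ^ P *
          ‖acl Y (s k).m (d k).r (d k).N j x‖ ^ P := by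
          apply Finset.sum_le_sum
          intro j _
          rw [norm_smul, Real.mul_rpow (norm_nonneg _) (norm_nonneg _), mul_comm]
          apply mul_le_mul_of_nonneg_right _ (by positivity)
          exact Real.rpow_le_rpow (norm_nonneg _) (f_bdd s d h0 k) hP0.le
      _ ≤ _ := by
          rw [← Finset.mul_sum]
          apply mul_le_mul_of_nonneg_left _ (by positivity)
          exact acl_bound Y (by linarith) _ _ _ (d k).hN x
  refine (Finset.sum_le_sum h2).trans ?_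
  rw [← Finset.mul_sum, ← Finset.mul_sum, mul_assoc]
  apply mul_le_mul_of_nonneg_left _ (by positivity)
  apply mul_le_mul_of_nonneg_left _ (by positivity)
  have hinj : Function.Injective
      (fun q : Σ k : ℕ, Fin (d k).r × Fin (d k).N => lam (s q.1).m q.2) := by
    intro q q' hqq
    by_contra hne
    have h3 := lam_sep_all' s d q q' hne
    simp only at hqq
    rw [hqq, sub_self, abs_zero] at h3
    have h4 : (0 : ℤ) < 2 ^ (s q.1).m := by positivity
    have h5 : (0 : ℤ) < 2 ^ (s q'.1).m := by positivity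
    linarith
  have h6 := Y.α_sum ((F.sigma (fun k => (Finset.univ :
      Finset (Fin (d k).r × Fin (d k).N)))).image fun q => lam (s q.1).m q.2) x
  rw [Finset.sum_image (fun q _ q' _ h => hinj h), Finset.sum_sigma] at h6
  exact h6

theorem lim_Q (hP : 2 < P) (h0 : s 0 = st0 Y) (x : X) :
    Tendsto (fun n => ∑ k ∈ Finset.range n, ((d k).R + (s k).S) x) atTop (𝓝 x) := by
  rw [← tendsto_add_atTop_iff_nat 1]
  have h1 : ∀ n, ∑ k ∈ Finset.range (n + 1), ((d k).R + (s k).S) x =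
      Y.pr (s n).m x + (d n).R x := by
    intro n
    rw [sum_Q s d h0, A_succ' s d]
  simp only [h1]
  have h2 : Tendsto (fun n => Y.pr (s n).m x) atTop (𝓝 x) :=
    (Y.pr_lim x).comp (m_mono s d).tendsto_atTop
  have h3 : Tendsto (fun n => (d n).R x) atTop (𝓝 0) := by
    set C := ((‖Y.e‖ + 1) ^ P * 2 ^ (P + 1)) ^ (1 / P) with hC
    have h4 : ∀ n, ‖(d n).R x‖ ≤ C * ‖x - Y.pr (s n).m x‖ := by
      intro n
      have h5 : (d n).R x = (d n).R (x - Y.pr (s n).m x) := by
        rw [map_sub, (d n).hR4, sub_zero]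
      have h6 := R_bdd s d hP h0 {n} (x - Y.pr (s n).m x)
      rw [Finset.sum_singleton] at h6
      rw [h5]
      exact h6
    apply squeeze_zero_norm h4
    have h5 : Tendsto (fun n => x - Y.pr (s n).m x) atTop (𝓝 0) := by
      have := (tendsto_const_nhds (x := x)).sub h2
      simpa using this
    have h6 := (h5.norm).const_mul C
    simpa using h6
  simpa using h2.add h3

theorem pr_sum_bdd : ∃ C : ℝ, 0 ≤ C ∧ ∀ (F : Finset ℕ) (x : X),
    ‖∑ k ∈ F, (Y.pr (s (k + 1)).m x - Y.pr (s k).m x)‖ ≤ C * ‖x‖ := by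
  classical
  obtain ⟨C, hC0, hC⟩ := Y.unc
  refine ⟨C, hC0, fun F x => ?_⟩
  have h1 : ∀ k, Y.pr (s (k + 1)).m x - Y.pr (s k).m x =
      ∑ j ∈ Finset.Ico (s k).m (s (k + 1)).m, (Y.pr (j + 1) x - Y.pr j x) := by
    intro k
    rw [Finset.sum_Ico_sub (fun j => Y.pr j x) (m_lt s d k).le]
  rw [Finset.sum_congr rfl fun k _ => h1 k, ← Finset.sum_biUnion]
  · exact hC _ x
  · intro k _ k' _ hkk
    simp only [Function.onFun]
    rw [Finset.disjoint_left]
    intro j hj hj'
    rw [Finset.mem_Ico] at hj hj'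
    rcases lt_or_gt_of_ne hkk with h | h
    · have := m_le s d (by omega : k + 1 ≤ k')
      omega
    · have := m_le s d (by omega : k' + 1 ≤ k)
      omega

theorem Q_bdd (hP : 2 < P) (h0 : s 0 = st0 Y) : ∃ C : ℝ, ∀ (F : Finset ℕ) (x : X),
    ‖∑ k ∈ F, ((d k).R + (s k).S) x‖ ≤ C * ‖x‖ := by
  classical
  obtain ⟨C, hC0, hC⟩ := pr_sum_bdd s d
  set C₁ := ((‖Y.e‖ + 1) ^ P * 2 ^ (P + 1)) ^ (1 / P) with hC₁
  refine ⟨C₁ + (‖(s 0).S‖ + (C + C₁)), fun F x => ?_⟩
  have h1 : ∑ k ∈ F, ((d k).R + (s k).S) x = ∑ k ∈ F, (d k).R x + ∑ k ∈ F, (s k).S x := by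
    rw [← Finset.sum_add_distrib]
    rfl
  have h2 : ∑ k ∈ F, (s k).S x = ∑ k ∈ F.filter (fun k => k = 0), (s k).S x +
      ∑ k ∈ F.filter (fun k => ¬ k = 0), (s k).S x :=
    (Finset.sum_filter_add_sum_filter_not _ _ _).symm
  have h3 : ‖∑ k ∈ F.filter (fun k => k = 0), (s k).S x‖ ≤ ‖(s 0).S‖ * ‖x‖ := by
    have h4 : F.filter (fun k => k = 0) ⊆ {0} := by
      intro k hk
      rw [Finset.mem_singleton]
      exact (Finset.mem_filter.mp hk).2
    rcases Finset.subset_singleton_iff.mp h4 with h5 | h5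
    · rw [h5, Finset.sum_empty, norm_zero]
      positivity
    · rw [h5, Finset.sum_singleton]
      exact (s 0).S.le_opNorm x
  have h4 : ‖∑ k ∈ F.filter (fun k => ¬ k = 0), (s k).S x‖ ≤ (C + C₁) * ‖x‖ := by
    set G := (F.filter (fun k => ¬ k = 0)).image (fun k => k - 1) with hG
    have h5 : ∑ k ∈ F.filter (fun k => ¬ k = 0), (s k).S x = ∑ k ∈ G, (s (k + 1)).S x := by
      rw [hG, Finset.sum_image]
      · apply Finset.sum_congr rfl
        intro k hk
        have := (Finset.mem_filter.mp hk).2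
        rw [Nat.sub_add_cancel (by omega)]
      · intro k hk k' hk' hkk
        have h6 := (Finset.mem_filter.mp hk).2
        have h7 := (Finset.mem_filter.mp hk').2
        simp only at hkk
        omega
    rw [h5]
    have h6 : ∑ k ∈ G, (s (k + 1)).S x =
        ∑ k ∈ G, (Y.pr (s (k + 1)).m x - Y.pr (s k).m x) - ∑ k ∈ G, (d k).R x := by
      rw [← Finset.sum_sub_distrib]
      exact Finset.sum_congr rfl fun k _ => S_succ s d k x
    rw [h6]
    have h7 := hC G x
    have h8 := R_bdd s d hP h0 G x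
    refine (norm_sub_le _ _).trans ?_
    linarith
  have h5 := R_bdd s d hP h0 F x
  rw [h1, h2]
  have h6 := norm_add_le (∑ k ∈ F, (d k).R x) (∑ k ∈ F.filter (fun k => k = 0), (s k).S x +
      ∑ k ∈ F.filter (fun k => ¬ k = 0), (s k).S x)
  have h7 := norm_add_le (∑ k ∈ F.filter (fun k => k = 0), (s k).S x)
    (∑ k ∈ F.filter (fun k => ¬ k = 0), (s k).S x)
  linarith

end

section

variable {𝕜 : Type*} [RCLike 𝕜] {X : Type*} [NormedAddCommGroup X] [NormedSpace 𝕜 X]
  [CompleteSpace X] {P : ℝ}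

theorem abs_main (Y : Sys 𝕜 X P) (hP : 2 < P) :
    ∃ (f : X) (m M : ℕ → ℕ), (∀ k, 0 < M k) ∧ (∀ k, m (k + 1) = m k + 1 + M k) ∧
      IsUncondFDD 𝕜 (fun k => Submodule.span 𝕜
        (Set.range fun i : Fin (M k) => Y.T (2 ^ (m k + 1) * 2 ^ (i : ℕ)) f)) := by
  obtain ⟨s, d, h0⟩ := exists_seq Y hP
  obtain ⟨f, hf⟩ := cauchySeq_tendsto_of_complete (cauchy_f s d)
  have hftol : ∀ k, ‖f - (s k).f‖ ≤ (s k).tol := by
    intro k
    have h1 : Tendsto (fun j => ‖(s (k + j)).f - (s k).f‖) atTop (𝓝 ‖f - (s k).f‖) := by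
      have h2 : Tendsto (fun j => (s (k + j)).f) atTop (𝓝 f) := by
        have := (tendsto_add_atTop_iff_nat k).mpr hf
        refine this.congr fun j => ?_
        rw [add_comm]
      exact (h2.sub tendsto_const_nhds).norm
    refine le_of_tendsto' h1 fun j => ?_
    have h3 := tol_mono s d k j
    have h4 := (s (k + j)).htol
    linarith
  set Q : ℕ → X →L[𝕜] X := fun k => (d k).R + (s k).S with hQ
  set B : ℕ → X →L[𝕜] X := fun k => ∑ j, ((d k).z j).smulRight (Y.T (lam (s k).m j) f) with hB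
  have hBx : ∀ k x, B k x = ∑ j, (d k).z j x • Y.T (lam (s k).m j) f := by
    intro k x
    simp [hB]
  have hBQ : ∀ k, ‖B k - Q k‖ ≤ (1 / 2) ^ (k + 2) := by
    intro k
    apply ContinuousLinearMap.opNorm_le_bound _ (by positivity)
    intro x
    have h1 : (B k - Q k) x = (∑ j, (d k).z j x • Y.T (lam (s k).m j) (s (k + 1)).f -
        ((d k).R x + (s k).S x)) + ∑ j, (d k).z j x • Y.T (lam (s k).m j) (f - (s (k + 1)).f) := by
      rw [sub_apply, hBx]
      simp only [map_sub, smul_sub, Finset.sum_sub_distrib, hQ, add_apply]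
      abel
    rw [h1]
    have h2 := (d k).happ x
    have h3 : ‖∑ j, (d k).z j x • Y.T (lam (s k).m j) (f - (s (k + 1)).f)‖ ≤
        (1 / 2) ^ (k + 3) * ‖x‖ := by
      calc ‖∑ j, (d k).z j x • Y.T (lam (s k).m j) (f - (s (k + 1)).f)‖
          ≤ ∑ j, ‖(d k).z j‖ * ‖x‖ * (s (k + 1)).tol := by
            apply norm_sum_le_of_le
            intro j _
            rw [norm_smul, Y.T_norm]
            exact mul_le_mul ((d k).z j |>.le_opNorm x) (hftol (k + 1)) (norm_nonneg _)
              (by positivity)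
        _ = ((s (k + 1)).tol * ∑ j, ‖(d k).z j‖) * ‖x‖ := by
            rw [← Finset.sum_mul, ← Finset.sum_mul]
            ring
        _ ≤ (1 / 2) ^ (k + 3) * ‖x‖ := mul_le_mul_of_nonneg_right (d k).htol2 (norm_nonneg _)
    refine (norm_add_le _ _).trans ?_
    have h4 : ((1 : ℝ) / 2) ^ (k + 2) = 2 * (1 / 2) ^ (k + 3) := by ring
    rw [h4]
    linarith
  have hgeo : Summable fun k : ℕ => ((1 : ℝ) / 2) ^ (k + 2) := by
    have := (summable_geometric_of_lt_one (by norm_num) (by norm_num : (1 : ℝ) / 2 < 1))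
    exact (this.mul_right ((1 / 2) ^ 2)).congr fun k => by ring
  have hgeo1 : ∑' k : ℕ, ((1 : ℝ) / 2) ^ (k + 2) < 1 := by
    have h1 : ∀ k : ℕ, ((1 : ℝ) / 2) ^ (k + 2) = (1 / 2) ^ k * (1 / 4) := by
      intro k; ring
    simp only [h1]
    rw [tsum_mul_right, tsum_geometric_two]
    norm_num
  have hsum : Summable fun k => ‖B k - Q k‖ :=
    Summable.of_nonneg_of_le (fun k => norm_nonneg _) hBQ hgeo
  have hsum1 : ∑' k, ‖B k - Q k‖ < 1 :=
    lt_of_le_of_lt (hsum.tsum_le_tsum hBQ hgeo) hgeo1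
  have hfin : ∀ k, FiniteDimensional 𝕜 (LinearMap.range (B k).toLinearMap) := by
    intro k
    haveI : FiniteDimensional 𝕜 (Submodule.span 𝕜
      (Set.range fun j => Y.T (lam (s k).m (r := (d k).r) (N := (d k).N) j) f)) :=
      FiniteDimensional.span_of_finite 𝕜 (Set.finite_range _)
    apply Submodule.finiteDimensional_of_le (S₂ := Submodule.span 𝕜
      (Set.range fun j => Y.T (lam (s k).m (r := (d k).r) (N := (d k).N) j) f))
    rintro _ ⟨x, rfl⟩
    change B k x ∈ _
    rw [hBx]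
    apply Submodule.sum_mem
    intro j _
    exact Submodule.smul_mem _ _ (Submodule.subset_span ⟨j, rfl⟩)
  obtain ⟨C, hC⟩ := Q_bdd s d hP h0
  have hmain := pert Q B (QQ s d) (QQ' s d)
    (hasSum_of_bdd Q C hC (QQ s d) (QQ' s d) (lim_Q s d hP h0))
    (by
      intro k x
      rw [hBx, hBx]
      exact Finset.sum_congr rfl fun j _ => by
        rw [show (d k).z j ((Q k) x) = (d k).z j x from (d k).hz j x]) hfin hsum hsum1
  refine ⟨f, fun k => (s k).m, fun k => (d k).r * (d k).N, fun k => Nat.mul_pos (d k).hr (d k).hN,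
    fun k => (d k).hm, ?_⟩
  have heq : (fun k => LinearMap.range (B k).toLinearMap) = fun k => Submodule.span 𝕜
        (Set.range fun i : Fin ((d k).r * (d k).N) => Y.T (2 ^ ((s k).m + 1) * 2 ^ (i : ℕ)) f) := by
    funext k
    have h1 : (Set.range fun i : Fin ((d k).r * (d k).N) => Y.T (2 ^ ((s k).m + 1) * 2 ^ (i : ℕ)) f) =
        Set.range fun j : Fin (d k).r × Fin (d k).N => Y.T (lam (s k).m j) f := by
      ext y
      constructor
      · rintro ⟨i, rfl⟩
        refine ⟨finProdFinEquiv.symm i, ?_⟩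
        simp only [lam]
        rw [Equiv.apply_symm_apply]
      · rintro ⟨j, rfl⟩
        exact ⟨finProdFinEquiv j, rfl⟩
    rw [h1]
    apply le_antisymm
    · rintro _ ⟨x, rfl⟩
      change B k x ∈ _
      rw [hBx]
      apply Submodule.sum_mem
      intro j _
      exact Submodule.smul_mem _ _ (Submodule.subset_span ⟨j, rfl⟩)
    · rw [Submodule.span_le]
      rintro _ ⟨j, rfl⟩
      classical
      obtain ⟨x, hx⟩ := (d k).hsurj (fun i => if i = j then 1 else 0)
      refine ⟨x, ?_⟩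
      change B k x = _
      rw [hBx, Finset.sum_eq_single j]
      · rw [hx, if_pos rfl, one_smul]
      · intro i _ hi
        rw [hx, if_neg hi, zero_smul]
      · intro h
        exact absurd (Finset.mem_univ _) h
  rw [← heq]
  exact hmain

end

end Pool.Agent.H296R4
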