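import Mathlib

/-!
# Finite-dimensional decompositions and small perturbations
-/

open Filter Topology

namespace Pool.Agent.H296R4

section

variable (𝕜 : Type*) [RCLike 𝕜] {X : Type*} [NormedAddCommGroup X] [NormedSpace 𝕜 X]

/-- The sequence of subspaces `E` is a finite-dimensional decomposition of `X`: every `E k` is
finite-dimensional and every `x` has exactly one expansion `x = ∑ y k` with `y k ∈ E k`
(the partial sums converging in norm). -/
def IsFDD (E : ℕ → Submodule 𝕜 X) : Prop :=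
  (∀ k, FiniteDimensional 𝕜 (E k)) ∧
    ∀ x : X, ∃! y : ℕ → X, (∀ k, y k ∈ E k) ∧
      Tendsto (fun n => ∑ k ∈ Finset.range n, y k) atTop (𝓝 x)

/-- An unconditional finite-dimensional decomposition: moreover all these expansions converge
unconditionally. -/
def IsUncondFDD (E : ℕ → Submodule 𝕜 X) : Prop :=
  IsFDD 𝕜 E ∧ ∀ (x : X) (y : ℕ → X), (∀ k, y k ∈ E k) →
    Tendsto (fun n => ∑ k ∈ Finset.range n, y k) atTop (𝓝 x) → HasSum y x

end

section

variable {𝕜 : Type*} [RCLike 𝕜] {X : Type*} [NormedAddCommGroup X] [NormedSpace 𝕜 X]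
  [CompleteSpace X]

/-- Small perturbations of a decomposition given by a sequence of projections. -/
theorem pert (Q B : ℕ → X →L[𝕜] X) (hQ : ∀ k x, Q k (Q k x) = Q k x)
    (hQ' : ∀ j k x, j ≠ k → Q j (Q k x) = 0)
    (hlim : ∀ x, HasSum (fun k => Q k x) x)
    (hB : ∀ k x, B k (Q k x) = B k x)
    (hfin : ∀ k, FiniteDimensional 𝕜 (LinearMap.range (B k).toLinearMap))
    (hs : Summable fun k => ‖B k - Q k‖) (hs1 : ∑' k, ‖B k - Q k‖ < 1) :
    IsUncondFDD 𝕜 (fun k => LinearMap.range (B k).toLinearMap) := by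
  set D : X →L[𝕜] X := ∑' k, (B k - Q k) with hD
  have hDs : Summable fun k => (B k - Q k) := hs.of_norm
  have hDn : ‖D‖ < 1 := lt_of_le_of_lt (norm_tsum_le_tsum_norm hs) hs1
  have hDn' : ‖-D‖ < 1 := by rwa [norm_neg]
  let u : (X →L[𝕜] X)ˣ := Units.oneSub (-D) hDn'
  have hu : (u : X →L[𝕜] X) = 1 + D := by
    simp [u]
  -- the isomorphism
  have hDx : ∀ x, D x = ∑' k, (B k x - Q k x) := by
    intro x
    have h := (ContinuousLinearMap.apply 𝕜 X x).hasSum hDs.hasSum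
    exact h.tsum_eq.symm
  have hBQ : ∀ j k x, j ≠ k → B j (Q k x) = 0 := by
    intro j k x hjk
    rw [← hB j, hQ' j k x hjk, map_zero]
  have hTQ : ∀ k x, (u : X →L[𝕜] X) (Q k x) = B k x := by
    intro k x
    rw [hu, add_apply, hDx, tsum_eq_single k]
    · rw [hB, hQ]
      simp
    · intro j hj
      rw [hBQ j k x hj, hQ' j k x hj, sub_zero]
  have hinv1 : ∀ x, (u : X →L[𝕜] X) ((↑u⁻¹ : X →L[𝕜] X) x) = x := by
    intro x
    change ((u : X →L[𝕜] X) * (↑u⁻¹ : X →L[𝕜] X)) x = x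
    rw [u.mul_inv]
    rfl
  have hinv2 : ∀ x, (↑u⁻¹ : X →L[𝕜] X) ((u : X →L[𝕜] X) x) = x := by
    intro x
    change ((↑u⁻¹ : X →L[𝕜] X) * (u : X →L[𝕜] X)) x = x
    rw [u.inv_mul]
    rfl
  -- existence
  have hex : ∀ x, HasSum (fun k => B k ((↑u⁻¹ : X →L[𝕜] X) x)) x := by
    intro x
    have h := (u : X →L[𝕜] X).hasSum (hlim ((↑u⁻¹ : X →L[𝕜] X) x))
    rw [hinv1] at h
    have h2 : (fun k => B k ((↑u⁻¹ : X →L[𝕜] X) x)) =
        fun k => (u : X →L[𝕜] X) (Q k ((↑u⁻¹ : X →L[𝕜] X) x)) := by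
      funext k
      rw [hTQ]
    rw [h2]
    exact h
  -- uniqueness
  have huniq : ∀ (x : X) (y : ℕ → X), (∀ k, y k ∈ LinearMap.range (B k).toLinearMap) →
      Tendsto (fun n => ∑ k ∈ Finset.range n, y k) atTop (𝓝 x) →
      y = fun k => B k ((↑u⁻¹ : X →L[𝕜] X) x) := by
    intro x y hy hlimy
    funext j
    choose w hw using hy
    have hw' : ∀ k, y k = (u : X →L[𝕜] X) (Q k (w k)) := by
      intro k
      rw [hTQ, ← hw k]
      rfl
    have h1 : Tendsto (fun n => Q j ((↑u⁻¹ : X →L[𝕜] X) (∑ k ∈ Finset.range n, y k))) atTop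
        (𝓝 (Q j ((↑u⁻¹ : X →L[𝕜] X) x))) :=
      ((Q j).continuous.tendsto _).comp (((↑u⁻¹ : X →L[𝕜] X).continuous.tendsto _).comp hlimy)
    have h2 : Tendsto (fun n => Q j ((↑u⁻¹ : X →L[𝕜] X) (∑ k ∈ Finset.range n, y k))) atTop
        (𝓝 (Q j (w j))) := by
      refine tendsto_const_nhds.congr' ?_
      filter_upwards [eventually_gt_atTop j] with n hn
      rw [map_sum, map_sum, Finset.sum_eq_single j]
      · rw [hw', hinv2, hQ]
      · intro k _ hk
        rw [hw', hinv2, hQ' j k _ hk.symm]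
      · intro hj
        exact absurd (Finset.mem_range.mpr hn) hj
    have h3 := tendsto_nhds_unique h1 h2
    rw [hw' j, ← h3, hTQ]
  refine ⟨⟨hfin, fun x => ⟨fun k => B k ((↑u⁻¹ : X →L[𝕜] X) x), ⟨fun k => ⟨_, rfl⟩,
    (hex x).tendsto_sum_nat⟩, ?_⟩⟩, ?_⟩
  · rintro y ⟨hy1, hy2⟩
    exact huniq x y hy1 hy2
  · intro x y hy1 hy2
    rw [huniq x y hy1 hy2]
    exact hex x

end

end Pool.Agent.H296R4
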