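import Pool.Agent.H296R4.Abs

/-!
# One step of the construction
-/

open Filter Topology

namespace Pool.Agent.H296R4

section

variable {𝕜 : Type*} [RCLike 𝕜] {X : Type*} [NormedAddCommGroup X] [NormedSpace 𝕜 X] {P : ℝ}
  (Y : Sys 𝕜 X P)

include Y

theorem alpha_u {m r N : ℕ} {f₀ : X} (hf : Y.pr m f₀ = f₀) (hα : Y.α f₀ = 1)
    (i j : Fin r × Fin N) :
    Y.α (Y.T (-lam m i) (Y.T (lam m j) f₀)) = if i = j then 1 else 0 := by
  rw [← Y.T_add]
  by_cases hij : i = j
  · subst hij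
    rw [if_pos rfl, neg_add_cancel, Y.T_zero, hα]
  · rw [if_neg hij, ← hf]
    have h1 := lam_sep m hij
    have h2 : (0 : ℤ) < 2 ^ m := by positivity
    have h3 : (2 : ℤ) ^ (m + 1) = 2 * 2 ^ m := by ring
    have h4 : -lam m i + lam m j = -(lam m i - lam m j) := by ring
    rw [h4]
    apply Y.α_out
    · rw [h3] at h1; linarith
    · intro h5
      rw [h5, abs_neg, abs_of_pos h2, h3] at h1
      linarith

theorem alpha_V {m r N : ℕ} {y : X} (hy : Y.pr m y = y) (i : Fin r × Fin N) :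
    Y.α (Y.T (-lam m i) y) = 0 := by
  rw [← hy]
  have h1 := lam_ge m i
  have h2 : (0 : ℤ) < 2 ^ m := by positivity
  have h3 : (2 : ℤ) ^ (m + 1) = 2 * 2 ^ m := by ring
  have h4 : (0 : ℤ) < lam m i := by rw [h3] at h1; linarith
  apply Y.α_out
  · rw [abs_of_pos h4]; rw [h3] at h1; linarith
  · intro h5
    rw [h5] at h4
    linarith

theorem alpha_V' {m r N : ℕ} {y : X} (hy : Y.pr m y = y) (i : Fin r × Fin N) :
    Y.α (Y.T (lam m i) y) = 0 := by
  rw [← hy]
  have h1 := lam_ge m i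
  have h2 : (0 : ℤ) < 2 ^ m := by positivity
  have h3 : (2 : ℤ) ^ (m + 1) = 2 * 2 ^ m := by ring
  have h4 : (0 : ℤ) < lam m i := by rw [h3] at h1; linarith
  have h6 : lam m i = -(-lam m i) := by ring
  rw [h6]
  apply Y.α_out
  · rw [abs_neg, abs_of_pos h4]; rw [h3] at h1; linarith
  · intro h5
    rw [h3] at h1
    linarith

theorem pr_T_zero {m r N : ℕ} {y : X} (hy : Y.pr m y = y) (i : Fin r × Fin N) :
    Y.pr m (Y.T (lam m i) y) = 0 := by
  apply Y.shift_out m _ _ hy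
  exact (lam_ge m i).trans (le_abs_self _)

theorem pr_T_pos {m r N : ℕ} {y : X} (hy : Y.pr m y = y) (i : Fin r × Fin N) :
    Y.pr (m + 1 + r * N) (Y.T (lam m i) y) = Y.T (lam m i) y := by
  apply Y.shift_in m _ _ _ hy
  have h1 := lam_ge m i
  have h2 : (0 : ℤ) < 2 ^ (m + 1) := by positivity
  rw [abs_of_pos (by linarith)]
  exact lam_le m i

theorem pr_T_neg {m r N : ℕ} {y : X} (hy : Y.pr m y = y) (i : Fin r × Fin N) :
    Y.pr (m + 1 + r * N) (Y.T (-lam m i) y) = Y.T (-lam m i) y := by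
  apply Y.shift_in m _ _ _ hy
  have h1 := lam_ge m i
  have h2 : (0 : ℤ) < 2 ^ (m + 1) := by positivity
  rw [abs_neg, abs_of_pos (by linarith)]
  exact lam_le m i

theorem alpha_in {m r N : ℕ} (x : X) (i : Fin r × Fin N) :
    Y.α (Y.T (-lam m i) (Y.pr (m + 1 + r * N) x)) = Y.α (Y.T (-lam m i) x) := by
  have h1 := lam_ge m i
  have h2 : (0 : ℤ) < 2 ^ (m + 1) := by positivity
  have h3 := lam_le m i
  have h4 : (0 : ℤ) < 2 ^ m := by positivity
  have h5 : (0 : ℤ) < 2 ^ (m + 1 + r * N) := by positivity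
  apply Y.α_in
  · linarith
  · linarith

theorem alpha_sum_le {m r N : ℕ} (x : X) :
    ∑ j : Fin r × Fin N, ‖Y.α (Y.T (-lam m j) x)‖ ^ P ≤ ‖x‖ ^ P := by
  classical
  have hinj : Function.Injective (fun j : Fin r × Fin N => lam m j) := by
    intro i j hij
    by_contra hne
    have h1 := lam_sep m hne
    have h2 : (0 : ℤ) < 2 ^ (m + 1) := by positivity
    simp only at hij
    rw [hij, sub_self, abs_zero] at h1
    linarith
  have h := Y.α_sum (Finset.univ.image fun j : Fin r × Fin N => lam m j) x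
  rw [Finset.sum_image (fun i _ j _ hij => hinj hij)] at h
  exact h

end

theorem exists_N {P : ℝ} (hP : 2 < P) (K : ℝ) {δ : ℝ} (hδ : 0 < δ) :
    ∃ N : ℕ, 0 < N ∧ (N : ℝ) ^ (1 - P / 2) * K ≤ δ := by
  have h1 : Tendsto (fun N : ℕ => (N : ℝ) ^ (1 - P / 2)) atTop (𝓝 0) := by
    have h2 : 0 < P / 2 - 1 := by linarith
    have h3 := (tendsto_rpow_neg_atTop h2).comp tendsto_natCast_atTop_atTop
    refine h3.congr ?_
    intro N
    simp only [Function.comp_apply]
    congr 1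
    ring
  have h2 : Tendsto (fun N : ℕ => (N : ℝ) ^ (1 - P / 2) * K) atTop (𝓝 0) := by
    simpa using h1.mul_const K
  have h3 := (h2.eventually (gt_mem_nhds hδ)).and (eventually_gt_atTop 0)
  obtain ⟨N, hN1, hN2⟩ := h3.exists
  exact ⟨N, hN2, hN1.le⟩

section

variable {𝕜 : Type*} [RCLike 𝕜] {X : Type*} [NormedAddCommGroup X] [NormedSpace 𝕜 X] {P : ℝ}
  (Y : Sys 𝕜 X P)

theorem step_core (hP : 2 < P) (m : ℕ) (f₀ : X) (hf : Y.pr m f₀ = f₀) (hα : Y.α f₀ = 1)
    (S : X →L[𝕜] X) [FiniteDimensional 𝕜 (LinearMap.range S.toLinearMap)]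
    (hS1 : ∀ x, Y.pr m (S x) = S x) (hS2 : ∀ x, S (Y.pr m x) = S x) (hS3 : ∀ x, S (S x) = S x)
    (hS0 : S ≠ 0) (ε : ℝ) (hε : 0 < ε) :
    ∃ (r N : ℕ) (f₁ : X) (z : Fin r × Fin N → X →L[𝕜] 𝕜) (R : X →L[𝕜] X),
      0 < r ∧ 0 < N ∧
      Y.pr (m + 1 + r * N) f₁ = f₁ ∧ Y.α f₁ = 1 ∧ ‖f₁ - f₀‖ ≤ ε ∧
      (∀ x, R x = ∑ j, acl Y m r N j x • Y.T (lam m j) f₀) ∧
      (∀ x, R (R x) = R x) ∧
      (∀ x, Y.pr (m + 1 + r * N) (R x) = R x) ∧ (∀ x, R (Y.pr (m + 1 + r * N) x) = R x) ∧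
      (∀ x, Y.pr m (R x) = 0) ∧ (∀ x, R (Y.pr m x) = 0) ∧
      (∀ x, ‖∑ j, z j x • Y.T (lam m j) f₁ - (R x + S x)‖ ≤ ε * ‖x‖) ∧
      (∀ j x, z j (R x + S x) = z j x) ∧
      (∀ w : Fin r × Fin N → 𝕜, ∃ x, ∀ j, z j x = w j) ∧
      (Y.pr (m + 1 + r * N) - Y.pr m - R ≠ 0) := by
  classical
  have hP0 : 0 < P := by linarith
  have hP1 : 1 ≤ P := by linarith
  obtain ⟨r, g, bb, hr, hsum, hdual, hSg, hbS, hb0⟩ := exists_coords S hS3 hS0
  set Γ : ℝ := ∑ s, ‖g s‖ ^ P with hΓ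
  set Bc : ℝ := ∑ s, ‖bb s‖ ^ P with hBc
  have hΓ0 : 0 ≤ Γ := Finset.sum_nonneg fun s _ => by positivity
  have hBc0 : 0 ≤ Bc := Finset.sum_nonneg fun s _ => by positivity
  set K₁ : ℝ := Bc * ‖f₀‖ ^ P with hK₁
  set K₂ : ℝ := Γ * (2 ^ P * (2 ^ (P + 1) + Bc)) with hK₂
  have hK₁0 : 0 ≤ K₁ := by positivity
  have hK₂0 : 0 ≤ K₂ := by positivity
  obtain ⟨N, hN, hNK⟩ := exists_N hP (Γ + K₁ + K₂) (δ := (ε / 2) ^ P) (by positivity)
  have hNr : (0 : ℝ) < N := by exact_mod_cast hN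
  have hN1 : (1 : ℝ) ≤ N := by exact_mod_cast hN
  set κ : ℝ := (N : ℝ) ^ (-(1 / 2) : ℝ) with hκ
  have hκ0 : 0 < κ := Real.rpow_pos_of_pos hNr _
  have hκ1 : κ * κ * N = 1 := by
    rw [hκ, ← Real.rpow_add hNr]
    norm_num
    rw [Real.rpow_neg_one]
    exact inv_mul_cancel₀ hNr.ne'
  have hκP : κ ^ P * N = (N : ℝ) ^ (1 - P / 2) := by
    rw [hκ, ← Real.rpow_mul hNr.le]
    have : (N : ℝ) ^ (1 - P / 2) = (N : ℝ) ^ (-(1 / 2) * P + 1) := by
      congr 1
      ring
    rw [this, Real.rpow_add hNr, Real.rpow_one]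
  have hκP1 : κ ^ P * N ≤ 1 := by
    rw [hκP]
    exact Real.rpow_le_one_of_one_le_of_nonpos hN1 (by linarith)
  have hκP0 : 0 ≤ κ ^ P * N := by positivity
  have hb1 : κ ^ P * N * Γ ≤ (ε / 2) ^ P := by
    rw [hκP]
    refine le_trans ?_ hNK
    apply mul_le_mul_of_nonneg_left _ (by positivity)
    linarith
  have hb2 : κ ^ P * N * K₁ ≤ (ε / 2) ^ P := by
    rw [hκP]
    refine le_trans ?_ hNK
    apply mul_le_mul_of_nonneg_left _ (by positivity)
    linarith
  have hb3 : κ ^ P * N * K₂ ≤ (ε / 2) ^ P := by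
    rw [hκP]
    refine le_trans ?_ hNK
    apply mul_le_mul_of_nonneg_left _ (by positivity)
    linarith
  have hκκ : (κ : 𝕜) * κ * N = 1 := by exact_mod_cast hκ1
  have hκn : ‖(κ : 𝕜)‖ = κ := by
    rw [RCLike.norm_ofReal, abs_of_pos hκ0]
  -- basic facts
  have hgpr : ∀ s, Y.pr m (g s) = g s := by
    intro s
    rw [← hSg s, hS1]
  set R : X →L[𝕜] X := ∑ j : Fin r × Fin N, (acl Y m r N j).smulRight (Y.T (lam m j) f₀) with hR
  have hRx : ∀ x, R x = ∑ j, acl Y m r N j x • Y.T (lam m j) f₀ := by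
    intro x
    simp [hR]
  set z : Fin r × Fin N → X →L[𝕜] 𝕜 := fun j => acl Y m r N j + (κ : 𝕜) • bb j.1 with hz
  have hzx : ∀ j x, z j x = acl Y m r N j x + κ * bb j.1 x := by
    intro j x
    simp [hz]
  -- combination of translates of f₀
  have hcomb : ∀ (w : Fin r × Fin N → 𝕜) (i : Fin r × Fin N),
      Y.α (Y.T (-lam m i) (∑ j, w j • Y.T (lam m j) f₀)) = w i := by
    intro w i
    rw [map_sum, map_sum, Finset.sum_eq_single i]
    · rw [map_smul, map_smul, alpha_u Y hf hα, if_pos rfl, smul_eq_mul, mul_one]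
    · intro j _ hj
      rw [map_smul, map_smul, alpha_u Y hf hα, if_neg hj.symm, smul_zero]
    · intro h
      exact absurd (Finset.mem_univ _) h
  have hcomb_pr0 : ∀ (w : Fin r × Fin N → 𝕜), Y.pr m (∑ j, w j • Y.T (lam m j) f₀) = 0 := by
    intro w
    rw [map_sum]
    apply Finset.sum_eq_zero
    intro j _
    rw [map_smul, pr_T_zero Y hf, smul_zero]
  have hcomb_prn : ∀ (w : Fin r × Fin N → 𝕜), Y.pr (m + 1 + r * N)
      (∑ j, w j • Y.T (lam m j) f₀) = ∑ j, w j • Y.T (lam m j) f₀ := by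
    intro w
    rw [map_sum]
    apply Finset.sum_congr rfl
    intro j _
    rw [map_smul, pr_T_pos Y hf]
  have hcomb_S : ∀ (w : Fin r × Fin N → 𝕜), S (∑ j, w j • Y.T (lam m j) f₀) = 0 := by
    intro w
    rw [← hS2, hcomb_pr0, map_zero]
  have hacl_comb : ∀ (w : Fin r × Fin N → 𝕜), (∀ s, ∑ i, w (s, i) = 0) → ∀ j,
      acl Y m r N j (∑ j, w j • Y.T (lam m j) f₀) = w j := by
    intro w hw j
    rw [acl_apply, hcomb]
    have : ∑ i : Fin N, Y.α (Y.T (-lam m (j.1, i)) (∑ j, w j • Y.T (lam m j) f₀)) = 0 := by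
      rw [Finset.sum_congr rfl fun i _ => hcomb w (j.1, i)]
      exact hw j.1
    rw [this, mul_zero, sub_zero]
  have hacl_V : ∀ y, Y.pr m y = y → ∀ j, acl Y m r N j y = 0 := by
    intro y hy j
    rw [acl_apply, alpha_V Y hy]
    rw [Finset.sum_eq_zero fun i _ => alpha_V Y hy (j.1, i), mul_zero, sub_zero]
  have haR : ∀ j x, acl Y m r N j (R x) = acl Y m r N j x := by
    intro j x
    rw [hRx]
    exact hacl_comb _ (fun s => acl_sum Y m r N hN s x) j
  have haS : ∀ j x, acl Y m r N j (S x) = 0 := fun j x => hacl_V _ (hS1 x) j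
  have hbR : ∀ s x, bb s (R x) = 0 := by
    intro s x
    apply hb0
    rw [hRx]
    exact hcomb_S _
  -- f₁
  set F : X := ∑ j : Fin r × Fin N, Y.T (-lam m j) (g j.1) with hF
  set f₁ : X := f₀ + (κ : 𝕜) • F with hf₁
  refine ⟨r, N, f₁, z, R, hr, hN, ?_, ?_, ?_, hRx, ?_, ?_, ?_, ?_, ?_, ?_, ?_, ?_, ?_⟩
  · -- pr f₁
    rw [hf₁, map_add, map_smul, hF, map_sum]
    rw [Finset.sum_congr rfl fun j _ => pr_T_neg Y (hgpr j.1) j]
    congr 1
    rw [← hf, Y.pr_comp' m _ (by omega)]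
  · -- α f₁
    rw [hf₁, map_add, map_smul, hF, map_sum, hα]
    rw [Finset.sum_eq_zero fun j _ => alpha_V Y (hgpr j.1) j, smul_zero, add_zero]
  · -- norm
    rw [hf₁, add_sub_cancel_left]
    have h1 : (κ : 𝕜) • F = ∑ j : Fin r × Fin N, Y.T (-lam m j) ((κ : 𝕜) • g j.1) := by
      rw [hF, Finset.smul_sum]
      exact Finset.sum_congr rfl fun j _ => (map_smul _ _ _).symm
    have h2 : ‖(κ : 𝕜) • F‖ ^ P ≤ (ε / 2) ^ P := by
      rw [h1, Y.sep' (Fin r × Fin N) m (fun j => -lam m j) (fun j => (κ : 𝕜) • g j.1)]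
      · refine le_trans (le_of_eq ?_) hb1
        rw [Fintype.sum_prod_type]
        simp only [norm_smul, hκn, Finset.sum_const, Finset.card_univ, Fintype.card_fin,
          nsmul_eq_mul]
        rw [hΓ, Finset.mul_sum]
        apply Finset.sum_congr rfl
        intro s _
        rw [Real.mul_rpow hκ0.le (norm_nonneg _)]
        ring
      · intro j
        rw [map_smul, hgpr]
      · intro i j hij
        have := lam_sep m hij
        have e : -lam m i - -lam m j = -(lam m i - lam m j) := by ring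
        rw [e, abs_neg]
        exact this
    have h3 : ‖(κ : 𝕜) • F‖ ≤ ε / 2 := (Real.rpow_le_rpow_iff (norm_nonneg _) (by positivity) hP0).mp h2
    linarith
  · -- R R
    intro x
    rw [hRx (R x), hRx x]
    apply Finset.sum_congr rfl
    intro j _
    rw [← hRx x, haR]
  · intro x
    rw [hRx]
    exact hcomb_prn _
  · intro x
    rw [hRx, hRx]
    apply Finset.sum_congr rfl
    intro j _
    rw [acl_congr Y m r N _ x (fun j => alpha_in Y x j)]
  · intro x
    rw [hRx]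
    exact hcomb_pr0 _
  · intro x
    rw [hRx]
    apply Finset.sum_eq_zero
    intro j _
    rw [hacl_V _ (Y.pr_comp' m m le_rfl x), zero_smul]
  · -- approximation
    intro x
    have hTf₁ : ∀ j : Fin r × Fin N, Y.T (lam m j) f₁ = Y.T (lam m j) f₀ +
        ∑ j' : Fin r × Fin N, (κ : 𝕜) • Y.T (lam m j - lam m j') (g j'.1) := by
      intro j
      rw [hf₁, map_add, map_smul, hF, map_sum, Finset.smul_sum]
      congr 1
      apply Finset.sum_congr rfl
      intro j' _
      rw [← Y.T_add, sub_eq_add_neg]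
    set W : (Fin r × Fin N) × (Fin r × Fin N) → X := fun q =>
      Y.T (lam m q.1 - lam m q.2) ((κ * z q.1 x) • g q.2.1) with hW
    have h1 : ∑ j, z j x • Y.T (lam m j) f₁ =
        ∑ j, z j x • Y.T (lam m j) f₀ + ∑ q, W q := by
      have hWs : ∑ q, W q = ∑ j, ∑ j', W (j, j') := Fintype.sum_prod_type _
      rw [hWs, ← Finset.sum_add_distrib]
      apply Finset.sum_congr rfl
      intro j _
      rw [hTf₁, smul_add, Finset.smul_sum]
      congr 1
      apply Finset.sum_congr rfl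
      intro j' _
      simp only [hW]
      rw [map_smul, smul_smul, mul_comm]
    have h2 : ∑ q, W q = ∑ q ∈ Finset.univ.filter (fun q => q.1 ≠ q.2), W q +
        ∑ q ∈ Finset.univ.filter (fun q => ¬ q.1 ≠ q.2), W q :=
      (Finset.sum_filter_add_sum_filter_not _ _ _).symm
    have h3 : ∑ q ∈ Finset.univ.filter (fun q : (Fin r × Fin N) × (Fin r × Fin N) => ¬ q.1 ≠ q.2),
        W q = S x := by
      have e1 : ∑ q ∈ Finset.univ.filter (fun q : (Fin r × Fin N) × (Fin r × Fin N) =>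
          ¬ q.1 ≠ q.2), W q = ∑ j : Fin r × Fin N, (κ * z j x) • g j.1 := by
        rw [Finset.sum_filter, Fintype.sum_prod_type]
        apply Finset.sum_congr rfl
        intro j _
        rw [Finset.sum_eq_single j]
        · simp only [ne_eq, not_true_eq_false, not_false_eq_true, if_true, hW, sub_self]
          rw [Y.T_zero]
        · intro j' _ hj'
          rw [if_neg (by simpa using hj'.symm)]
        · intro h
          exact absurd (Finset.mem_univ _) h
      rw [e1, Fintype.sum_prod_type, ← hsum x]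
      apply Finset.sum_congr rfl
      intro s _
      change ∑ y : Fin N, ((κ : 𝕜) * z (s, y) x) • g s = _
      rw [← Finset.sum_smul, ← Finset.mul_sum]
      congr 1
      simp only [hzx]
      rw [Finset.sum_add_distrib, acl_sum Y m r N hN]
      simp only [Finset.sum_const, Finset.card_univ, Fintype.card_fin, nsmul_eq_mul, zero_add]
      linear_combination (bb s x) * hκκ
    have h4 : ∑ j, z j x • Y.T (lam m j) f₀ = R x + ∑ j : Fin r × Fin N,
        Y.T (lam m j) ((κ * bb j.1 x) • f₀) := by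
      rw [hRx, ← Finset.sum_add_distrib]
      apply Finset.sum_congr rfl
      intro j _
      rw [hzx, add_smul, map_smul]
    have h5 : ∑ j, z j x • Y.T (lam m j) f₁ - (R x + S x) =
        ∑ j : Fin r × Fin N, Y.T (lam m j) ((κ * bb j.1 x) • f₀) +
        ∑ q ∈ Finset.univ.filter (fun q : (Fin r × Fin N) × (Fin r × Fin N) => q.1 ≠ q.2), W q := by
      rw [h1, h2, h3, h4]
      abel
    have hbx : ∑ s, ‖bb s x‖ ^ P ≤ Bc * ‖x‖ ^ P := by
      rw [hBc, Finset.sum_mul]
      apply Finset.sum_le_sum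
      intro s _
      rw [← Real.mul_rpow (norm_nonneg _) (norm_nonneg _)]
      exact Real.rpow_le_rpow (norm_nonneg _) ((bb s).le_opNorm x) hP0.le
    have hbsum : ∑ j : Fin r × Fin N, ‖(κ : 𝕜) * bb j.1 x‖ ^ P = κ ^ P * N * ∑ s, ‖bb s x‖ ^ P := by
      rw [Fintype.sum_prod_type, Finset.mul_sum]
      apply Finset.sum_congr rfl
      intro s _
      simp only [norm_mul, hκn, Finset.sum_const, Finset.card_univ, Fintype.card_fin,
        nsmul_eq_mul]
      rw [Real.mul_rpow hκ0.le (norm_nonneg _)]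
      ring
    have hU : ‖∑ j : Fin r × Fin N, Y.T (lam m j) ((κ * bb j.1 x) • f₀)‖ ≤ ε / 2 * ‖x‖ := by
      apply (Real.rpow_le_rpow_iff (norm_nonneg _) (by positivity) hP0).mp
      rw [Y.sep' (Fin r × Fin N) m (fun j => lam m j) (fun j => ((κ : 𝕜) * bb j.1 x) • f₀)]
      · have e1 : ∑ j : Fin r × Fin N, ‖((κ : 𝕜) * bb j.1 x) • f₀‖ ^ P =
            (κ ^ P * N * ∑ s, ‖bb s x‖ ^ P) * ‖f₀‖ ^ P := by
          rw [← hbsum, Finset.sum_mul]
          apply Finset.sum_congr rfl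
          intro j _
          rw [norm_smul, Real.mul_rpow (norm_nonneg _) (norm_nonneg _)]
        rw [e1, Real.mul_rpow (by positivity) (norm_nonneg _)]
        calc κ ^ P * N * (∑ s, ‖bb s x‖ ^ P) * ‖f₀‖ ^ P
            ≤ κ ^ P * N * (Bc * ‖x‖ ^ P) * ‖f₀‖ ^ P := by
              apply mul_le_mul_of_nonneg_right _ (by positivity)
              exact mul_le_mul_of_nonneg_left hbx hκP0
          _ = (κ ^ P * N * K₁) * ‖x‖ ^ P := by rw [hK₁]; ring
          _ ≤ (ε / 2) ^ P * ‖x‖ ^ P := mul_le_mul_of_nonneg_right hb2 (by positivity)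
      · intro j
        rw [map_smul, hf]
      · intro i j hij
        exact lam_sep m hij
    have hzsum : ∑ j, ‖z j x‖ ^ P ≤ 2 ^ P * (2 ^ (P + 1) + Bc) * ‖x‖ ^ P := by
      have e1 : ∀ j, ‖z j x‖ ^ P ≤ 2 ^ P * (‖acl Y m r N j x‖ ^ P + ‖(κ : 𝕜) * bb j.1 x‖ ^ P) := by
        intro j
        rw [hzx]
        exact (Real.rpow_le_rpow (norm_nonneg _) (norm_add_le _ _) hP0.le).trans
          (rpow_add_le hP0.le (norm_nonneg _) (norm_nonneg _))
      refine (Finset.sum_le_sum fun j _ => e1 j).trans ?_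
      rw [← Finset.mul_sum, Finset.sum_add_distrib, mul_assoc]
      apply mul_le_mul_of_nonneg_left _ (by positivity)
      have e2 := (acl_bound Y hP1 m r N hN x).trans
        (mul_le_mul_of_nonneg_left (alpha_sum_le Y x) (by positivity))
      have e3 : ∑ j : Fin r × Fin N, ‖(κ : 𝕜) * bb j.1 x‖ ^ P ≤ Bc * ‖x‖ ^ P := by
        rw [hbsum]
        calc κ ^ P * N * ∑ s, ‖bb s x‖ ^ P ≤ 1 * ∑ s, ‖bb s x‖ ^ P :=
              mul_le_mul_of_nonneg_right hκP1 (Finset.sum_nonneg fun s _ => by positivity)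
          _ ≤ Bc * ‖x‖ ^ P := by rw [one_mul]; exact hbx
      linarith
    have hV : ‖∑ q ∈ Finset.univ.filter (fun q : (Fin r × Fin N) × (Fin r × Fin N) =>
        q.1 ≠ q.2), W q‖ ≤ ε / 2 * ‖x‖ := by
      apply (Real.rpow_le_rpow_iff (norm_nonneg _) (by positivity) hP0).mp
      have e0 := Y.sep ((Fin r × Fin N) × (Fin r × Fin N))
        (Finset.univ.filter (fun q : (Fin r × Fin N) × (Fin r × Fin N) => q.1 ≠ q.2))
        (fun _ => m) (fun q => lam m q.1 - lam m q.2) (fun q => ((κ : 𝕜) * z q.1 x) • g q.2.1)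
        (fun q _ => by rw [map_smul, hgpr])
        (fun q hq q' hq' hne => by
          have h := lam_sep2 m (Finset.mem_filter.mp hq).2 (Finset.mem_filter.mp hq').2
            (fun hh => hne (Prod.ext hh.1 hh.2))
          rw [pow_succ] at h
          linarith)
      rw [show ∑ q ∈ Finset.univ.filter (fun q : (Fin r × Fin N) × (Fin r × Fin N) =>
        q.1 ≠ q.2), W q = ∑ q ∈ Finset.univ.filter (fun q : (Fin r × Fin N) × (Fin r × Fin N) =>
        q.1 ≠ q.2), Y.T (lam m q.1 - lam m q.2) (((κ : 𝕜) * z q.1 x) • g q.2.1) from rfl, e0]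
      calc ∑ q ∈ Finset.univ.filter (fun q : (Fin r × Fin N) × (Fin r × Fin N) => q.1 ≠ q.2),
            ‖((κ : 𝕜) * z q.1 x) • g q.2.1‖ ^ P
          ≤ ∑ q : (Fin r × Fin N) × (Fin r × Fin N), ‖((κ : 𝕜) * z q.1 x) • g q.2.1‖ ^ P :=
            Finset.sum_le_sum_of_subset_of_nonneg (Finset.filter_subset _ _)
              fun _ _ _ => by positivity
        _ = κ ^ P * N * Γ * ∑ j, ‖z j x‖ ^ P := by
            rw [Fintype.sum_prod_type]
            have e2 : ∀ j : Fin r × Fin N, ∑ j' : Fin r × Fin N,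
                ‖((κ : 𝕜) * z (j, j').1 x) • g (j, j').2.1‖ ^ P =
                κ ^ P * N * Γ * ‖z j x‖ ^ P := by
              intro j
              rw [Fintype.sum_prod_type]
              simp only [norm_smul, norm_mul, hκn, Finset.sum_const, Finset.card_univ,
                Fintype.card_fin, nsmul_eq_mul]
              rw [hΓ, Finset.mul_sum, Finset.sum_mul]
              apply Finset.sum_congr rfl
              intro s _
              rw [Real.mul_rpow (by positivity) (norm_nonneg _),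
                Real.mul_rpow hκ0.le (norm_nonneg _)]
              ring
            rw [Finset.sum_congr rfl fun j _ => e2 j, ← Finset.mul_sum]
        _ ≤ κ ^ P * N * Γ * (2 ^ P * (2 ^ (P + 1) + Bc) * ‖x‖ ^ P) :=
            mul_le_mul_of_nonneg_left hzsum (by positivity)
        _ = (κ ^ P * N * K₂) * ‖x‖ ^ P := by rw [hK₂]; ring
        _ ≤ (ε / 2) ^ P * ‖x‖ ^ P := mul_le_mul_of_nonneg_right hb3 (by positivity)
        _ = (ε / 2 * ‖x‖) ^ P := (Real.mul_rpow (by positivity) (norm_nonneg _)).symm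
    rw [h5]
    refine (norm_add_le _ _).trans ?_
    linarith
  · -- z (R x + S x)
    intro j x
    rw [hzx, hzx, map_add, map_add, haR, haS, hbR, hbS]
    ring
  · -- surjectivity
    intro w
    have hN' : (N : 𝕜) ≠ 0 := by exact_mod_cast hN.ne'
    set a : Fin r × Fin N → 𝕜 := fun j => w j - (N : 𝕜)⁻¹ * ∑ i, w (j.1, i) with ha
    set b : Fin r → 𝕜 := fun s => κ * ∑ i, w (s, i) with hb
    refine ⟨∑ j, a j • Y.T (lam m j) f₀ + ∑ s, b s • g s, fun j => ?_⟩
    have ha0 : ∀ s, ∑ i, a (s, i) = 0 := by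
      intro s
      simp only [ha, Finset.sum_sub_distrib, Finset.sum_const, Finset.card_univ, Fintype.card_fin,
        nsmul_eq_mul]
      rw [← mul_assoc, mul_inv_cancel₀ hN', one_mul, sub_self]
    have h1 : acl Y m r N j (∑ s, b s • g s) = 0 := by
      apply hacl_V
      rw [map_sum]
      exact Finset.sum_congr rfl fun s _ => by rw [map_smul, hgpr]
    have h2 : bb j.1 (∑ j, a j • Y.T (lam m j) f₀) = 0 := hb0 _ _ (hcomb_S a)
    have h3 : bb j.1 (∑ s, b s • g s) = b j.1 := by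
      rw [map_sum, Finset.sum_eq_single j.1]
      · rw [map_smul, hdual, if_pos rfl, smul_eq_mul, mul_one]
      · intro t _ ht
        rw [map_smul, hdual, if_neg ht.symm, smul_zero]
      · intro h
        exact absurd (Finset.mem_univ _) h
    rw [hzx, map_add, map_add, hacl_comb a ha0, h1, h2, h3]
    simp only [ha, hb]
    have h4 : (N : 𝕜)⁻¹ = κ * κ := by
      field_simp
      linear_combination -hκκ
    rw [h4]
    ring
  · -- nonzero
    intro hcon
    have j₀ : Fin r × Fin N := (⟨0, hr⟩, ⟨0, hN⟩)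
    have h1 : (Y.pr (m + 1 + r * N) - Y.pr m - R) (Y.T (lam m j₀) f₀) = 0 := by
      rw [hcon]
      rfl
    rw [sub_apply, sub_apply, pr_T_pos Y hf, pr_T_zero Y hf, sub_zero] at h1
    have h2 : Y.α (Y.T (-lam m j₀) (Y.T (lam m j₀) f₀ - R (Y.T (lam m j₀) f₀))) = 0 := by
      rw [h1, map_zero, map_zero]
    rw [map_sub, map_sub, alpha_u Y hf hα, if_pos rfl, hRx, hcomb, acl_apply,
      alpha_u Y hf hα, if_pos rfl] at h2
    have h3 : ∑ i : Fin N, Y.α (Y.T (-lam m (j₀.1, i)) (Y.T (lam m j₀) f₀)) = 1 := by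
      rw [Finset.sum_eq_single j₀.2]
      · rw [alpha_u Y hf hα, if_pos rfl]
      · intro i _ hi
        rw [alpha_u Y hf hα, if_neg]
        intro h
        exact hi (congrArg Prod.snd h)
      · intro h
        exact absurd (Finset.mem_univ _) h
    rw [h3] at h2
    have hN' : (N : 𝕜) ≠ 0 := by exact_mod_cast hN.ne'
    have h4 : ((N : 𝕜)⁻¹) = 0 := by linear_combination h2
    exact inv_ne_zero hN' h4

end

end Pool.Agent.H296R4
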